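import Pool.Agent.H63.TC.Defs
import Pool.Agent.H63.VC3.Clausen

/-! # The critical point in the half strip -/

namespace Pool.Agent.H63.TC

open Pool.Agent.H63.VC Pool.Agent.H63.VC3 Pool.Agent.H63.VC4 Pool.Agent.H63.VC5
  Pool.Agent.H63.TW Complex

theorem LT_neg (w : ℂ) : LT (-w) = -LT w := by
  unfold TW.LT
  rw [neg_div, sub_neg_eq_add, ← sub_eq_add_neg]
  ring

private theorem Crw_re1 (w : ℂ) : (3 / 4 + w / 2).re = 3 / 4 + w.re / 2 := by
  have e : (3 / 4 + w / 2 : ℂ) = ((3 / 4 : ℝ) : ℂ) + w / 2 := by push_cast; ring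
  rw [e, Complex.add_re, Complex.ofReal_re, Complex.div_ofNat_re]

private theorem Crw_re2 (w : ℂ) : (3 / 4 - w / 2).re = 3 / 4 - w.re / 2 := by
  have e : (3 / 4 - w / 2 : ℂ) = ((3 / 4 : ℝ) : ℂ) - w / 2 := by push_cast; ring
  rw [e, Complex.sub_re, Complex.ofReal_re, Complex.div_ofNat_re]

theorem LT_conj (w : ℂ) (h : |w.re| < 1 / 2) :
    LT ((starRingEnd ℂ) w) = (starRingEnd ℂ) (LT w) := by
  obtain ⟨h1, h2⟩ := abs_lt.1 h
  unfold TW.LT
  rw [map_sub, ← hh_conj _ (by rw [Crw_re1]; linarith) (by rw [Crw_re1]; linarith),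
    ← hh_conj _ (by rw [Crw_re2]; linarith) (by rw [Crw_re2]; linarith)]
  simp only [map_add, map_sub, map_div₀, map_ofNat]

private theorem Crw_mp_pos (p s : ℤ) (h : 0 < p * s) : mp p s = 2 * p.natAbs - 1 := by
  unfold mp
  rw [if_pos h]

private theorem Crw_mp_neg (p s : ℤ) (h : p * s < 0) : mp p s = 2 * p.natAbs := by
  unfold mp
  rw [if_neg (not_lt.2 h.le)]

/-- `2 m + 1 = |4 p - s|`. -/
private theorem Crw_mp (p s : ℤ) (hp : 2 ≤ |p|) (hs : s = 1 ∨ s = -1) :
    2 ≤ mp p s ∧ ((p < 0 ∧ 2 * (mp p s : ℤ) + 1 = -(4 * p - s)) ∨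
      (0 < p ∧ 2 * (mp p s : ℤ) + 1 = 4 * p - s)) := by
  rcases lt_or_ge p 0 with h | h
  · rw [abs_of_neg h] at hp
    rcases hs with rfl | rfl
    · rw [Crw_mp_neg p 1 (by omega)]
      refine ⟨by omega, Or.inl ⟨h, by omega⟩⟩
    · rw [Crw_mp_pos p (-1) (by omega)]
      refine ⟨by omega, Or.inl ⟨h, by omega⟩⟩
  · rw [abs_of_nonneg h] at hp
    rcases hs with rfl | rfl
    · rw [Crw_mp_pos p 1 (by omega)]
      refine ⟨by omega, Or.inr ⟨by omega, by omega⟩⟩
    · rw [Crw_mp_neg p (-1) (by omega)]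
      refine ⟨by omega, Or.inr ⟨by omega, by omega⟩⟩

theorem critW_of (p s : ℤ) (hp : 2 ≤ |p|) (hs : s = 1 ∨ s = -1) (v : ℂ) (hc : CritT p s v) :
    CritW (sgr p) (mp p s) (sgr p * v) := by
  obtain ⟨hm, h⟩ := Crw_mp p s hp hs
  have heq := hc.eq
  have hre := hc.re_lt
  have hsg := hc.sgn
  have him := hc.im_pos
  rcases h with ⟨h1, h2⟩ | ⟨h1, h2⟩
  · have hσ : sgr p = 1 := by unfold sgr; rw [if_pos h1]
    have e : (2 * (mp p s : ℝ) + 1) = -(4 * p - s : ℝ) := by exact_mod_cast h2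
    have e' : (2 * (mp p s : ℂ) + 1) = -(4 * p - s : ℂ) := by exact_mod_cast h2
    have hpos : (4 * p - s : ℝ) < 0 := by
      have : (0 : ℝ) ≤ (mp p s : ℝ) := Nat.cast_nonneg _
      linarith
    rw [hσ]
    have e1 : (((1 : ℝ) : ℂ) * v) = v := by rw [Complex.ofReal_one, one_mul]
    have hv : 0 < v.re := by
      by_contra hcon
      exact absurd hsg (not_lt.2 (mul_nonneg_of_nonpos_of_nonpos hpos.le (not_lt.1 hcon)))
    refine ⟨Or.inl rfl, hm, ?_, ?_, ?_, ?_⟩
    · rw [e1, e', Complex.ofReal_one]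
      linear_combination heq
    · rw [e1]
      exact hv
    · rw [e1, e]
      rw [abs_of_pos hv, abs_of_neg hpos] at hre
      exact hre
    · rw [e1, one_mul]
      exact him
  · have hσ : sgr p = -1 := by unfold sgr; rw [if_neg (not_lt.2 h1.le)]
    have e : (2 * (mp p s : ℝ) + 1) = (4 * p - s : ℝ) := by exact_mod_cast h2
    have e' : (2 * (mp p s : ℂ) + 1) = (4 * p - s : ℂ) := by exact_mod_cast h2
    have hpos : 0 < (4 * p - s : ℝ) := by
      have : (0 : ℝ) ≤ (mp p s : ℝ) := Nat.cast_nonneg _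
      linarith
    rw [hσ]
    have e1 : (((-1 : ℝ) : ℂ) * v) = -v := by
      rw [Complex.ofReal_neg, Complex.ofReal_one, neg_one_mul]
    have hv : v.re < 0 := by
      by_contra hcon
      exact absurd hsg (not_lt.2 (mul_nonneg hpos.le (not_lt.1 hcon)))
    refine ⟨Or.inr rfl, hm, ?_, ?_, ?_, ?_⟩
    · rw [e1, e', LT_neg, Complex.ofReal_neg, Complex.ofReal_one]
      linear_combination heq
    · rw [e1, Complex.neg_re]
      linarith
    · rw [e1, e, Complex.neg_re]
      rw [abs_of_neg hv, abs_of_pos hpos] at hre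
      exact hre
    · rw [e1, Complex.neg_im]
      linarith

theorem critW_conj (m : ℕ) (w : ℂ) (hc : CritW (-1) m w) : CritW 1 m ((starRingEnd ℂ) w) := by
  have hm := hc.hm
  have hm' : (2 : ℝ) ≤ m := by exact_mod_cast hm
  have h0 := hc.re_pos
  have h1 := hc.re_lt
  have h2 : w.re < 1 / 2 := by nlinarith
  refine ⟨Or.inl rfl, hm, ?_, ?_, ?_, ?_⟩
  · rw [LT_conj w (by rw [abs_of_pos h0]; exact h2)]
    have h5 := congrArg (starRingEnd ℂ) hc.eq
    simp only [map_sub, map_add, map_mul, map_one, map_ofNat, Complex.conj_ofReal,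
      Complex.conj_I, map_natCast] at h5
    push_cast at h5 ⊢
    linear_combination -h5
  · rw [Complex.conj_re]
    exact h0
  · rw [Complex.conj_re]
    exact h1
  · have := hc.im_pos
    rw [Complex.conj_im]
    linarith

theorem conway_mp (p s : ℤ) (hs : s = 1 ∨ s = -1) (hp : 2 ≤ |p| ∨ p * s = -1) :
    (conway [p, s]).sum = mp p s + 2 ∧
      ∀ i, 1 ≤ i → i ≤ mp p s - 1 → (IsHinge (conway [p, s]) i ↔ i = mp p s - 1) := by
  have hsa : s.natAbs = 1 := by rcases hs with rfl | rfl <;> rfl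
  have hp0 : p ≠ 0 := by
    rintro rfl
    rcases hp with h | h
    · norm_num at h
    · norm_num at h
  have hs0 : s ≠ 0 := by rcases hs with rfl | rfl <;> norm_num
  have hpa : 1 ≤ p.natAbs := Nat.one_le_iff_ne_zero.2 (Int.natAbs_ne_zero.2 hp0)
  rcases lt_or_gt_of_ne (mul_ne_zero hp0 hs0) with h | h
  · have e : conway [p, s] = [2 * p.natAbs, 2] := by
      unfold conway conwayAux
      rw [if_neg (not_lt.2 h.le)]
      simp [conwayAux, hsa]
    rw [e, Crw_mp_neg p s h]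
    refine ⟨by simp, fun i h1 h2 => ⟨?_, ?_⟩⟩
    · rintro ⟨j, hj1, hj2, hj⟩
      have hj2' : j < 2 := by simpa using hj2
      obtain rfl : j = 1 := by omega
      simp at hj
      omega
    · intro hi
      refine ⟨1, le_rfl, by simp, ?_⟩
      simp
      omega
  · have e : conway [p, s] = [2 * p.natAbs - 1, 1, 1] := by
      unfold conway conwayAux
      rw [if_pos h]
      simp [conwayAux, hsa]
    rw [e, Crw_mp_pos p s h]
    refine ⟨by simp, fun i h1 h2 => ⟨?_, ?_⟩⟩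
    · rintro ⟨j, hj1, hj2, hj⟩
      have hj2' : j < 3 := by simpa using hj2
      obtain rfl | rfl : j = 1 ∨ j = 2 := by omega
      · simp at hj
        omega
      · simp at hj
        omega
    · intro hi
      refine ⟨1, le_rfl, by simp, ?_⟩
      simp
      omega

end Pool.Agent.H63.TC
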