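import Pool.Agent.H63.TW.Defs
import Pool.Agent.H63.VC5.OrdTerm

/-! # The complex volume from one fan -/

namespace Pool.Agent.H63.TC

open Pool.Agent.H63.VC Pool.Agent.H63.VC3 Pool.Agent.H63.VC4 Pool.Agent.H63.VC5
  Pool.Agent.H63.TW Complex
open scoped BigOperators

open Classical in
theorem CvChain_turn {a : List ℕ} {b : Bool} {m : ℕ} (hm : 2 ≤ m)
    (hin : ∀ i, 1 ≤ i → i ≤ m - 1 → (IsHinge a i ↔ i = m - 1)) :
    (∀ i, i ≤ m - 2 → turn a b i = b) ∧ turn a b (m - 1) = !b := by
  have h1 : ∀ i, i ≤ m - 2 → turn a b i = b := by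
    intro i
    induction i with
    | zero => intro _; rfl
    | succ i ih =>
      intro hi
      have h2 : ¬ IsHinge a (i + 1) := fun h => by
        have := (hin (i + 1) (by omega) (by omega)).1 h
        omega
      show (if IsHinge a (i + 1) then !(turn a b i) else turn a b i) = b
      rw [if_neg h2]
      exact ih (by omega)
  refine ⟨h1, ?_⟩
  obtain ⟨n, hn⟩ : ∃ n, m - 1 = n + 1 := ⟨m - 2, by omega⟩
  rw [hn]
  have h2 : IsHinge a (n + 1) := (hin (n + 1) (by omega) (by omega)).2 hn.symm
  show (if IsHinge a (n + 1) then !(turn a b n) else turn a b n) = !b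
  rw [if_pos h2, h1 n (by omega)]

theorem CvChain_sloT {t : ℕ → Bool} {m : ℕ} (hm : 2 ≤ m) (ht : ∀ i, i ≤ m - 2 → t i = true) :
    ∀ i, 1 ≤ i → i ≤ m - 1 → slo t i = (1, i + 2, i + 1) ∧
      cls t i = (if Even i then (1, 2, 0) else (1, 0, 2)) := by
  intro i hi
  induction i, hi using Nat.le_induction with
  | base =>
    intro _
    have h0 : t 0 = true := ht 0 (by omega)
    constructor
    · show (if t 0 then ((slo t 0).1, 0 + 3, (slo t 0).2.1)
        else (0 + 3, (slo t 0).2.1, (slo t 0).1)) = _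
      rw [if_pos h0]
      rfl
    · show (if t 0 then ((cls t 0).1, (cls t 0).2.2, (cls t 0).2.1)
        else ((cls t 0).2.2, (cls t 0).2.1, (cls t 0).1)) = _
      rw [if_pos h0, if_neg (by decide)]
      rfl
  | succ i hi ih =>
    intro hi2
    obtain ⟨g1, g2⟩ := ih (by omega)
    have h0 : t i = true := ht i (by omega)
    constructor
    · show (if t i then ((slo t i).1, i + 3, (slo t i).2.1)
        else (i + 3, (slo t i).2.1, (slo t i).1)) = _
      rw [if_pos h0, g1]
    · show (if t i then ((cls t i).1, (cls t i).2.2, (cls t i).2.1)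
        else ((cls t i).2.2, (cls t i).2.1, (cls t i).1)) = _
      rw [if_pos h0, g2]
      by_cases hev : Even i
      · rw [if_pos hev, if_neg (by rw [Nat.even_add_one, not_not]; exact hev)]
      · rw [if_neg hev, if_pos (by rw [Nat.even_add_one]; exact hev)]

theorem CvChain_sloF {t : ℕ → Bool} {m : ℕ} (hm : 2 ≤ m) (ht : ∀ i, i ≤ m - 2 → t i = false) :
    ∀ i, 1 ≤ i → i ≤ m - 1 → slo t i = (i + 2, 2, if i = 1 then 1 else i + 1) ∧
      cls t i = (if Even i then (1, 2, 0) else (0, 2, 1)) := by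
  intro i hi
  induction i, hi using Nat.le_induction with
  | base =>
    intro _
    have h0 : ¬ t 0 = true := by
      rw [ht 0 (by omega)]
      decide
    constructor
    · show (if t 0 then ((slo t 0).1, 0 + 3, (slo t 0).2.1)
        else (0 + 3, (slo t 0).2.1, (slo t 0).1)) = _
      rw [if_neg h0]
      rfl
    · show (if t 0 then ((cls t 0).1, (cls t 0).2.2, (cls t 0).2.1)
        else ((cls t 0).2.2, (cls t 0).2.1, (cls t 0).1)) = _
      rw [if_neg h0, if_neg (by decide)]
      rfl
  | succ i hi ih =>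
    intro hi2
    obtain ⟨g1, g2⟩ := ih (by omega)
    have h0 : ¬ t i = true := by
      rw [ht i (by omega)]
      decide
    constructor
    · show (if t i then ((slo t i).1, i + 3, (slo t i).2.1)
        else (i + 3, (slo t i).2.1, (slo t i).1)) = _
      rw [if_neg h0, g1, if_neg (by omega : ¬ i + 1 = 1)]
    · show (if t i then ((cls t i).1, (cls t i).2.2, (cls t i).2.1)
        else ((cls t i).2.2, (cls t i).2.1, (cls t i).1)) = _
      rw [if_neg h0, g2]
      by_cases hev : Even i
      · rw [if_pos hev, if_neg (by rw [Nat.even_add_one, not_not]; exact hev)]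
      · rw [if_neg hev, if_pos (by rw [Nat.even_add_one]; exact hev)]

theorem CvChain_ordr {w : Fin 3} (hw : w = 1 ∨ w = 2) (j idx : ℕ) (h : Bool) :
    (ordr w j idx h).1 ≠ (ordr w j idx h).2.1 ∧
      (ordr w j idx h).1 ≠ (ordr w j idx h).2.2 ∧
      (ordr w j idx h).2.1 ≠ (ordr w j idx h).2.2 := by
  unfold ordr
  rcases hw with h1 | h1 <;> rw [h1] <;> split_ifs <;> decide

/-- the complex volume from labels, shapes and flattenings of the layers -/
theorem CvChain_gen {m : ℕ} (hm : 2 ≤ m) {a : List ℕ} (ha : a.sum = m + 2) {b : Bool}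
    {w : Fin 3} (hw : w = 1 ∨ w = 2) (hwc : w = (cls (turn a b) m).2.2)
    (l z : ℕ → ℂ) (P Q : ℕ → ℤ) (h12 : l 1 = l 2)
    (hfold : l (slo (turn a b) m).1 = l (slo (turn a b) m).2.1)
    (hc1 : (cls (turn a b) 1).2.2 = -w)
    (hne : ∀ i, 1 ≤ i → i ≤ m - 1 → (cls (turn a b) i).1 ≠ (cls (turn a b) i).2.1 ∧
      (cls (turn a b) i).1 ≠ (cls (turn a b) i).2.2 ∧
      (cls (turn a b) i).2.1 ≠ (cls (turn a b) i).2.2)
    (hz : ∀ i, 1 ≤ i → i ≤ m - 1 → 0 < (z i).im ∧
      z i = (if (cls (turn a b) i).2.2 = -w then -1 else 1) *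
        exp (2 * l (slo (turn a b) i).1 - 2 * l (slo (turn a b) i).2.1))
    (hP : ∀ i, 1 ≤ i → i ≤ m - 1 → Complex.log (z i) + P i * (Real.pi * I) =
      2 * l (slo (turn a b) i).1 - 2 * l (slo (turn a b) i).2.1)
    (hQ : ∀ i, 1 ≤ i → i ≤ m - 1 → -Complex.log (1 - z i) + Q i * (Real.pi * I) =
      2 * l (slo (turn a b) i).2.1 - l (slo (turn a b) i).2.2 - l (i + 3)) :
    ∃ Z : ℂ, IsComplexVolume a b Z ∧
      Cg Z (∑ i ∈ Finset.Icc 1 (m - 1), ((rogers (z i) (P i) (Q i) + (Real.pi : ℂ) ^ 2 *
          ordConst (cls (turn a b) i) (ordr w 1 i true) (P i) (Q i)) +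
        (rogers (z i) (P i) (Q i) + (Real.pi : ℂ) ^ 2 *
          ordConst (cls (turn a b) i) (ordr w 1 i false) (P i) (Q i)))) := by
  have e1 : a.sum - 2 = m := by omega
  have e2 : a.sum - 3 = m - 1 := by omega
  set t := turn a b with ht
  have hterm : ∀ (i : ℕ) (h : Bool), ∃ p q : ℤ, i ∈ Finset.Icc 1 (m - 1) →
      (Complex.log (ordShape (z i) (cls t i) (ordr w 1 i h)) + p * (Real.pi * I) =
        pairSum l (slo t i) i (cls t i) (ordr w 1 i h).2.2 -
        pairSum l (slo t i) i (cls t i) (ordr w 1 i h).2.1) ∧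
      (-Complex.log (1 - ordShape (z i) (cls t i) (ordr w 1 i h)) + q * (Real.pi * I) =
        pairSum l (slo t i) i (cls t i) (ordr w 1 i h).2.1 -
        pairSum l (slo t i) i (cls t i) (ordr w 1 i h).1) ∧
      Cg ((ordSign (cls t i) (ordr w 1 i h) : ℂ) *
        rogers (ordShape (z i) (cls t i) (ordr w 1 i h)) p q)
        (rogers (z i) (P i) (Q i) +
          (Real.pi : ℂ) ^ 2 * ordConst (cls t i) (ordr w 1 i h) (P i) (Q i)) := by
    intro i h
    by_cases hi : i ∈ Finset.Icc 1 (m - 1)
    · obtain ⟨hi1, hi2⟩ := Finset.mem_Icc.1 hi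
      obtain ⟨p, q, f1, f2, f3⟩ := ord_term (z i) (hz i hi1 hi2).1 (P i) (Q i)
        (l (slo t i).1) (l (slo t i).2.1) (l (slo t i).2.2) (l (i + 3)) (hP i hi1 hi2)
        (hQ i hi1 hi2) (cls t i) (ordr w 1 i h) (hne i hi1 hi2) (CvChain_ordr hw 1 i h)
        (pairSum l (slo t i) i (cls t i)) (fun X => rfl)
      exact ⟨p, q, fun _ => ⟨f1, f2, f3⟩⟩
    · exact ⟨0, 0, fun h => absurd h hi⟩
  choose p q hpq using hterm
  refine ⟨_, ⟨l, z, w, 1, p, q, ?_, ?_, h12, ?_, ?_, ?_, hc1, ?_, rfl⟩, ?_⟩
  · rw [e1]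
    exact hwc
  · rcases hw with h | h <;> rw [h] <;> decide
  · rw [e1]
    exact hfold
  · intro i hi
    rw [e2] at hi
    obtain ⟨hi1, hi2⟩ := Finset.mem_Icc.1 hi
    obtain ⟨hzi, hze⟩ := hz i hi1 hi2
    refine ⟨hzi, hze, ?_⟩
    have hne1 : 1 - z i ≠ 0 := by
      intro h
      have h2 := congrArg Complex.im h
      simp at h2
      linarith
    have h1 : Complex.log (1 - z i) = Q i * (Real.pi * I) +
        (l (slo t i).2.2 + l (i + 3) - 2 * l (slo t i).2.1) := by
      linear_combination -(hQ i hi1 hi2)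
    have h2 : 1 - z i = exp (Q i * (Real.pi * I)) *
        exp (l (slo t i).2.2 + l (i + 3) - 2 * l (slo t i).2.1) := by
      rw [← Complex.exp_add, ← h1, Complex.exp_log hne1]
    rcases OrdTerm_sign (Q i) with h3 | h3
    · left
      rw [h2, h3, one_mul]
    · right
      rw [h2, h3, neg_one_mul]
  · rw [Finset.mem_Icc]
    omega
  · intro i hi h
    rw [e2] at hi
    exact ⟨(hpq i h hi).1, (hpq i h hi).2.1⟩
  · rw [e2]
    apply Cg.sum
    intro i hi
    have hT := (hpq i true hi).2.2
    have hF := (hpq i false hi).2.2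
    rw [Fintype.sum_bool]
    exact hT.add hF

theorem CvChain_sum (m : ℕ) (hm : 2 ≤ m) (f : ℕ → ℂ) :
    ∑ k ∈ Finset.Icc 2 m, f k = ∑ i ∈ Finset.Icc 1 (m - 1), f (i + 1) := by
  refine Finset.sum_nbij' (fun k => k - 1) (fun i => i + 1) ?_ ?_ ?_ ?_ ?_
  · intro k hk
    rw [Finset.mem_Icc] at hk ⊢
    omega
  · intro i hi
    rw [Finset.mem_Icc] at hi ⊢
    omega
  · intro k hk
    rw [Finset.mem_Icc] at hk
    show k - 1 + 1 = k
    omega
  · intro i _
    show i + 1 - 1 = i
    omega
  · intro k hk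
    rw [Finset.mem_Icc] at hk
    show f k = f (k - 1 + 1)
    rw [Nat.sub_add_cancel (by omega)]

/-- the constants for a turn to the left -/
theorem CvChain_constT (i : ℕ) (hi : 2 ≤ i) (P Q : ℤ) :
    ∃ n : ℤ, ordConst (if Even i then (1, 2, 0) else (1, 0, 2)) (ordr 1 1 i true) P Q +
      ordConst (if Even i then (1, 2, 0) else (1, 0, 2)) (ordr 1 1 i false) P Q = 1 / 3 + n := by
  have e : ∀ h : Bool, ordr 1 1 i h = (1, 0, -1) := by
    intro h
    unfold ordr
    rw [if_neg]
    rintro (h4 | ⟨h4, -⟩) <;> omega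
  rw [e, e]
  by_cases hev : Even i
  · rw [if_pos hev]
    refine ⟨Q, ?_⟩
    unfold ordConst
    simp (decide := true) only [if_true, if_false]
    ring
  · rw [if_neg hev]
    refine ⟨0, ?_⟩
    unfold ordConst
    simp (decide := true) only [if_false]
    push_cast
    ring

/-- the constants for a turn to the right -/
theorem CvChain_constF (i : ℕ) (hi : 2 ≤ i) (P Q : ℤ) :
    ∃ n : ℤ, ordConst (if Even i then (1, 2, 0) else (0, 2, 1)) (ordr 2 1 i true) P Q +
      ordConst (if Even i then (1, 2, 0) else (0, 2, 1)) (ordr 2 1 i false) P Q = -1 / 3 + n := by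
  have e : ∀ h : Bool, ordr 2 1 i h = (2, 0, -2) := by
    intro h
    unfold ordr
    rw [if_neg]
    rintro (h4 | ⟨h4, -⟩) <;> omega
  rw [e, e]
  by_cases hev : Even i
  · rw [if_pos hev]
    refine ⟨Q + 1, ?_⟩
    unfold ordConst
    simp (decide := true) only [if_true, if_false]
    push_cast
    ring
  · rw [if_neg hev]
    refine ⟨P, ?_⟩
    unfold ordConst
    simp (decide := true) only [if_true, if_false]
    ring

theorem CvChain_const1T (P Q : ℤ) : ordConst (1, 0, 2) (ordr 1 1 1 true) P Q +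
    ordConst (1, 0, 2) (ordr 1 1 1 false) P Q = P / 2 := by
  have e1 : ordr 1 1 1 true = (0, 1, -1) := by
    unfold ordr
    rw [if_pos (Or.inr ⟨rfl, rfl⟩)]
  have e2 : ordr 1 1 1 false = (1, 0, -1) := by
    unfold ordr
    rw [if_neg]
    rintro (h4 | ⟨-, h4⟩)
    · omega
    · exact absurd h4 (by decide)
  rw [e1, e2]
  unfold ordConst
  simp (decide := true) only [if_true, if_false]
  ring

theorem CvChain_const1F (P Q : ℤ) : ordConst (0, 2, 1) (ordr 2 1 1 true) P Q +
    ordConst (0, 2, 1) (ordr 2 1 1 false) P Q = P / 2 := by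
  have e1 : ordr 2 1 1 true = (0, 2, -2) := by
    unfold ordr
    rw [if_pos (Or.inr ⟨rfl, rfl⟩)]
  have e2 : ordr 2 1 1 false = (2, 0, -2) := by
    unfold ordr
    rw [if_neg]
    rintro (h4 | ⟨-, h4⟩)
    · omega
    · exact absurd h4 (by decide)
  rw [e1, e2]
  unfold ordConst
  simp (decide := true) only [if_true, if_false]
  ring

theorem cv_chain (σ : ℝ) (hσ : σ = 1 ∨ σ = -1) (m : ℕ) (hm : 2 ≤ m) (a : List ℕ)
    (ha : a.sum = m + 2)
    (hin : ∀ i, 1 ≤ i → i ≤ m - 1 → (IsHinge a i ↔ i = m - 1))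
    (lam : ℕ → ℂ) (z : ℕ → ℂ) (P Q : ℕ → ℤ)
    (h1 : lam 1 = 0) (hend : lam (m + 1) = lam m)
    (hz : ∀ k, 2 ≤ k → k ≤ m → 0 < (z k).im ∧ z k = (-1) ^ (k + 1) * exp (-2 * σ * lam k))
    (hP : ∀ k, 2 ≤ k → k ≤ m → Complex.log (z k) + P k * (Real.pi * I) = -2 * σ * lam k)
    (hQ : ∀ k, 2 ≤ k → k ≤ m → -Complex.log (1 - z k) + Q k * (Real.pi * I) =
      (1 + σ) * lam k - lam (k - 1) - lam (k + 1)) :
    ∃ Z : ℂ, IsComplexVolume a (decide (0 < σ)) Z ∧
      Cg Z (∑ k ∈ Finset.Icc 2 m, (2 * rogers (z k) (P k) (Q k) +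
        (Real.pi : ℂ) ^ 2 * (if k = 2 then 1 / 2 else σ / 3))) := by
  set l : ℕ → ℂ := fun i => if i ≤ 1 then 0 else lam (i - 1) with hl
  have l1 : l 1 = 0 := by
    rw [hl]
    rfl
  have lS : ∀ i, 1 ≤ i → l (i + 1) = lam i := by
    intro i hi
    rw [hl]
    simp only
    rw [if_neg (by omega), Nat.add_sub_cancel]
  have l2 : l 2 = 0 := by
    rw [lS 1 le_rfl, h1]
  have hPodd : Odd (P 2) := by
    have hz2 := hz 2 le_rfl hm
    refine (flat_parity (z 2) _ (fun h => by rw [h] at hz2; simp at hz2) (P 2)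
      (hP 2 le_rfl hm)).2 ?_
    rw [hz2.2]
    ring
  obtain ⟨n0, hn0⟩ := hPodd
  have hPc : (P 2 : ℂ) = 2 * n0 + 1 := by
    rw [hn0]
    push_cast
    ring
  rcases hσ with rfl | rfl
  · -- turn to the left
    have hb : decide ((0 : ℝ) < 1) = true := by simp
    rw [hb]
    obtain ⟨t1, t2⟩ := CvChain_turn (b := true) hm hin
    have hs := CvChain_sloT (t := turn a true) hm t1
    obtain ⟨n, hn⟩ : ∃ n, m = n + 1 := ⟨m - 1, by omega⟩
    have t2' : ¬ turn a true n = true := by
      have : m - 1 = n := by omega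
      rw [← this, t2]
      decide
    have hsn := hs n (by omega) (by omega)
    have hsm : slo (turn a true) m = (m + 2, m + 1, 1) := by
      rw [hn]
      show (if turn a true n then _ else (n + 3, (slo (turn a true) n).2.1,
        (slo (turn a true) n).1)) = _
      rw [if_neg t2', hsn.1]
    have hcm : (cls (turn a true) m).2.2 = 1 := by
      rw [hn]
      show (if turn a true n then _ else ((cls (turn a true) n).2.2, (cls (turn a true) n).2.1,
        (cls (turn a true) n).1)).2.2 = _
      rw [if_neg t2', hsn.2]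
      split_ifs <;> rfl
    have hodd1 : ¬ Even 1 := by decide
    obtain ⟨Z, hZ, hZ'⟩ := CvChain_gen (b := true) (w := 1) hm ha (Or.inl rfl) hcm.symm l
      (fun i => z (i + 1)) (fun i => P (i + 1)) (fun i => Q (i + 1)) (by rw [l1, l2])
      (by
        rw [hsm]
        show l (m + 1 + 1) = l (m + 1)
        rw [lS (m + 1) (by omega), lS m (by omega), hend])
      (by
        rw [(hs 1 le_rfl (by omega)).2, if_neg hodd1]
        decide)
      (by
        intro i hi1 hi2
        rw [(hs i hi1 hi2).2]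
        split_ifs <;> decide)
      (by
        intro i hi1 hi2
        obtain ⟨g1, g2⟩ := hz (i + 1) (by omega) (by omega)
        refine ⟨g1, ?_⟩
        rw [(hs i hi1 hi2).1, (hs i hi1 hi2).2]
        show z (i + 1) = (if (if Even i then ((1, 2, 0) : Fin 3 × Fin 3 × Fin 3) else (1, 0, 2)).2.2 = -1
          then -1 else 1) * exp (2 * l 1 - 2 * l (i + 1 + 1))
        rw [g2, l1, lS (i + 1) (by omega)]
        by_cases hev : Even i
        · rw [if_pos hev, if_neg (by decide), Even.neg_one_pow (by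
            rw [show i + 1 + 1 = i + 2 from rfl, Nat.even_add]
            exact ⟨fun _ => by decide, fun _ => hev⟩)]
          congr 2
          push_cast
          ring
        · rw [if_neg hev, if_pos (by decide), Odd.neg_one_pow (by
            rw [← Nat.not_even_iff_odd, show i + 1 + 1 = i + 2 from rfl, Nat.even_add]
            intro h
            exact hev (h.2 (by decide)))]
          congr 2
          push_cast
          ring)
      (by
        intro i hi1 hi2
        rw [(hs i hi1 hi2).1]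
        show _ = 2 * l 1 - 2 * l (i + 1 + 1)
        rw [l1, lS (i + 1) (by omega)]
        have g := hP (i + 1) (by omega) (by omega)
        rw [g]
        push_cast
        ring)
      (by
        intro i hi1 hi2
        rw [(hs i hi1 hi2).1]
        show _ = 2 * l (i + 1 + 1) - l (i + 1) - l (i + 2 + 1)
        rw [lS (i + 1) (by omega), lS i hi1, lS (i + 2) (by omega)]
        have g := hQ (i + 1) (by omega) (by omega)
        rw [g, Nat.add_sub_cancel]
        push_cast
        ring)
    refine ⟨Z, hZ, hZ'.trans ?_⟩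
    rw [CvChain_sum m hm]
    apply Cg.sum
    intro i hi
    obtain ⟨hi1, hi2⟩ := Finset.mem_Icc.1 hi
    rw [(hs i hi1 hi2).2]
    by_cases hi3 : i = 1
    · subst hi3
      rw [if_neg hodd1, if_pos rfl]
      have hc := CvChain_const1T (P (1 + 1)) (Q (1 + 1))
      have hPc' : (P (1 + 1) : ℂ) = 2 * n0 + 1 := hPc
      rw [hPc'] at hc
      refine ⟨n0, ?_⟩
      push_cast
      linear_combination (Real.pi : ℂ) ^ 2 * hc
    · rw [if_neg (by omega : ¬ i + 1 = 2)]
      obtain ⟨n1, hn1⟩ := CvChain_constT i (by omega) (P (i + 1)) (Q (i + 1))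
      refine ⟨n1, ?_⟩
      push_cast
      linear_combination (Real.pi : ℂ) ^ 2 * hn1
  · -- turn to the right
    have hb : decide ((0 : ℝ) < -1) = false := by
      rw [decide_eq_false_iff_not]
      norm_num
    rw [hb]
    obtain ⟨t1, t2⟩ := CvChain_turn (b := false) hm hin
    have hs := CvChain_sloF (t := turn a false) hm t1
    obtain ⟨n, hn⟩ : ∃ n, m = n + 1 := ⟨m - 1, by omega⟩
    have t2' : turn a false n = true := by
      have : m - 1 = n := by omega
      rw [← this, t2]
      decide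
    have hsn := hs n (by omega) (by omega)
    have hsm : slo (turn a false) m = (m + 1, m + 2, 2) := by
      rw [hn]
      show (if turn a false n then ((slo (turn a false) n).1, n + 3, (slo (turn a false) n).2.1)
        else _) = _
      rw [if_pos t2', hsn.1]
    have hcm : (cls (turn a false) m).2.2 = 2 := by
      rw [hn]
      show (if turn a false n then ((cls (turn a false) n).1, (cls (turn a false) n).2.2,
        (cls (turn a false) n).2.1) else _).2.2 = _
      rw [if_pos t2', hsn.2]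
      split_ifs <;> rfl
    have hodd1 : ¬ Even 1 := by decide
    obtain ⟨Z, hZ, hZ'⟩ := CvChain_gen (b := false) (w := 2) hm ha (Or.inr rfl) hcm.symm l
      (fun i => z (i + 1)) (fun i => P (i + 1)) (fun i => Q (i + 1)) (by rw [l1, l2])
      (by
        rw [hsm]
        show l (m + 1) = l (m + 1 + 1)
        rw [lS (m + 1) (by omega), lS m (by omega), hend])
      (by
        rw [(hs 1 le_rfl (by omega)).2, if_neg hodd1]
        decide)
      (by
        intro i hi1 hi2
        rw [(hs i hi1 hi2).2]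
        split_ifs <;> decide)
      (by
        intro i hi1 hi2
        obtain ⟨g1, g2⟩ := hz (i + 1) (by omega) (by omega)
        refine ⟨g1, ?_⟩
        rw [(hs i hi1 hi2).1, (hs i hi1 hi2).2]
        show z (i + 1) = (if (if Even i then ((1, 2, 0) : Fin 3 × Fin 3 × Fin 3) else (0, 2, 1)).2.2 = -2
          then -1 else 1) * exp (2 * l (i + 1 + 1) - 2 * l 2)
        rw [g2, l2, lS (i + 1) (by omega)]
        by_cases hev : Even i
        · rw [if_pos hev, if_neg (by decide), Even.neg_one_pow (by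
            rw [show i + 1 + 1 = i + 2 from rfl, Nat.even_add]
            exact ⟨fun _ => by decide, fun _ => hev⟩)]
          congr 2
          push_cast
          ring
        · rw [if_neg hev, if_pos (by decide), Odd.neg_one_pow (by
            rw [← Nat.not_even_iff_odd, show i + 1 + 1 = i + 2 from rfl, Nat.even_add]
            intro h
            exact hev (h.2 (by decide)))]
          congr 2
          push_cast
          ring)
      (by
        intro i hi1 hi2
        rw [(hs i hi1 hi2).1]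
        show _ = 2 * l (i + 1 + 1) - 2 * l 2
        rw [l2, lS (i + 1) (by omega)]
        have g := hP (i + 1) (by omega) (by omega)
        rw [g]
        push_cast
        ring)
      (by
        intro i hi1 hi2
        rw [(hs i hi1 hi2).1]
        show _ = 2 * l 2 - l (if i = 1 then 1 else i + 1) - l (i + 2 + 1)
        have hbeh : l (if i = 1 then 1 else i + 1) = lam i := by
          by_cases hi3 : i = 1
          · rw [if_pos hi3, l1, hi3, h1]
          · rw [if_neg hi3, lS i hi1]
        rw [hbeh, l2, lS (i + 2) (by omega)]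
        have g := hQ (i + 1) (by omega) (by omega)
        rw [g, Nat.add_sub_cancel]
        push_cast
        ring)
    refine ⟨Z, hZ, hZ'.trans ?_⟩
    rw [CvChain_sum m hm]
    apply Cg.sum
    intro i hi
    obtain ⟨hi1, hi2⟩ := Finset.mem_Icc.1 hi
    rw [(hs i hi1 hi2).2]
    by_cases hi3 : i = 1
    · subst hi3
      rw [if_neg hodd1, if_pos rfl]
      have hc := CvChain_const1F (P (1 + 1)) (Q (1 + 1))
      have hPc' : (P (1 + 1) : ℂ) = 2 * n0 + 1 := hPc
      rw [hPc'] at hc
      refine ⟨n0, ?_⟩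
      push_cast
      linear_combination (Real.pi : ℂ) ^ 2 * hc
    · rw [if_neg (by omega : ¬ i + 1 = 2)]
      obtain ⟨n1, hn1⟩ := CvChain_constF i (by omega) (P (i + 1)) (Q (i + 1))
      refine ⟨n1, ?_⟩
      push_cast
      linear_combination (Real.pi : ℂ) ^ 2 * hn1

end Pool.Agent.H63.TC
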