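import Pool.Agent.H63.TC.PosT
import Pool.Agent.H63.VC5.Rog

/-! # The flattenings -/

namespace Pool.Agent.H63.TC

open Pool.Agent.H63.VC Pool.Agent.H63.VC3 Pool.Agent.H63.VC4 Pool.Agent.H63.VC5
  Pool.Agent.H63.TW Complex

theorem lamT_one (σ : ℝ) (m : ℕ) (w : ℂ) (hm : 2 ≤ m) : lamT σ m w 1 = 0 := by
  have h : min 1 m = 1 := by omega
  unfold lamT
  rw [h]
  simp

theorem lamT_last (σ : ℝ) (m : ℕ) (w : ℂ) : lamT σ m w (m + 1) = lamT σ m w m := by
  have h : min (m + 1) m = min m m := by omega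
  unfold lamT
  rw [h]

private theorem Flat_half (σ : ℝ) (hσ : σ = 1 ∨ σ = -1) :
    exp (σ * (Real.pi * I) / 2) = σ * I := by
  rcases hσ with rfl | rfl
  · have e : ((1 : ℝ) : ℂ) * (Real.pi * I) / 2 = ((Real.pi : ℂ) / 2) * I := by
      push_cast; ring
    rw [e, Complex.exp_mul_I, Complex.cos_pi_div_two, Complex.sin_pi_div_two]
    simp
  · have e : ((-1 : ℝ) : ℂ) * (Real.pi * I) / 2 = (-((Real.pi : ℂ) / 2)) * I := by
      push_cast; ring
    rw [e, Complex.exp_mul_I, Complex.cos_neg, Complex.sin_neg, Complex.cos_pi_div_two,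
      Complex.sin_pi_div_two]
    simp

private theorem Flat_sq (σ : ℝ) (hσ : σ = 1 ∨ σ = -1) : (σ : ℂ) * σ = 1 := by
  rcases hσ with rfl | rfl <;> norm_num

theorem zT_eq (σ : ℝ) (hσ : σ = 1 ∨ σ = -1) (m : ℕ) (w : ℂ) (k : ℕ) (hk : k ≤ m) :
    zT σ w k = (-1) ^ (k + 1) * exp (-2 * σ * lamT σ m w k) := by
  have h : min k m = k := by omega
  have hs := Flat_sq σ hσ
  unfold zT lamT
  rw [h]
  rcases Nat.even_or_odd k with he | ho
  · rw [if_pos he]
    have e : -2 * (σ : ℂ) * (hh (k * w) - hh w + σ * (Real.pi * I) / 2) =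
        2 * σ * (hh w - hh (k * w)) - Real.pi * I := by
      linear_combination (-(Real.pi : ℂ) * I) * hs
    rw [e, Complex.exp_sub, Complex.exp_pi_mul_I, (he.add_one).neg_one_pow]
    ring
  · rw [if_neg (Nat.not_even_iff_odd.2 ho), (ho.add_one).neg_one_pow, one_mul]
    congr 1
    ring

private theorem Flat_expS (w : ℂ) (j : ℕ) (h0 : 0 < ((j : ℂ) * w).re) (h1 : ((j : ℂ) * w).re < 1) :
    exp (hh (j * w)) = 2 * sin (j * (Real.pi * w)) := by
  rw [hh_exp _ h0 h1]
  congr 2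
  ring

private theorem Flat_re {σ : ℝ} {m : ℕ} {w : ℂ} (hc : CritW σ m w) {j : ℕ} (h1 : 1 ≤ j)
    (h2 : j ≤ m) : 0 < ((j : ℂ) * w).re ∧ ((j : ℂ) * w).re < 1 := by
  have e : ((j : ℂ) * w).re = j * w.re := by simp
  rw [e]
  have hp := hc.re_pos
  have hl := hc.re_lt
  have h1' : (1 : ℝ) ≤ j := by exact_mod_cast h1
  have h2' : (j : ℝ) ≤ m := by exact_mod_cast h2
  constructor
  · positivity
  · nlinarith

private theorem Flat_E {σ : ℝ} {m : ℕ} {w : ℂ} (hc : CritW σ m w) {j : ℕ} (h1 : 1 ≤ j)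
    (h2 : j ≤ m) : exp (lamT σ m w j) = 2 * sin (j * (Real.pi * w)) /
      (2 * sin (Real.pi * w)) * (if Even j then (σ : ℂ) * I else 1) := by
  have h : min j m = j := by omega
  have hr := Flat_re hc h1 h2
  have hr1 := Flat_re hc (le_refl 1) (h1.trans h2)
  have e1 := Flat_expS w 1 hr1.1 hr1.2
  rw [Nat.cast_one, one_mul, one_mul] at e1
  unfold lamT
  rw [h, Complex.exp_add, Complex.exp_sub, Flat_expS w j hr.1 hr.2, e1]
  congr 1
  split_ifs
  · exact Flat_half σ hc.hs
  · exact Complex.exp_zero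

/-- product of the neighbours -/
private theorem Flat_prod {σ : ℝ} {m : ℕ} {w : ℂ} (hc : CritW σ m w) {k : ℕ} (hk : 2 ≤ k)
    (hkm : k ≤ m) : ∃ ε : ℂ, (ε = 1 ∨ ε = -1) ∧
      exp (lamT σ m w (k - 1)) * exp (lamT σ m w (k + 1)) =
        ε * ((2 * sin ((k - 1 : ℂ) * (Real.pi * w))) * (2 * sin ((k + 1 : ℂ) * (Real.pi * w))) /
          (2 * sin (Real.pi * w)) ^ 2) := by
  have hs := Flat_sq σ hc.hs
  have hI := Complex.I_mul_I
  have c1 : ((k - 1 : ℕ) : ℂ) = (k : ℂ) - 1 := by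
    rw [Nat.cast_sub (by omega), Nat.cast_one]
  have E1 := Flat_E hc (j := k - 1) (by omega) (by omega)
  rw [c1] at E1
  rcases hkm.eq_or_lt with rfl | hlt
  · rw [E1, lamT_last, Flat_E hc (j := k) (by omega) le_rfl]
    have hcl := close_T σ k w hc
    rw [hcl]
    refine ⟨-1, Or.inr rfl, ?_⟩
    rcases Nat.even_or_odd k with he | ho
    · have ho' : ¬ Even (k - 1) := by
        rw [Nat.not_even_iff_odd]
        exact Nat.Even.sub_odd (by omega) he odd_one
      rw [if_pos he, if_neg ho']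
      ring
    · have he' : Even (k - 1) := Nat.Odd.sub_odd ho odd_one
      rw [if_neg (Nat.not_even_iff_odd.2 ho), if_pos he']
      ring
  · have E2 := Flat_E hc (j := k + 1) (by omega) (by omega)
    push_cast at E2
    rw [E1, E2]
    rcases Nat.even_or_odd k with he | ho
    · have ho' : ¬ Even (k - 1) := by
        rw [Nat.not_even_iff_odd]
        exact Nat.Even.sub_odd (by omega) he odd_one
      have ho'' : ¬ Even (k + 1) := Nat.not_even_iff_odd.2 he.add_one
      refine ⟨1, Or.inl rfl, ?_⟩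
      rw [if_neg ho', if_neg ho'']
      ring
    · have he' : Even (k - 1) := Nat.Odd.sub_odd ho odd_one
      have he'' : Even (k + 1) := ho.add_one
      refine ⟨-1, Or.inr rfl, ?_⟩
      rw [if_pos he', if_pos he'']
      have e : (σ : ℂ) * I * (σ * I) = -1 := by
        linear_combination (I * I) * hs + hI
      linear_combination (2 * sin ((k - 1 : ℂ) * (Real.pi * w)) / (2 * sin (Real.pi * w)) *
        (2 * sin ((k + 1 : ℂ) * (Real.pi * w)) / (2 * sin (Real.pi * w)))) * e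

private theorem Flat_alg (ε δ A B S T : ℂ) (hS : S ≠ 0) (hT : T ≠ 0) (hδ : δ = 1 ∨ δ = -1) :
    ε * (A * B / S ^ 2) / (δ * (T / S) ^ 2) = (ε * δ) * (A * B / T ^ 2) := by
  rcases hδ with rfl | rfl
  · field_simp
  · field_simp

theorem flatT (σ : ℝ) (m : ℕ) (w : ℂ) (hc : CritW σ m w) (k : ℕ) (hk : 2 ≤ k) (hkm : k ≤ m) :
    ∃ P Q : ℤ, Complex.log (zT σ w k) + P * (Real.pi * I) = -2 * σ * lamT σ m w k ∧
      -Complex.log (1 - zT σ w k) + Q * (Real.pi * I) =
        (1 + σ) * lamT σ m w k - lamT σ m w (k - 1) - lamT σ m w (k + 1) := by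
  have hpos := zT_pos σ m w hc k hk hkm
  have hz0 : zT σ w k ≠ 0 := by
    intro h
    rw [h] at hpos
    simp at hpos
  have hz1 : 1 - zT σ w k ≠ 0 := by
    intro h
    have e : zT σ w k = 1 := by linear_combination -h
    rw [e] at hpos
    simp at hpos
  have hz := zT_eq σ hc.hs m w k hkm
  -- the sines
  have hr := Flat_re hc (j := k) (by omega) hkm
  have hr1 := Flat_re hc (le_refl 1) (by omega)
  have e1 := Flat_expS w 1 hr1.1 hr1.2
  rw [Nat.cast_one, one_mul, one_mul] at e1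
  have ek := Flat_expS w k hr.1 hr.2
  have n1 : (2 * sin (Real.pi * w) : ℂ) ≠ 0 := by
    rw [← e1]; exact exp_ne_zero _
  have nk : (2 * sin (k * (Real.pi * w)) : ℂ) ≠ 0 := by
    rw [← ek]; exact exp_ne_zero _
  have htr := GV.LamB_trig (Real.pi * w) ((k - 1 : ℂ) * (Real.pi * w))
  have a1 : 2 * (Real.pi * w) + (k - 1 : ℂ) * (Real.pi * w) = (k + 1 : ℂ) * (Real.pi * w) := by
    ring
  have a2 : Real.pi * w + (k - 1 : ℂ) * (Real.pi * w) = (k : ℂ) * (Real.pi * w) := by ring
  rw [a1, a2] at htr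
  obtain ⟨ε, hε, hpr⟩ := Flat_prod hc hk hkm
  have hEk := Flat_E hc (j := k) (by omega) hkm
  have hsq : exp (lamT σ m w k) ^ 2 = (2 * sin (k * (Real.pi * w)) / (2 * sin (Real.pi * w))) ^ 2 ∨
      exp (lamT σ m w k) ^ 2 =
        -(2 * sin (k * (Real.pi * w)) / (2 * sin (Real.pi * w))) ^ 2 := by
    rw [hEk]
    split_ifs
    · right
      have hs := Flat_sq σ hc.hs
      linear_combination (2 * sin (k * (Real.pi * w)) / (2 * sin (Real.pi * w))) ^ 2 *
        ((I * I) * hs + Complex.I_mul_I)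
    · left
      ring
  have hX : exp (-((1 + σ) * lamT σ m w k - lamT σ m w (k - 1) - lamT σ m w (k + 1))) =
      1 - zT σ w k ∨
      exp (-((1 + σ) * lamT σ m w k - lamT σ m w (k - 1) - lamT σ m w (k + 1))) =
      -(1 - zT σ w k) := by
    rcases hc.hs with rfl | rfl
    · -- σ = 1
      have b1 : zT 1 w k = (2 * sin (Real.pi * w)) ^ 2 / (2 * sin (k * (Real.pi * w))) ^ 2 := by
        unfold zT
        rw [← e1, ← ek, ← exp_nat_mul, ← exp_nat_mul, ← exp_sub]
        congr 1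
        push_cast
        ring
      have b2 : exp (-((1 + ((1 : ℝ) : ℂ)) * lamT 1 m w k - lamT 1 m w (k - 1) -
          lamT 1 m w (k + 1))) =
          exp (lamT 1 m w (k - 1)) * exp (lamT 1 m w (k + 1)) / exp (lamT 1 m w k) ^ 2 := by
        rw [← exp_nat_mul, ← exp_add, ← exp_sub]
        congr 1
        push_cast
        ring
      have b3 : 1 - zT 1 w k = (2 * sin ((k - 1 : ℂ) * (Real.pi * w))) *
          (2 * sin ((k + 1 : ℂ) * (Real.pi * w))) / (2 * sin (k * (Real.pi * w))) ^ 2 := by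
        rw [b1, eq_div_iff (pow_ne_zero 2 nk), sub_mul, div_mul_cancel₀ _ (pow_ne_zero 2 nk)]
        linear_combination (-4) * htr
      rw [b2, hpr, b3]
      have hgen : ∀ δ : ℂ, (δ = 1 ∨ δ = -1) → exp (lamT 1 m w k) ^ 2 =
          δ * (2 * sin (k * (Real.pi * w)) / (2 * sin (Real.pi * w))) ^ 2 →
          ε * ((2 * sin ((k - 1 : ℂ) * (Real.pi * w))) *
            (2 * sin ((k + 1 : ℂ) * (Real.pi * w))) / (2 * sin (Real.pi * w)) ^ 2) /
            exp (lamT 1 m w k) ^ 2 = (ε * δ) * ((2 * sin ((k - 1 : ℂ) * (Real.pi * w))) *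
          (2 * sin ((k + 1 : ℂ) * (Real.pi * w))) / (2 * sin (k * (Real.pi * w))) ^ 2) := by
        intro δ hδ h
        rw [h]
        exact Flat_alg _ _ _ _ _ _ n1 nk hδ
      rcases hsq with h | h
      · rw [hgen 1 (Or.inl rfl) (by rw [h]; ring)]
        rcases hε with rfl | rfl
        · left; ring
        · right; ring
      · rw [hgen (-1) (Or.inr rfl) (by rw [h]; ring)]
        rcases hε with rfl | rfl
        · right; ring
        · left; ring
    · -- σ = -1
      have b1 : zT (-1) w k = (2 * sin (k * (Real.pi * w))) ^ 2 / (2 * sin (Real.pi * w)) ^ 2 := by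
        unfold zT
        rw [← e1, ← ek, ← exp_nat_mul, ← exp_nat_mul, ← exp_sub]
        congr 1
        push_cast
        ring
      have b2 : exp (-((1 + ((-1 : ℝ) : ℂ)) * lamT (-1) m w k - lamT (-1) m w (k - 1) -
          lamT (-1) m w (k + 1))) =
          exp (lamT (-1) m w (k - 1)) * exp (lamT (-1) m w (k + 1)) := by
        rw [← exp_add]
        congr 1
        push_cast
        ring
      have b3 : 1 - zT (-1) w k = -((2 * sin ((k - 1 : ℂ) * (Real.pi * w))) *
          (2 * sin ((k + 1 : ℂ) * (Real.pi * w))) / (2 * sin (Real.pi * w)) ^ 2) := by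
        rw [b1, ← neg_div, eq_div_iff (pow_ne_zero 2 n1), sub_mul,
          div_mul_cancel₀ _ (pow_ne_zero 2 n1)]
        linear_combination 4 * htr
      rw [b2, hpr, b3]
      rcases hε with rfl | rfl
      · right; ring
      · left; ring
  obtain ⟨P, hP⟩ := exists_flat (zT σ w k) (-2 * σ * lamT σ m w k) hz0 (by
    rw [hz]
    rcases neg_one_pow_eq_or ℂ (k + 1) with h | h
    · left
      rw [h, one_mul]
    · right
      rw [h]
      ring)
  obtain ⟨Q, hQ⟩ := exists_flat (1 - zT σ w k)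
    (-((1 + σ) * lamT σ m w k - lamT σ m w (k - 1) - lamT σ m w (k + 1))) hz1 hX
  refine ⟨P, -Q, hP, ?_⟩
  push_cast
  linear_combination -hQ

end Pool.Agent.H63.TC
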