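import Pool.Agent.H63.TC.LamS1

/-! # `Lam` on the strip: the step and the conjugation -/

namespace Pool.Agent.H63.TC

open Pool.Agent.H63.VC Pool.Agent.H63.VC3 Pool.Agent.H63.VC5 Pool.Agent.H63.TW Complex Filter
  Topology

private theorem LamS2_ofReal {F : ℂ → ℂ} (h : ∀ t : ℝ, 0 ≤ t → t ≤ 1 → HasDerivAt F 0 (t : ℂ)) :
    F 1 = F 0 := by
  have h1 : ∀ t : ℝ, 0 ≤ t → t ≤ 1 → HasDerivAt (fun s : ℝ => F (s : ℂ)) 0 t := by
    intro t h0 h1
    exact (h t h0 h1).comp_ofReal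
  have h2 := constant_of_has_deriv_right_zero (f := fun s : ℝ => F (s : ℂ)) (a := 0) (b := 1)
    (fun t ht => (h1 t ht.1 ht.2).continuousAt.continuousWithinAt)
    (fun t ht => (h1 t ht.1 ht.2.le).hasDerivWithinAt) 1 ⟨zero_le_one, le_rfl⟩
  simpa using h2

private theorem LamS2_real {f : ℝ → ℂ} (h : ∀ t : ℝ, 0 ≤ t → t ≤ 1 → HasDerivAt f 0 t) :
    f 1 = f 0 :=
  constant_of_has_deriv_right_zero (f := f) (a := 0) (b := 1)
    (fun t ht => (h t ht.1 ht.2).continuousAt.continuousWithinAt)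
    (fun t ht => (h t ht.1 ht.2.le).hasDerivWithinAt) 1 ⟨zero_le_one, le_rfl⟩

private theorem LamS2_wb {w b : ℂ} (h : Ds w b) : 0 < (w + b).re ∧ (w + b).re < 1 := by
  have h1 := h.w1
  have h2 := h.b1
  have h3 := h.s1
  rw [Complex.add_re] at h3 ⊢
  exact ⟨by linarith, h3⟩

private theorem LamS2_w {w b : ℂ} (h : Ds w b) : 0 < w.re ∧ w.re < 1 := by
  have h1 := h.w1
  have h2 := h.b1
  have h3 := h.s1
  rw [Complex.add_re] at h3
  exact ⟨h1, by linarith⟩

private theorem LamS2_b {w b : ℂ} (h : Ds w b) : 0 < b.re ∧ b.re < 1 := by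
  have h1 := h.w1
  have h2 := h.b1
  have h3 := h.s1
  rw [Complex.add_re] at h3
  exact ⟨h2, by linarith⟩

private theorem LamS2_sin_ne {z : ℂ} (h0 : 0 < z.re) (h1 : z.re < 1) :
    sin (Real.pi * z) ≠ 0 := by
  intro h
  have h2 := hh_exp z h0 h1
  rw [h, mul_zero] at h2
  exact exp_ne_zero _ h2

private theorem LamS2_rel {w b : ℂ} (h : Ds w b) (h' : Ds w (w + b)) :
    exp (2 * (hh w - hh (w + b))) + exp (-(2 * hh (w + b) - hh b - hh (2 * w + b))) = 1 := by
  have e0 : w + (w + b) = 2 * w + b := by ring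
  have o2 := LamS2_wb h'
  rw [e0] at o2
  have x0 := hh_exp b (LamS2_b h).1 (LamS2_b h).2
  have x1 := hh_exp (w + b) (LamS2_wb h).1 (LamS2_wb h).2
  have x2 := hh_exp (2 * w + b) o2.1 o2.2
  have x := hh_exp w (LamS2_w h).1 (LamS2_w h).2
  have n1 := LamS2_sin_ne (LamS2_wb h).1 (LamS2_wb h).2
  have a1 : exp (2 * (hh w - hh (w + b))) = exp (hh w) ^ 2 / exp (hh (w + b)) ^ 2 := by
    rw [← exp_nat_mul, ← exp_nat_mul, ← exp_sub]
    congr 1
    push_cast
    ring
  have a2 : exp (-(2 * hh (w + b) - hh b - hh (2 * w + b))) =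
      exp (hh b) * exp (hh (2 * w + b)) / exp (hh (w + b)) ^ 2 := by
    rw [← exp_nat_mul, ← exp_add, ← exp_sub]
    congr 1
    push_cast
    ring
  rw [a1, a2, x, x0, x1, x2]
  have t := GV.LamB_trig (Real.pi * w) (Real.pi * b)
  have e1 : (Real.pi : ℂ) * (w + b) = Real.pi * w + Real.pi * b := by ring
  have e2 : (Real.pi : ℂ) * (2 * w + b) = 2 * (Real.pi * w) + Real.pi * b := by ring
  rw [e1] at n1 ⊢
  rw [e2]
  have hne : (2 * sin (Real.pi * w + Real.pi * b)) ^ 2 ≠ 0 :=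
    pow_ne_zero _ (mul_ne_zero two_ne_zero n1)
  rw [← add_div, div_eq_one_iff_eq hne]
  linear_combination 4 * t

private theorem LamS2_im {w b : ℂ} (h : Ds w b) :
    |(2 * (hh w - hh (w + b))).im| < 2 * Real.pi := by
  have i1 := hh_im_lt w (LamS2_w h).1 (LamS2_w h).2
  have i2 := hh_im_lt (w + b) (LamS2_wb h).1 (LamS2_wb h).2
  have e : (2 * (hh w - hh (w + b))).im = 2 * ((hh w).im - (hh (w + b)).im) := by
    simp
  rw [e, abs_mul, abs_two]
  have := abs_sub (hh w).im (hh (w + b)).im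
  have hp := Real.pi_pos
  linarith

private theorem LamS2_open2 {w b : ℂ} (h : Ds w b) (h' : Ds w (w + b)) :
    ∀ᶠ p : ℂ × ℂ in 𝓝 (w, b), Ds p.1 p.2 ∧ Ds p.1 (p.1 + p.2) := by
  have h1 := Ds_open h
  have hc : ContinuousAt (fun p : ℂ × ℂ => (p.1, p.1 + p.2)) (w, b) := by fun_prop
  have h2 := hc.eventually (Ds_open h')
  filter_upwards [h1, h2] with p q1 q2
  exact ⟨q1, q2⟩

private theorem LamS2_Rr {w b : ℂ} (h : Ds w b) (h' : Ds w (w + b)) {u v : ℂ → ℂ} {t u' v' : ℂ}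
    (hu : HasDerivAt u u' t) (hv : HasDerivAt v v' t) (hut : u t = w) (hvt : v t = b) :
    HasDerivAt (fun t => Rr (u t) (v t))
      (((2 * hh (w + b) - hh b - hh (2 * w + b)) * (Real.pi * Complex.cot (Real.pi * w)) +
      (hh b + hh (2 * w + b) - 2 * hh w) * (Real.pi * Complex.cot (Real.pi * (w + b))) +
      2 * (hh w - hh (w + b)) * (Real.pi * Complex.cot (Real.pi * (2 * w + b)))) * u' +
      ((hh b + hh (2 * w + b) - 2 * hh w) * (Real.pi * Complex.cot (Real.pi * (w + b))) +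
      (hh w - hh (w + b)) * (Real.pi * Complex.cot (Real.pi * b)) +
      (hh w - hh (w + b)) * (Real.pi * Complex.cot (Real.pi * (2 * w + b)))) * v') t := by
  have e0 : w + (w + b) = 2 * w + b := by ring
  have o2 := LamS2_wb h'
  rw [e0] at o2
  subst hut
  subst hvt
  have d := (hh_hasDerivAt (u t) (LamS2_w h).1 (LamS2_w h).2).comp t hu
  have d0 := (hh_hasDerivAt (v t) (LamS2_b h).1 (LamS2_b h).2).comp t hv
  have d1 := HasDerivAt.comp t (hh_hasDerivAt (u t + v t) (LamS2_wb h).1 (LamS2_wb h).2)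
    (hu.add hv)
  have d2 := HasDerivAt.comp t (hh_hasDerivAt (2 * u t + v t) o2.1 o2.2)
    ((hu.const_mul 2).add hv)
  have hf : HasDerivAt (fun s => 2 * (hh (u s) - hh (u s + v s)))
      (2 * (Real.pi * Complex.cot (Real.pi * u t) * u' -
        Real.pi * Complex.cot (Real.pi * (u t + v t)) * (u' + v'))) t :=
    (d.sub d1).const_mul 2
  have hg : HasDerivAt (fun s => 2 * hh (u s + v s) - hh (v s) - hh (2 * u s + v s))
      (2 * (Real.pi * Complex.cot (Real.pi * (u t + v t)) * (u' + v')) -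
        Real.pi * Complex.cot (Real.pi * v t) * v' -
        Real.pi * Complex.cot (Real.pi * (2 * u t + v t)) * (2 * u' + v')) t :=
    ((d1.const_mul 2).sub d0).sub d2
  have hev : ∀ᶠ x in 𝓝 t, exp (2 * (hh (u x) - hh (u x + v x))) +
      exp (-(2 * hh (u x + v x) - hh (v x) - hh (2 * u x + v x))) = 1 := by
    have hc : ContinuousAt (fun x : ℂ => (u x, v x)) t := hu.continuousAt.prodMk hv.continuousAt
    filter_upwards [hc.eventually (LamS2_open2 h h')] with x hx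
    exact LamS2_rel hx.1 hx.2
  have hR := RG_hasDerivAt _ _ _ _ t hf hg hev (LamS2_im h)
  have hfun : (fun s => Rr (u s) (v s)) = fun s => GG (2 * (hh (u s) - hh (u s + v s))) +
      (2 * (hh (u s) - hh (u s + v s))) * (2 * hh (u s + v s) - hh (v s) - hh (2 * u s + v s)) / 2 :=
    funext fun s => GV.LamB_Rr_eq (u s) (v s)
  rw [hfun]
  refine hR.congr_deriv ?_
  ring

private theorem LamS2_seg_re (w : ℂ) (c t : ℝ) :
    ((c : ℂ) + (t : ℂ) * (w - c)).re = (1 - t) * c + t * w.re := by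
  have e : ((c : ℂ) + (t : ℂ) * (w - c)) = ((1 - t) * c : ℝ) + (t : ℝ) * w := by
    push_cast
    ring
  rw [e, Complex.add_re, Complex.ofReal_re, Complex.re_ofReal_mul]

private theorem LamS2_seg_Ds {w b : ℂ} (h : Ds w b) {c d t : ℝ} (hc : 0 < c) (hd : 0 < d)
    (hcd : c + d < 1) (h0 : 0 ≤ t) (h1 : t ≤ 1) :
    Ds ((c : ℂ) + (t : ℂ) * (w - c)) ((d : ℂ) + (t : ℂ) * (b - d)) := by
  have hw := h.w1
  have hb := h.b1
  have hs := h.s1
  rw [Complex.add_re] at hs
  refine ⟨?_, ?_, ?_⟩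
  · rw [LamS2_seg_re]
    rcases eq_or_lt_of_le h0 with rfl | h0
    · simpa using hc
    · have := mul_nonneg (sub_nonneg.2 h1) hc.le
      have := mul_pos h0 hw
      linarith
  · rw [LamS2_seg_re]
    rcases eq_or_lt_of_le h0 with rfl | h0
    · simpa using hd
    · have := mul_nonneg (sub_nonneg.2 h1) hd.le
      have := mul_pos h0 hb
      linarith
  · rw [Complex.add_re, LamS2_seg_re, LamS2_seg_re]
    rcases eq_or_lt_of_le h0 with rfl | h0
    · simpa using hcd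
    · have := mul_nonneg (sub_nonneg.2 h1) (sub_nonneg.2 hcd.le)
      have := mul_pos h0 (sub_pos.2 hs)
      nlinarith

theorem LamS_step (w b : ℂ) (h : Ds w b) (h' : Ds w (w + b)) :
    Rr w b = Lam w b - Lam w (w + b) := by
  set u : ℂ → ℂ := fun t => ((1 / 4 : ℝ) : ℂ) + t * (w - ((1 / 4 : ℝ) : ℂ)) with hu
  set v : ℂ → ℂ := fun t => ((1 / 4 : ℝ) : ℂ) + t * (b - ((1 / 4 : ℝ) : ℂ)) with hv
  have du : ∀ t, HasDerivAt u (w - ((1 / 4 : ℝ) : ℂ)) t := by
    intro t
    have := ((hasDerivAt_id t).mul_const (w - ((1 / 4 : ℝ) : ℂ))).const_add ((1 / 4 : ℝ) : ℂ)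
    rw [one_mul] at this
    exact this
  have dv : ∀ t, HasDerivAt v (b - ((1 / 4 : ℝ) : ℂ)) t := by
    intro t
    have := ((hasDerivAt_id t).mul_const (b - ((1 / 4 : ℝ) : ℂ))).const_add ((1 / 4 : ℝ) : ℂ)
    rw [one_mul] at this
    exact this
  have key := LamS2_ofReal (F := fun t => Rr (u t) (v t) - Lam (u t) (v t) +
    Lam (u t) (u t + v t)) ?_
  · have e1 : u 1 = w := by
      simp only [hu]; ring
    have e2 : v 1 = b := by
      simp only [hv]; ring
    have e3 : u 0 = 1 / 4 := by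
      simp only [hu]; push_cast; ring
    have e4 : v 0 = 1 / 4 := by
      simp only [hv]; push_cast; ring
    simp only [e1, e2, e3, e4] at key
    have hD : GV.Dm 1 (1 / 4) (1 / 4) := by
      refine ⟨Or.inl rfl, ?_, ?_, ?_, ?_, ?_, ?_⟩ <;> norm_num [GV.HS]
    have hD' : GV.Dm 1 (1 / 4) (1 / 4 + 1 / 4) := by
      refine ⟨Or.inl rfl, ?_, ?_, ?_, ?_, ?_, ?_⟩ <;> norm_num [GV.HS]
    have hq := GV.Lam_step 1 (1 / 4) (1 / 4) hD hD'
    linear_combination key + hq
  · intro t h0 h1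
    have hD : Ds (u t) (v t) := LamS2_seg_Ds h (by norm_num) (by norm_num) (by norm_num) h0 h1
    have hD' : Ds (u t) (u t + v t) := by
      have e : u t + v t = ((1 / 2 : ℝ) : ℂ) + (t : ℂ) * ((w + b) - ((1 / 2 : ℝ) : ℂ)) := by
        simp only [hu, hv]
        push_cast
        ring
      rw [e]
      exact LamS2_seg_Ds h' (by norm_num) (by norm_num) (by norm_num) h0 h1
    have d1 := LamS2_Rr hD hD' (du t) (dv t) rfl rfl
    have d2 := LamS_total hD (du t) (dv t) rfl rfl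
    have d3 := LamS_total hD' (du t) ((du t).add (dv t)) rfl rfl
    refine ((d1.sub d2).add d3).congr_deriv ?_
    unfold GV.LamB_Cw GV.LamB_Cb
    rw [show u t + (u t + v t) = 2 * u t + v t by ring]
    ring

private theorem LamS2_cot_conj (z : ℂ) :
    Complex.cot (Real.pi * (starRingEnd ℂ) z) = (starRingEnd ℂ) (Complex.cot (Real.pi * z)) := by
  have e : (Real.pi : ℂ) * (starRingEnd ℂ) z = (starRingEnd ℂ) (Real.pi * z) := by
    rw [map_mul, Complex.conj_ofReal]
  rw [e, Complex.cot, Complex.cot, Complex.cos_conj, Complex.sin_conj, map_div₀]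

private theorem LamS2_Ds_conj {w b : ℂ} (h : Ds w b) :
    Ds ((starRingEnd ℂ) w) ((starRingEnd ℂ) b) := by
  refine ⟨?_, ?_, ?_⟩
  · rw [Complex.conj_re]; exact h.w1
  · rw [Complex.conj_re]; exact h.b1
  · rw [← map_add, Complex.conj_re]; exact h.s1

private theorem LamS2_Cw_conj {w b : ℂ} (h : Ds w b) :
    GV.LamB_Cw ((starRingEnd ℂ) w) ((starRingEnd ℂ) b) = (starRingEnd ℂ) (GV.LamB_Cw w b) := by
  unfold GV.LamB_Cw
  rw [← map_add, hh_conj _ (LamS2_wb h).1 (LamS2_wb h).2, hh_conj _ (LamS2_w h).1 (LamS2_w h).2,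
    hh_conj _ (LamS2_b h).1 (LamS2_b h).2, LamS2_cot_conj, LamS2_cot_conj]
  simp only [map_add, map_sub, map_mul, map_pow, Complex.conj_ofReal]

private theorem LamS2_Cb_conj {w b : ℂ} (h : Ds w b) :
    GV.LamB_Cb ((starRingEnd ℂ) w) ((starRingEnd ℂ) b) = (starRingEnd ℂ) (GV.LamB_Cb w b) := by
  unfold GV.LamB_Cb
  rw [← map_add, hh_conj _ (LamS2_wb h).1 (LamS2_wb h).2, hh_conj _ (LamS2_w h).1 (LamS2_w h).2,
    hh_conj _ (LamS2_b h).1 (LamS2_b h).2, LamS2_cot_conj, LamS2_cot_conj]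
  simp only [map_add, map_sub, map_mul, map_pow, Complex.conj_ofReal]

theorem LamS_conj (w b : ℂ) (h : Ds w b) :
    Lam ((starRingEnd ℂ) w) ((starRingEnd ℂ) b) = (starRingEnd ℂ) (Lam w b) := by
  set c : ℂ := ((1 / 3 : ℝ) : ℂ) with hc
  have hcc : (starRingEnd ℂ) c = c := by rw [hc, Complex.conj_ofReal]
  have key := LamS2_real (f := fun t : ℝ =>
    (starRingEnd ℂ) (Lam (c + (t : ℂ) * ((starRingEnd ℂ) w - c))
      (c + (t : ℂ) * ((starRingEnd ℂ) b - c))) - Lam (c + (t : ℂ) * (w - c))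
      (c + (t : ℂ) * (b - c))) ?_
  · simp only [Complex.ofReal_one, Complex.ofReal_zero, one_mul, zero_mul, add_zero] at key
    rw [GV.Lam_diag] at key
    have e1 : ∀ z : ℂ, c + (z - c) = z := fun z => by ring
    rw [e1, e1, e1, e1] at key
    have e2 : (starRingEnd ℂ) ((Real.pi : ℂ) ^ 2 / 6) = (Real.pi : ℂ) ^ 2 / 6 := by
      rw [map_div₀, map_pow, Complex.conj_ofReal, map_ofNat]
    rw [e2, sub_self, sub_eq_zero] at key
    rw [← key, Complex.conj_conj]
  · intro t h0 h1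
    have hD : Ds (c + (t : ℂ) * (w - c)) (c + (t : ℂ) * (b - c)) :=
      LamS2_seg_Ds h (by norm_num) (by norm_num) (by norm_num) h0 h1
    have du : ∀ z : ℂ, HasDerivAt (fun s : ℂ => c + s * (z - c)) (z - c) (t : ℂ) := by
      intro z
      have := ((hasDerivAt_id (t : ℂ)).mul_const (z - c)).const_add c
      rw [one_mul] at this
      exact this
    have ec : ∀ z : ℂ, c + (t : ℂ) * ((starRingEnd ℂ) z - c) =
        (starRingEnd ℂ) (c + (t : ℂ) * (z - c)) := by
      intro z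
      rw [map_add, map_mul, map_sub, hcc, Complex.conj_ofReal]
    have d1 := (LamS_total hD (du w) (du b) rfl rfl).comp_ofReal
    have d2 := (LamS_total (LamS2_Ds_conj hD) (du ((starRingEnd ℂ) w)) (du ((starRingEnd ℂ) b))
      (ec w) (ec b)).comp_ofReal
    have d3 := d2.star
    refine (d3.sub d1).congr_deriv ?_
    rw [LamS2_Cw_conj hD, LamS2_Cb_conj hD]
    simp only [← starRingEnd_apply, map_add, map_mul, map_sub, Complex.conj_conj, hcc]
    ring

end Pool.Agent.H63.TC
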