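import Pool.Agent.H63.TW.Defs
import Pool.Agent.H63.VC5.Defs

/-!
# The geometry and the complex volume of the twist knots: definitions
-/

namespace Pool.Agent.H63.TC

open Pool.Agent.H63.VC Pool.Agent.H63.VC3 Pool.Agent.H63.VC5 Pool.Agent.H63.TW Complex

/-- The number of layers plus one. -/
def mp (p s : ℤ) : ℕ := if 0 < p * s then 2 * p.natAbs - 1 else 2 * p.natAbs

/-- The critical equation in the half strip `0 < σ Im w`; the number of layers is `m - 1`. -/
structure CritW (σ : ℝ) (m : ℕ) (w : ℂ) : Prop where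
  hs : σ = 1 ∨ σ = -1
  hm : 2 ≤ m
  eq : σ * LT w = Real.pi * I * (2 * m + 1) * w - 2 * Real.pi * I
  re_pos : 0 < w.re
  re_lt : w.re * (2 * m + 1) < 2
  im_pos : 0 < σ * w.im

/-- The logarithms of the slopes. -/
noncomputable def lamT (σ : ℝ) (m : ℕ) (w : ℂ) (k : ℕ) : ℂ :=
  hh ((min k m : ℕ) * w) - hh w + if Even (min k m) then σ * (Real.pi * I) / 2 else 0

/-- The shapes. -/
noncomputable def zT (σ : ℝ) (w : ℂ) (k : ℕ) : ℂ := exp (2 * σ * (hh w - hh (k * w)))

/-- The first logarithm of the last layer. -/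
noncomputable def W0S (σ : ℝ) (w : ℂ) : ℂ := hh (w + 1 / 2) + σ * (Real.pi * I) / 2

/-- The second logarithm of the last layer. -/
noncomputable def W1S (σ : ℝ) (w b : ℂ) : ℂ :=
  hh w - hh (w + 1 / 2) / 2 - hh b + σ * (Real.pi * I) / 4

/-- `(m - 1) w` as a function of `w`. -/
noncomputable def bS (σ : ℝ) (w : ℂ) : ℂ := 1 - 3 / 2 * w + σ * LT w / (2 * Real.pi * I)

/-- The contribution of the last layer and of the end of the fan. -/
noncomputable def LS (σ : ℝ) (w : ℂ) : ℂ :=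
  σ * (2 * GG (W0S σ w) + W0S σ w * W1S σ w (bS σ w) - 2 * Lam w (bS σ w)) -
    Real.pi * I * W0S σ w / 2

/-- The critical value of the potential, up to a constant. -/
noncomputable def RS (σ : ℝ) (w : ℂ) : ℂ :=
  4 * Real.pi * I * (ff (3 / 4 + w / 2) + ff (3 / 4 - w / 2)) - 2 * (Real.pi : ℂ) ^ 2 * σ * w -
    Real.pi * I * w * LT w

/-- The domain of `Lam`: a triangle in the strip. -/
structure Ds (w b : ℂ) : Prop where
  w1 : 0 < w.re
  b1 : 0 < b.re
  s1 : (w + b).re < 1

/-- The domain of `w`. -/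
def DW (σ : ℝ) (w : ℂ) : Prop := 0 < w.re ∧ w.re < 1 / 2 ∧ 0 ≤ σ * w.im

/-- The normalized terms of the invariant of the figure eight knot. -/
noncomputable def F8h (n g M k : ℕ) : ℝ :=
  if k + n ≤ M + 1 then S M k ^ 2 / M * Real.exp (-(2 * M * Fr (5 / 6))) *
    ((∏ i ∈ Finset.range (g - 1), sg M (k + i + 1)) *
      (∏ i ∈ Finset.range (n - g - 1), sg M (k + i + 1)) *
      ∏ i ∈ Finset.range (n - 2), sg M (k + i + 1)) else 0

end Pool.Agent.H63.TC
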