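import Pool.Agent.H63.GV.LamB
import Pool.Agent.H63.TC.Defs
import Pool.Agent.H63.VC5.FFdilog

/-! # The identity for the last layer: the limit at `1 / 2` -/

namespace Pool.Agent.H63.TC

open Pool.Agent.H63.VC Pool.Agent.H63.VC3 Pool.Agent.H63.VC5 Pool.Agent.H63.TW Complex Filter
  Topology

section aux

open Asymptotics

private noncomputable def StarL_c (x : ℝ) : ℝ := 2 * Real.cos (Real.pi * x)

private noncomputable def StarL_L (x : ℝ) : ℝ := Real.log (StarL_c x)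

private noncomputable def StarL_L2 (x : ℝ) : ℝ :=
  Real.log (2 * Real.sin (Real.pi * (3 / 4 - x / 2)))

private noncomputable def StarL_h (x : ℝ) : ℝ := Real.log (2 * Real.sin (Real.pi * x))

private lemma StarL_ev : ∀ᶠ x : ℝ in 𝓝[<] (1 / 2), 0 < x ∧ x < 1 / 2 := by
  have h1 : Set.Ioo (0 : ℝ) (1 / 2) ∈ 𝓝[<] (1 / 2 : ℝ) := Ioo_mem_nhdsLT (by norm_num)
  filter_upwards [h1] with x hx
  exact ⟨hx.1, hx.2⟩

private lemma StarL_c_cont : Continuous StarL_c := by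
  unfold StarL_c
  fun_prop

private lemma StarL_c_half : StarL_c (1 / 2) = 0 := by
  unfold StarL_c
  rw [show Real.pi * (1 / 2) = Real.pi / 2 by ring, Real.cos_pi_div_two, mul_zero]

private lemma StarL_c_lim : Tendsto StarL_c (𝓝[<] (1 / 2)) (𝓝 0) := by
  have h := StarL_c_cont.tendsto (1 / 2)
  rw [StarL_c_half] at h
  exact h.mono_left nhdsWithin_le_nhds

private lemma StarL_c_ge (x : ℝ) (h0 : 0 < x) (h1 : x < 1 / 2) : 4 * (1 / 2 - x) ≤ StarL_c x := by
  have hp := Real.pi_pos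
  have h2 : StarL_c x = 2 * Real.sin (Real.pi * (1 / 2 - x)) := by
    unfold StarL_c
    rw [← Real.cos_pi_div_two_sub]
    congr 2
    ring
  rw [h2]
  have h3 := Real.mul_le_sin (x := Real.pi * (1 / 2 - x)) (by nlinarith) (by nlinarith)
  have h4 : 2 / Real.pi * (Real.pi * (1 / 2 - x)) = 2 * (1 / 2 - x) := by
    field_simp
  rw [h4] at h3
  linarith

private lemma StarL_c_pos (x : ℝ) (h0 : 0 < x) (h1 : x < 1 / 2) : 0 < StarL_c x := by
  have := StarL_c_ge x h0 h1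
  linarith

private lemma StarL_cL : Tendsto (fun x => StarL_L x * StarL_c x) (𝓝[<] (1 / 2)) (𝓝 0) := by
  have h1 : Continuous fun x => StarL_c x * Real.log (StarL_c x) :=
    Real.continuous_mul_log.comp StarL_c_cont
  have h2 := h1.tendsto (1 / 2)
  rw [StarL_c_half, zero_mul] at h2
  refine (h2.mono_left nhdsWithin_le_nhds).congr ?_
  intro x
  unfold StarL_L
  ring

private lemma StarL_mul {u : ℝ → ℂ} (hu : u =O[𝓝[<] (1 / 2 : ℝ)] StarL_c) :
    Tendsto (fun x => (StarL_L x : ℂ) * u x) (𝓝[<] (1 / 2)) (𝓝 0) := by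
  have h1 : (fun x => (StarL_L x : ℂ)) =O[𝓝[<] (1 / 2 : ℝ)] StarL_L :=
    isBigO_of_le _ (fun x => by rw [Complex.norm_real])
  exact (h1.mul hu).trans_tendsto StarL_cL

private lemma StarL_O {u : ℝ → ℂ} (hu : u =O[𝓝[<] (1 / 2 : ℝ)] StarL_c) :
    Tendsto u (𝓝[<] (1 / 2)) (𝓝 0) := hu.trans_tendsto StarL_c_lim

private lemma StarL_log {z : ℝ → ℂ} (hz : z =O[𝓝[<] (1 / 2 : ℝ)] StarL_c) :
    (fun x => Complex.log (1 - z x)) =O[𝓝[<] (1 / 2 : ℝ)] StarL_c := by
  have h0 := StarL_O hz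
  have h1 : ∀ᶠ x in 𝓝[<] (1 / 2 : ℝ), ‖z x‖ ≤ 1 / 2 := by
    have := h0.norm
    rw [norm_zero] at this
    filter_upwards [this.eventually (ge_mem_nhds (by norm_num : (0 : ℝ) < 1 / 2))] with x hx
    exact hx
  refine IsBigO.trans (IsBigO.of_bound (3 / 2) ?_) hz
  filter_upwards [h1] with x hx
  have h2 := Complex.norm_log_one_add_half_le_self (z := -z x) (by rwa [norm_neg])
  rw [norm_neg] at h2
  rwa [sub_eq_add_neg]

private lemma StarL_xO : (fun x : ℝ => ((x - 1 / 2 : ℝ) : ℂ)) =O[𝓝[<] (1 / 2 : ℝ)] StarL_c := by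
  refine IsBigO.of_bound 1 ?_
  filter_upwards [StarL_ev] with x hx
  have h1 := StarL_c_ge x hx.1 hx.2
  have h2 := StarL_c_pos x hx.1 hx.2
  rw [Complex.norm_real, Real.norm_eq_abs, Real.norm_eq_abs, one_mul, abs_of_pos h2,
    abs_of_neg (by linarith [hx.2])]
  linarith

private lemma StarL_half_h : StarL_h (1 / 2) = Real.log 2 := by
  unfold StarL_h
  rw [show Real.pi * (1 / 2) = Real.pi / 2 by ring, Real.sin_pi_div_two, mul_one]

private lemma StarL_half_L2 : StarL_L2 (1 / 2) = Real.log 2 := by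
  unfold StarL_L2
  rw [show Real.pi * (3 / 4 - 1 / 2 / 2) = Real.pi / 2 by ring, Real.sin_pi_div_two, mul_one]

private lemma StarL_dh : DifferentiableAt ℝ StarL_h (1 / 2) := by
  unfold StarL_h
  refine DifferentiableAt.log (by fun_prop) ?_
  rw [show Real.pi * (1 / 2) = Real.pi / 2 by ring, Real.sin_pi_div_two]
  norm_num

private lemma StarL_dL2 : DifferentiableAt ℝ StarL_L2 (1 / 2) := by
  unfold StarL_L2
  refine DifferentiableAt.log (by fun_prop) ?_
  rw [show Real.pi * (3 / 4 - 1 / 2 / 2) = Real.pi / 2 by ring, Real.sin_pi_div_two]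
  norm_num

private lemma StarL_hO :
    (fun x : ℝ => ((StarL_h x - StarL_L2 x : ℝ) : ℂ)) =O[𝓝[<] (1 / 2 : ℝ)] StarL_c := by
  have h1 := (StarL_dh.sub StarL_dL2).isBigO_sub
  have h2 : (fun x : ℝ => ((StarL_h x - StarL_L2 x : ℝ) : ℂ)) =O[𝓝 (1 / 2 : ℝ)]
      (fun x : ℝ => x - 1 / 2) := by
    refine IsBigO.trans (isBigO_of_le _ (fun x => ?_)) h1
    simp only [Pi.sub_apply]
    rw [StarL_half_h, StarL_half_L2, sub_self, sub_zero, Complex.norm_real]
  refine (h2.mono nhdsWithin_le_nhds).trans ?_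
  refine IsBigO.trans (isBigO_of_le _ (fun x => ?_)) StarL_xO
  rw [Complex.norm_real]

private lemma StarL_h_lim : Tendsto (fun x : ℝ => (StarL_h x : ℂ)) (𝓝[<] (1 / 2))
    (𝓝 (Real.log 2 : ℂ)) := by
  have h := StarL_dh.continuousAt.tendsto
  rw [StarL_half_h] at h
  exact (Complex.continuous_ofReal.tendsto _).comp (h.mono_left nhdsWithin_le_nhds)

private lemma StarL_L2_lim : Tendsto (fun x : ℝ => (StarL_L2 x : ℂ)) (𝓝[<] (1 / 2))
    (𝓝 (Real.log 2 : ℂ)) := by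
  have h := StarL_dL2.continuousAt.tendsto
  rw [StarL_half_L2] at h
  exact (Complex.continuous_ofReal.tendsto _).comp (h.mono_left nhdsWithin_le_nhds)

private lemma StarL_x_lim : Tendsto (fun x : ℝ => (x : ℂ)) (𝓝[<] (1 / 2)) (𝓝 (1 / 2)) := by
  have h : Tendsto (fun x : ℝ => (x : ℂ)) (𝓝 (1 / 2)) (𝓝 ((1 / 2 : ℝ) : ℂ)) :=
    Complex.continuous_ofReal.tendsto _
  have e : ((1 / 2 : ℝ) : ℂ) = 1 / 2 := by push_cast; rfl
  rw [e] at h
  exact h.mono_left nhdsWithin_le_nhds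

/-! ### Values on the real interval -/

private lemma StarL_hw (x : ℝ) (h0 : 0 < x) (h1 : x < 1 / 2) : hh (x : ℂ) = (StarL_h x : ℂ) :=
  hh_real x h0 (by linarith)

private lemma StarL_hW (x : ℝ) (h0 : 0 < x) (h1 : x < 1 / 2) :
    hh ((x : ℂ) + 1 / 2) = (StarL_L x : ℂ) := by
  have h := hh_real (x + 1 / 2) (by linarith) (by linarith)
  have e : (((x + 1 / 2 : ℝ)) : ℂ) = (x : ℂ) + 1 / 2 := by push_cast; rfl
  rw [e] at h
  rw [h]
  unfold StarL_L StarL_c
  rw [show Real.pi * (x + 1 / 2) = Real.pi * x + Real.pi / 2 by ring, Real.sin_add_pi_div_two]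

private lemma StarL_LT (x : ℝ) (h0 : 0 < x) (h1 : x < 1 / 2) :
    TW.LT (x : ℂ) = (StarL_L x : ℂ) - 2 * (StarL_L2 x : ℂ) := by
  have hp := Real.pi_pos
  have a1 := hh_real (3 / 4 + x / 2) (by linarith) (by linarith)
  have a2 := hh_real (3 / 4 - x / 2) (by linarith) (by linarith)
  have e1 : (((3 / 4 + x / 2 : ℝ)) : ℂ) = 3 / 4 + (x : ℂ) / 2 := by push_cast; rfl
  have e2 : (((3 / 4 - x / 2 : ℝ)) : ℂ) = 3 / 4 - (x : ℂ) / 2 := by push_cast; rfl
  rw [e1] at a1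
  rw [e2] at a2
  unfold TW.LT
  rw [a1, a2]
  have p1 : 0 < Real.sin (Real.pi * (3 / 4 + x / 2)) :=
    Real.sin_pos_of_pos_of_lt_pi (by nlinarith) (by nlinarith)
  have p2 : 0 < Real.sin (Real.pi * (3 / 4 - x / 2)) :=
    Real.sin_pos_of_pos_of_lt_pi (by nlinarith) (by nlinarith)
  have e3 : StarL_c x = (2 * Real.sin (Real.pi * (3 / 4 + x / 2))) *
      (2 * Real.sin (Real.pi * (3 / 4 - x / 2))) := by
    unfold StarL_c
    have b1 := Real.cos_sub (Real.pi * (3 / 4 + x / 2)) (Real.pi * (3 / 4 - x / 2))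
    have b2 := Real.cos_add (Real.pi * (3 / 4 + x / 2)) (Real.pi * (3 / 4 - x / 2))
    rw [show Real.pi * (3 / 4 + x / 2) - Real.pi * (3 / 4 - x / 2) = Real.pi * x by ring] at b1
    rw [show Real.pi * (3 / 4 + x / 2) + Real.pi * (3 / 4 - x / 2) = Real.pi / 2 + Real.pi by
      ring, Real.cos_add_pi, Real.cos_pi_div_two] at b2
    linarith
  have e4 : StarL_L x = Real.log (2 * Real.sin (Real.pi * (3 / 4 + x / 2))) + StarL_L2 x := by
    unfold StarL_L StarL_L2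
    rw [e3, Real.log_mul (by positivity) (by positivity)]
  rw [e4]
  unfold StarL_L2
  push_cast
  ring

private noncomputable def StarL_E (x : ℝ) : ℂ := exp (2 * Real.pi * I * bS 1 x)

private noncomputable def StarL_F (x : ℝ) : ℂ := exp (2 * Real.pi * I * (x + bS 1 x))

private lemma StarL_b (x : ℝ) (h0 : 0 < x) (h1 : x < 1 / 2) :
    2 * Real.pi * I * bS 1 x = 2 * Real.pi * I * (1 - 3 / 2 * x) +
      ((StarL_L x : ℂ) - 2 * (StarL_L2 x : ℂ)) := by
  unfold bS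
  rw [StarL_LT x h0 h1]
  have h := Complex.two_pi_I_ne_zero
  push_cast
  field_simp

private lemma StarL_bre (x : ℝ) (h0 : 0 < x) (h1 : x < 1 / 2) : (bS 1 x).re = 1 - 3 / 2 * x := by
  have h := StarL_b x h0 h1
  have h2 := congrArg Complex.im h
  have e1 : (2 * (Real.pi : ℂ) * I * bS 1 x).im = 2 * Real.pi * (bS 1 x).re := by
    simp [Complex.mul_im, Complex.mul_re]
  have e2 : (2 * (Real.pi : ℂ) * I * (1 - 3 / 2 * x) +
      ((StarL_L x : ℂ) - 2 * (StarL_L2 x : ℂ))).im = 2 * Real.pi * (1 - 3 / 2 * x) := by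
    simp [Complex.mul_im, Complex.mul_re]
  rw [e1, e2] at h2
  exact mul_left_cancel₀ (by positivity) h2

private lemma StarL_exp_bd (a y : ℝ) :
    ‖exp (2 * Real.pi * I * (a : ℂ) + (y : ℂ))‖ = Real.exp y := by
  rw [Complex.norm_exp]
  congr 1
  simp [Complex.mul_im, Complex.mul_re]

private lemma StarL_expO {z : ℝ → ℂ}
    (hz : ∀ x, 0 < x → x < 1 / 2 → ‖z x‖ = Real.exp (StarL_L x - 2 * StarL_L2 x)) :
    z =O[𝓝[<] (1 / 2 : ℝ)] StarL_c := by
  have h1 : Tendsto (fun x => Real.exp (-(2 * StarL_L2 x))) (𝓝[<] (1 / 2))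
      (𝓝 (Real.exp (-(2 * Real.log 2)))) := by
    have h := StarL_dL2.continuousAt.tendsto
    rw [StarL_half_L2] at h
    exact (Real.continuous_exp.tendsto _).comp
      ((h.mono_left nhdsWithin_le_nhds).const_mul 2).neg
  refine IsBigO.of_bound (Real.exp (-(2 * Real.log 2)) + 1) ?_
  filter_upwards [StarL_ev, h1.eventually (ge_mem_nhds (by linarith :
    Real.exp (-(2 * Real.log 2)) < Real.exp (-(2 * Real.log 2)) + 1))] with x hx hx2
  have hc := StarL_c_pos x hx.1 hx.2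
  rw [hz x hx.1 hx.2, Real.norm_eq_abs, abs_of_pos hc, sub_eq_add_neg, Real.exp_add]
  unfold StarL_L
  rw [Real.exp_log hc, mul_comm]
  exact mul_le_mul_of_nonneg_right hx2 hc.le

private lemma StarL_EO : StarL_E =O[𝓝[<] (1 / 2 : ℝ)] StarL_c := by
  refine StarL_expO fun x h0 h1 => ?_
  unfold StarL_E
  rw [StarL_b x h0 h1, ← StarL_exp_bd (1 - 3 / 2 * x)]
  push_cast
  rfl

private lemma StarL_FO : StarL_F =O[𝓝[<] (1 / 2 : ℝ)] StarL_c := by
  refine StarL_expO fun x h0 h1 => ?_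
  unfold StarL_F
  rw [mul_add, StarL_b x h0 h1, ← StarL_exp_bd (1 - 1 / 2 * x)]
  push_cast
  congr 2
  ring

private lemma StarL_hb (x : ℝ) (h0 : 0 < x) (h1 : x < 1 / 2) :
    hh (bS 1 x) = Complex.log (1 - StarL_E x) - Real.pi * I * (bS 1 x - 1 / 2) := by
  have hr := StarL_bre x h0 h1
  have := hh_log (bS 1 x) (by rw [hr]; linarith) (by rw [hr]; linarith)
  unfold StarL_E
  rw [this]
  ring

private lemma StarL_hs (x : ℝ) (h0 : 0 < x) (h1 : x < 1 / 2) :
    hh ((x : ℂ) + bS 1 x) =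
      Complex.log (1 - StarL_F x) - Real.pi * I * (x + bS 1 x - 1 / 2) := by
  have hr := StarL_bre x h0 h1
  have := hh_log ((x : ℂ) + bS 1 x) (by rw [Complex.add_re, hr, Complex.ofReal_re]; linarith)
    (by rw [Complex.add_re, hr, Complex.ofReal_re]; linarith)
  unfold StarL_F
  rw [this]
  ring

/-- The first argument. -/
private noncomputable def StarL_A (x : ℝ) : ℂ :=
  Complex.log (1 - StarL_F x) - StarL_h x - Real.pi * I * (x - 1 / 2)

private noncomputable def StarL_B1 (x : ℝ) : ℂ :=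
  StarL_h x - Complex.log (1 - StarL_E x) - Real.pi * I * (x - 1 / 2)

private noncomputable def StarL_A2 (x : ℝ) : ℂ :=
  Complex.log (1 - StarL_F x) - Complex.log (1 - StarL_E x)

private noncomputable def StarL_B2 (x : ℝ) : ℂ :=
  -(2 * Real.pi * I * (1 - 3 / 2 * x)) - (StarL_L x - 2 * StarL_L2 x) + 3 * Real.pi * I / 2 -
    Real.pi * I * x + Complex.log (1 - StarL_E x) - StarL_h x

private noncomputable def StarL_W0 (x : ℝ) : ℂ := StarL_L x + Real.pi * I / 2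

private noncomputable def StarL_W1 (x : ℝ) : ℂ :=
  StarL_h x - StarL_L2 x - 3 / 2 * Real.pi * I * (x - 1 / 2) - Complex.log (1 - StarL_E x)

private lemma StarL_eq (x : ℝ) (h0 : 0 < x) (h1 : x < 1 / 2) :
    LS 1 x - RS 1 x = 2 * GG (StarL_W0 x) + StarL_W0 x * StarL_W1 x -
      2 * (-(GG (StarL_A x) + StarL_A x * StarL_B1 x / 2) +
        (GG (StarL_A2 x) + StarL_A2 x * StarL_B2 x / 2) + (Real.pi : ℂ) ^ 2 * x / 2 -
        (Real.pi : ℂ) ^ 2 / 4 + Real.pi * I / 2 * (Complex.log (1 - StarL_E x) - StarL_h x) +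
        (Real.pi : ℂ) ^ 2 / 6) + (Real.pi : ℂ) ^ 2 / 4 +
      Real.pi * I * (StarL_L x * ((x - 1 / 2 : ℝ) : ℂ)) -
      4 * Real.pi * I * (ff (3 / 4 + x / 2) + ff (3 / 4 - x / 2)) + 2 * (Real.pi : ℂ) ^ 2 * x -
      2 * Real.pi * I * (x * StarL_L2 x) := by
  have hI : I * I = -1 := Complex.I_mul_I
  have kb := StarL_b x h0 h1
  have q0 : W0S 1 x = StarL_W0 x := by
    unfold W0S StarL_W0
    rw [StarL_hW x h0 h1]
    push_cast
    ring
  have q1 : W1S 1 x (bS 1 x) = StarL_W1 x := by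
    unfold W1S StarL_W1
    rw [StarL_hW x h0 h1, StarL_hw x h0 h1, StarL_hb x h0 h1]
    push_cast
    linear_combination (1 / 2 : ℂ) * kb
  have a1 : hh ((x : ℂ) + bS 1 x) - hh x + Real.pi * I * bS 1 x = StarL_A x := by
    unfold StarL_A
    rw [StarL_hs x h0 h1, StarL_hw x h0 h1]
    ring
  have a2 : -(hh (bS 1 x) - hh x) - Real.pi * I * (x + bS 1 x) + Real.pi * I = StarL_B1 x := by
    unfold StarL_B1
    rw [StarL_hb x h0 h1, StarL_hw x h0 h1]
    ring
  have a3 : hh ((x : ℂ) + bS 1 x) - hh (bS 1 x) + Real.pi * I * x = StarL_A2 x := by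
    unfold StarL_A2
    rw [StarL_hb x h0 h1, StarL_hs x h0 h1]
    ring
  have a4 : hh (bS 1 x) - hh x - Real.pi * I * (x + bS 1 x) + Real.pi * I = StarL_B2 x := by
    unfold StarL_B2
    rw [StarL_hb x h0 h1, StarL_hw x h0 h1]
    linear_combination -kb
  have hL : Lam x (bS 1 x) = -(GG (StarL_A x) + StarL_A x * StarL_B1 x / 2) +
        (GG (StarL_A2 x) + StarL_A2 x * StarL_B2 x / 2) + (Real.pi : ℂ) ^ 2 * x / 2 -
        (Real.pi : ℂ) ^ 2 / 4 + Real.pi * I / 2 * (Complex.log (1 - StarL_E x) - StarL_h x) +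
        (Real.pi : ℂ) ^ 2 / 6 := by
    unfold Lam
    rw [a1, a2, a3, a4, StarL_hb x h0 h1, StarL_hw x h0 h1]
    linear_combination (-(Real.pi : ℂ) ^ 2 / 2 * (bS 1 x - 1 / 2)) * hI
  unfold LS RS
  rw [q0, q1, hL, StarL_LT x h0 h1]
  unfold StarL_W0
  push_cast
  linear_combination (-(Real.pi : ℂ) ^ 2 / 4) * hI

/-! ### The limit -/

private lemma StarL_le :
    (fun x => Complex.log (1 - StarL_E x)) =O[𝓝[<] (1 / 2 : ℝ)] StarL_c := StarL_log StarL_EO

private lemma StarL_lf :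
    (fun x => Complex.log (1 - StarL_F x)) =O[𝓝[<] (1 / 2 : ℝ)] StarL_c := StarL_log StarL_FO

private lemma StarL_ff1 : Tendsto (fun x : ℝ => ff (3 / 4 + (x : ℂ) / 2)) (𝓝[<] (1 / 2)) (𝓝 0) := by
  have h1 : Continuous fun x : ℝ => Fr (3 / 4 + x / 2) := Fr_continuous.comp (by fun_prop)
  have h2 := h1.tendsto (1 / 2)
  have e : Fr (3 / 4 + 1 / 2 / 2) = 0 := by
    have := Fr_add_one 0
    rw [Fr_zero, zero_add] at this
    rw [show (3 / 4 + 1 / 2 / 2 : ℝ) = 1 by norm_num, this]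
  rw [e] at h2
  have h3 := (Complex.continuous_ofReal.tendsto (0 : ℝ)).comp
    (h2.mono_left (nhdsWithin_le_nhds (s := Set.Iio (1 / 2 : ℝ))))
  rw [Complex.ofReal_zero] at h3
  refine h3.congr' ?_
  filter_upwards [StarL_ev] with x hx
  have := ff_real (3 / 4 + x / 2) (by linarith [hx.1]) (by linarith [hx.2])
  simp only [Function.comp]
  rw [← this]
  push_cast
  rfl

private lemma StarL_ff2 : Tendsto (fun x : ℝ => ff (3 / 4 - (x : ℂ) / 2)) (𝓝[<] (1 / 2)) (𝓝 0) := by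
  have h1 : Continuous fun x : ℝ => Fr (3 / 4 - x / 2) := Fr_continuous.comp (by fun_prop)
  have h2 := h1.tendsto (1 / 2)
  have e : Fr (3 / 4 - 1 / 2 / 2) = 0 := by
    rw [show (3 / 4 - 1 / 2 / 2 : ℝ) = 1 / 2 by norm_num, Fr_half]
  rw [e] at h2
  have h3 := (Complex.continuous_ofReal.tendsto (0 : ℝ)).comp
    (h2.mono_left (nhdsWithin_le_nhds (s := Set.Iio (1 / 2 : ℝ))))
  rw [Complex.ofReal_zero] at h3
  refine h3.congr' ?_
  filter_upwards [StarL_ev] with x hx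
  have := ff_real (3 / 4 - x / 2) (by linarith [hx.2]) (by linarith [hx.1])
  simp only [Function.comp]
  rw [← this]
  push_cast
  rfl

private lemma StarL_x0 : Tendsto (fun x : ℝ => ((x : ℂ) - 1 / 2)) (𝓝[<] (1 / 2)) (𝓝 0) := by
  have := StarL_x_lim.sub_const (1 / 2)
  rwa [sub_self] at this

private lemma StarL_Alim : Tendsto StarL_A (𝓝[<] (1 / 2)) (𝓝 (-(Real.log 2 : ℂ))) := by
  have h := ((StarL_O StarL_lf).sub StarL_h_lim).sub (StarL_x0.const_mul (Real.pi * I : ℂ))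
  rw [mul_zero, sub_zero, zero_sub] at h
  exact h

private lemma StarL_B1lim : Tendsto StarL_B1 (𝓝[<] (1 / 2)) (𝓝 (Real.log 2 : ℂ)) := by
  have h := (StarL_h_lim.sub (StarL_O StarL_le)).sub (StarL_x0.const_mul (Real.pi * I : ℂ))
  rw [mul_zero, sub_zero, sub_zero] at h
  exact h

private lemma StarL_A2O : StarL_A2 =O[𝓝[<] (1 / 2 : ℝ)] StarL_c := StarL_lf.sub StarL_le

private lemma StarL_W1O : StarL_W1 =O[𝓝[<] (1 / 2 : ℝ)] StarL_c := by
  have h := (StarL_hO.sub (StarL_xO.const_mul_left (3 / 2 * Real.pi * I))).sub StarL_le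
  refine h.congr_left fun x => ?_
  unfold StarL_W1
  push_cast
  ring

private lemma StarL_W0W1 : Tendsto (fun x => StarL_W0 x * StarL_W1 x) (𝓝[<] (1 / 2)) (𝓝 0) := by
  have h := (StarL_mul StarL_W1O).add ((StarL_O StarL_W1O).const_mul (Real.pi * I / 2 : ℂ))
  rw [mul_zero, add_zero] at h
  refine h.congr fun x => ?_
  unfold StarL_W0
  ring

private lemma StarL_A2B2 : Tendsto (fun x => StarL_A2 x * StarL_B2 x) (𝓝[<] (1 / 2)) (𝓝 0) := by
  have t1 := StarL_mul StarL_A2O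
  have t2 := StarL_O StarL_A2O
  have t3 : Tendsto (fun x : ℝ => -(2 * Real.pi * I * (1 - 3 / 2 * (x : ℂ))) +
      2 * (StarL_L2 x : ℂ) + 3 * Real.pi * I / 2 - Real.pi * I * x +
      Complex.log (1 - StarL_E x) - StarL_h x) (𝓝[<] (1 / 2))
      (𝓝 (-(2 * Real.pi * I * (1 - 3 / 2 * (1 / 2))) + 2 * (Real.log 2 : ℂ) +
        3 * Real.pi * I / 2 - Real.pi * I * (1 / 2) + 0 - (Real.log 2 : ℂ))) :=
    (((((((tendsto_const_nhds.sub (StarL_x_lim.const_mul (3 / 2))).const_mul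
      (2 * Real.pi * I : ℂ)).neg.add (StarL_L2_lim.const_mul 2)).add_const
      (3 * Real.pi * I / 2 : ℂ)).sub (StarL_x_lim.const_mul (Real.pi * I : ℂ))).add
      (StarL_O StarL_le)).sub StarL_h_lim)
  have h := (t2.mul t3).sub t1
  rw [zero_mul, sub_zero] at h
  refine h.congr fun x => ?_
  unfold StarL_B2
  ring

private lemma StarL_GGW0 : Tendsto (fun x => GG (StarL_W0 x)) (𝓝[<] (1 / 2)) (𝓝 0) := by
  have hp := Real.pi_pos
  have hcI : (fun x : ℝ => (StarL_c x : ℂ) * I) =O[𝓝[<] (1 / 2 : ℝ)] StarL_c :=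
    isBigO_of_le _ (fun x => by rw [norm_mul, Complex.norm_I, mul_one, Complex.norm_real])
  have hl := StarL_log hcI
  have t1 := StarL_mul hl
  have t2 := StarL_O hl
  have t3 : Tendsto (fun x : ℝ => dilog ((StarL_c x : ℂ) * I)) (𝓝[<] (1 / 2)) (𝓝 0) := by
    have h := dilog_continuous_zero.tendsto
    rw [dilog_zero] at h
    exact h.comp (StarL_O hcI)
  have h := (t3.add t1).add (t2.const_mul (Real.pi * I / 2 : ℂ))
  rw [mul_zero, add_zero, add_zero] at h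
  refine h.congr' ?_
  filter_upwards [StarL_ev] with x hx
  have hc := StarL_c_pos x hx.1 hx.2
  have him : (StarL_W0 x).im = Real.pi / 2 := by
    unfold StarL_W0
    simp
  have he : exp (StarL_W0 x) = (StarL_c x : ℂ) * I := by
    unfold StarL_W0
    rw [Complex.exp_add, show (Real.pi : ℂ) * I / 2 = Real.pi / 2 * I by ring,
      Complex.exp_pi_div_two_mul_I, ← Complex.ofReal_exp]
    unfold StarL_L
    rw [Real.exp_log hc]
  rw [GG_dilog (StarL_W0 x) (by rw [him, abs_of_pos (by positivity)]; linarith)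
    (Or.inl (by rw [him]; positivity)), he]
  unfold StarL_W0
  ring

private lemma StarL_GGA : Tendsto (fun x => GG (StarL_A x)) (𝓝[<] (1 / 2))
    (𝓝 (GG (-(Real.log 2 : ℂ)))) := by
  have hp := Real.pi_pos
  have h := (GG_hasDerivAt (-(Real.log 2 : ℂ)) (by
    rw [Complex.neg_im, Complex.ofReal_im, neg_zero, abs_zero]
    positivity)).continuousAt.tendsto
  exact h.comp StarL_Alim

private lemma StarL_GGA2 : Tendsto (fun x => GG (StarL_A2 x)) (𝓝[<] (1 / 2))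
    (𝓝 ((Real.pi : ℂ) ^ 2 / 6)) := by
  have hp := Real.pi_pos
  have h := (GG_hasDerivAt 0 (by simp [hp])).continuousAt.tendsto
  rw [GG_zero] at h
  exact h.comp (StarL_O StarL_A2O)

end aux

theorem star_lim : Tendsto (fun x : ℝ => LS 1 x - RS 1 x) (𝓝[<] (1 / 2))
    (𝓝 (3 * (Real.pi : ℂ) ^ 2 / 4)) := by
  have s1 := (StarL_GGA.add ((StarL_Alim.mul StarL_B1lim).div_const 2)).neg
  have s2 := StarL_GGA2.add (StarL_A2B2.div_const 2)
  have s3 := (StarL_x_lim.const_mul ((Real.pi : ℂ) ^ 2)).div_const 2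
  have s4 := ((StarL_O StarL_le).sub StarL_h_lim).const_mul (Real.pi * I / 2 : ℂ)
  have s5 := ((((s1.add s2).add s3).sub_const ((Real.pi : ℂ) ^ 2 / 4)).add s4).add_const
    ((Real.pi : ℂ) ^ 2 / 6)
  have s6 := ((StarL_GGW0.const_mul 2).add StarL_W0W1).sub (s5.const_mul 2)
  have s7 := (StarL_mul StarL_xO).const_mul (Real.pi * I : ℂ)
  have s8 := (StarL_ff1.add StarL_ff2).const_mul (4 * Real.pi * I : ℂ)
  have s9 := StarL_x_lim.const_mul (2 * (Real.pi : ℂ) ^ 2)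
  have s10 := (StarL_x_lim.mul StarL_L2_lim).const_mul (2 * Real.pi * I : ℂ)
  have s := ((((s6.add_const ((Real.pi : ℂ) ^ 2 / 4)).add s7).sub s8).add s9).sub s10
  rw [GV.LamB_GG_log2] at s
  have e : ∀ P l : ℂ, ((((2 * (0 : ℂ) + 0 - 2 * (-(P ^ 2 / 12 + l ^ 2 / 2 + -l * l / 2) +
      (P ^ 2 / 6 + 0 / 2) + P ^ 2 * (1 / 2) / 2 - P ^ 2 / 4 + P * I / 2 * (0 - l) + P ^ 2 / 6) +
      P ^ 2 / 4 + P * I * 0 - 4 * P * I * (0 + 0)) + 2 * P ^ 2 * (1 / 2)) -
      2 * P * I * (1 / 2 * l))) = 3 * P ^ 2 / 4 := by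
    intro P l
    ring
  rw [e] at s
  refine s.congr' ?_
  filter_upwards [StarL_ev] with x hx
  rw [StarL_eq x hx.1 hx.2]

end Pool.Agent.H63.TC
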