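import Pool.Agent.H63.TC.StarD
import Pool.Agent.H63.TC.StarL
import Pool.Agent.H63.TC.LamS2

/-! # The identity for the last layer -/

namespace Pool.Agent.H63.TC

open Pool.Agent.H63.VC Pool.Agent.H63.VC3 Pool.Agent.H63.VC5 Pool.Agent.H63.TW Complex Filter
  Topology

private lemma Star_phi_conj (u : ℂ) : phi ((starRingEnd ℂ) u) = (starRingEnd ℂ) (phi u) := by
  unfold phi
  by_cases h : u = 0
  · rw [h]
    simp
  · have h2 : (starRingEnd ℂ) u ≠ 0 := by
      intro h0
      apply h
      rw [← Complex.conj_conj u, h0, map_zero]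
    rw [if_neg h, if_neg h2, map_div₀, map_sub, map_one, ← Complex.exp_conj, map_neg]

theorem GG_conj (w : ℂ) : GG ((starRingEnd ℂ) w) = (starRingEnd ℂ) (GG w) := by
  unfold GG
  rw [map_add, map_div₀, map_pow, Complex.conj_ofReal, map_ofNat,
    intervalIntegral.integral_of_le (by norm_num), intervalIntegral.integral_of_le (by norm_num),
    ← integral_conj]
  congr 2
  funext t
  rw [map_mul, ← Star_phi_conj, map_mul, Complex.conj_ofReal]

private lemma Star_const (w w' : ℂ) (h : DW 1 w) (h' : DW 1 w') :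
    LS 1 w - RS 1 w = LS 1 w' - RS 1 w' := by
  set s : Set ℂ := {z | DW 1 z} with hs
  have hc : Convex ℝ s := by
    intro x hx y hy a b ha hb hab
    obtain ⟨x1, x2, x3⟩ := hx
    obtain ⟨y1, y2, y3⟩ := hy
    refine ⟨?_, ?_, ?_⟩
    · simp only [Complex.add_re, Complex.real_smul, Complex.re_ofReal_mul]
      rcases ha.lt_or_eq with h0 | h0
      · have := mul_pos h0 x1
        have := mul_nonneg hb y1.le
        linarith
      · have hb1 : b = 1 := by linarith
        rw [← h0, hb1]
        linarith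
    · simp only [Complex.add_re, Complex.real_smul, Complex.re_ofReal_mul]
      rcases ha.lt_or_eq with h0 | h0
      · have := mul_lt_mul_of_pos_left x2 h0
        have := mul_le_mul_of_nonneg_left y2.le hb
        nlinarith
      · have hb1 : b = 1 := by linarith
        rw [← h0, hb1]
        linarith
    · simp only [Complex.add_im, Complex.real_smul, Complex.im_ofReal_mul]
      rw [one_mul] at x3 y3 ⊢
      have := mul_nonneg ha x3
      have := mul_nonneg hb y3
      linarith
  have h1 : ∀ z ∈ s, HasDerivWithinAt (fun w => LS 1 w - RS 1 w) ((fun _ => (0 : ℂ)) z) s z :=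
    fun z hz => (star_deriv 1 (Or.inl rfl) z hz).hasDerivWithinAt
  have h2 := Convex.norm_image_sub_le_of_norm_hasDerivWithin_le (C := 0) h1
    (fun z _ => by simp) hc h' h
  rw [zero_mul] at h2
  exact sub_eq_zero.1 (norm_le_zero_iff.1 h2)

private lemma Star_one (w : ℂ) (h : DW 1 w) :
    LS 1 w = RS 1 w + 3 * (Real.pi : ℂ) ^ 2 / 4 := by
  have h1 : Tendsto (fun x : ℝ => LS 1 x - RS 1 x) (𝓝[<] (1 / 2)) (𝓝 (LS 1 w - RS 1 w)) := by
    refine tendsto_const_nhds.congr' ?_
    have hIoo : Set.Ioo (0 : ℝ) (1 / 2) ∈ 𝓝[<] (1 / 2 : ℝ) := Ioo_mem_nhdsLT (by norm_num)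
    filter_upwards [hIoo] with x hx
    apply Star_const w x h
    refine ⟨?_, ?_, ?_⟩
    · rw [Complex.ofReal_re]; exact hx.1
    · rw [Complex.ofReal_re]; exact hx.2
    · rw [Complex.ofReal_im]; norm_num
  have h2 := tendsto_nhds_unique h1 star_lim
  rw [← h2]
  ring

theorem star (σ : ℝ) (hσ : σ = 1 ∨ σ = -1) (w : ℂ) (h : DW σ w) :
    LS σ w = RS σ w + 3 * σ * (Real.pi : ℂ) ^ 2 / 4 := by
  rcases hσ with rfl | rfl
  · rw [Star_one w h]
    push_cast
    ring
  · obtain ⟨w1, w2, w3⟩ := h
    have hu : DW 1 ((starRingEnd ℂ) w) := by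
      refine ⟨?_, ?_, ?_⟩
      · rw [Complex.conj_re]; exact w1
      · rw [Complex.conj_re]; exact w2
      · rw [Complex.conj_im]; linarith
    have hd := star_dom 1 (Or.inl rfl) _ hu
    have hs := Star_one _ hu
    obtain ⟨d1, d2, d3⟩ := hd
    have c0 : (starRingEnd ℂ) ((starRingEnd ℂ) w) = w := Complex.conj_conj w
    have habs : |((starRingEnd ℂ) w).re| < 1 / 2 := by
      rw [Complex.conj_re, abs_lt]
      constructor <;> linarith
    have cLT : (starRingEnd ℂ) (LT ((starRingEnd ℂ) w)) = LT w := by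
      rw [← LT_conj _ habs, c0]
    have chh1 : (starRingEnd ℂ) (hh ((starRingEnd ℂ) w + 1 / 2)) = hh (w + 1 / 2) := by
      rw [← hh_conj _ (by simp; linarith) (by simp; linarith)]
      congr 1
      rw [map_add, c0, map_div₀, map_one, map_ofNat]
    have chh0 : (starRingEnd ℂ) (hh ((starRingEnd ℂ) w)) = hh w := by
      rw [← hh_conj _ (by rw [Complex.conj_re]; exact w1) (by rw [Complex.conj_re]; linarith), c0]
    have cW0 : (starRingEnd ℂ) (W0S 1 ((starRingEnd ℂ) w)) = W0S (-1) w := by
      unfold W0S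
      rw [map_add, chh1]
      simp only [map_div₀, map_mul, Complex.conj_ofReal, Complex.conj_I, map_ofNat]
      push_cast
      ring
    have cb : (starRingEnd ℂ) (bS 1 ((starRingEnd ℂ) w)) = bS (-1) w := by
      unfold bS
      simp only [map_add, map_sub, map_div₀, map_mul, Complex.conj_ofReal, Complex.conj_I,
        map_ofNat, map_one, c0, cLT]
      have : (Real.pi : ℂ) ≠ 0 := by exact_mod_cast Real.pi_ne_zero
      push_cast
      field_simp
    have hb1 : (bS 1 ((starRingEnd ℂ) w)).re < 1 := by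
      rw [Complex.add_re] at d3
      linarith
    have chb : (starRingEnd ℂ) (hh (bS 1 ((starRingEnd ℂ) w))) = hh (bS (-1) w) := by
      rw [← hh_conj _ d2 hb1, cb]
    have cW1 : (starRingEnd ℂ) (W1S 1 ((starRingEnd ℂ) w) (bS 1 ((starRingEnd ℂ) w))) =
        W1S (-1) w (bS (-1) w) := by
      unfold W1S
      simp only [map_add, map_sub, map_div₀, map_mul, Complex.conj_ofReal, Complex.conj_I,
        map_ofNat, chh0, chh1, chb]
      push_cast
      ring
    have cLam : (starRingEnd ℂ) (Lam ((starRingEnd ℂ) w) (bS 1 ((starRingEnd ℂ) w))) =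
        Lam w (bS (-1) w) := by
      rw [← LamS_conj _ _ ⟨d1, d2, d3⟩, c0, cb]
    have cGG : (starRingEnd ℂ) (GG (W0S 1 ((starRingEnd ℂ) w))) = GG (W0S (-1) w) := by
      rw [← GG_conj, cW0]
    have cf1 : (starRingEnd ℂ) (ff (3 / 4 + (starRingEnd ℂ) w / 2)) = ff (3 / 4 + w / 2) := by
      rw [← ff_conj]
      congr 1
      simp only [map_add, map_div₀, map_ofNat, c0]
    have cf2 : (starRingEnd ℂ) (ff (3 / 4 - (starRingEnd ℂ) w / 2)) = ff (3 / 4 - w / 2) := by
      rw [← ff_conj]
      congr 1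
      simp only [map_sub, map_div₀, map_ofNat, c0]
    have hL : LS (-1) w = -(starRingEnd ℂ) (LS 1 ((starRingEnd ℂ) w)) := by
      unfold LS
      simp only [map_add, map_sub, map_div₀, map_mul, Complex.conj_ofReal, Complex.conj_I,
        map_ofNat, cW0, cW1, cLam, cGG]
      push_cast
      ring
    have hR : RS (-1) w = -(starRingEnd ℂ) (RS 1 ((starRingEnd ℂ) w)) := by
      unfold RS
      simp only [map_add, map_sub, map_div₀, map_mul, map_pow, Complex.conj_ofReal, Complex.conj_I,
        map_ofNat, cf1, cf2, cLT, c0]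
      push_cast
      ring
    rw [hL, hR, hs]
    simp only [map_add, map_div₀, map_mul, map_pow, Complex.conj_ofReal, map_ofNat]
    push_cast
    ring

end Pool.Agent.H63.TC
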