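import Pool.Agent.H63.TC.PosT
import Pool.Agent.H63.VC5.RogGG

/-! # The last layer -/

namespace Pool.Agent.H63.TC

open Pool.Agent.H63.VC Pool.Agent.H63.VC3 Pool.Agent.H63.VC4 Pool.Agent.H63.VC5
  Pool.Agent.H63.TW Complex

/-- Real parts. -/
private theorem HinS_re {σ : ℝ} {m : ℕ} {w : ℂ} (hc : CritW σ m w) :
    w.re < 2 / 5 ∧ (m : ℝ) * w.re < 1 ∧ (2 : ℝ) ≤ m := by
  have hm : (2 : ℝ) ≤ m := by exact_mod_cast hc.hm
  have h1 := hc.re_pos
  have h2 := hc.re_lt
  refine ⟨?_, ?_, hm⟩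
  · nlinarith
  · nlinarith

private theorem HinS_sq {σ : ℝ} {m : ℕ} {w : ℂ} (hc : CritW σ m w) : (σ : ℂ) ^ 2 = 1 := by
  rcases hc.hs with h | h
  · rw [h]; norm_num
  · rw [h]; norm_num

private theorem HinS_cast {m : ℕ} (hm : 2 ≤ m) : ((m - 1 : ℕ) : ℂ) = (m : ℂ) - 1 := by
  rw [Nat.cast_sub (by omega)]
  norm_num

/-- `exp (σ π i / 2) = σ i`. -/
private theorem HinS_exp {σ : ℝ} (hs : σ = 1 ∨ σ = -1) :
    exp (σ * (Real.pi * I) / 2) = σ * I := by
  rcases hs with h | h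
  · rw [h, show (((1 : ℝ) : ℂ) * (Real.pi * I) / 2) = Real.pi / 2 * I by push_cast; ring,
      Complex.exp_pi_div_two_mul_I]
    push_cast
    ring
  · rw [h, show (((-1 : ℝ) : ℂ) * (Real.pi * I) / 2) = -(Real.pi / 2 * I) by push_cast; ring,
      Complex.exp_neg, Complex.exp_pi_div_two_mul_I, Complex.inv_I]
    push_cast
    ring

/-- The second logarithm. -/
private theorem HinS_W1 {σ : ℝ} {m : ℕ} {w : ℂ} (hc : CritW σ m w) :
    W1S σ w (((m - 1 : ℕ) : ℂ) * w) =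
      hh (m * w) - hh (((m - 1 : ℕ) : ℂ) * w) + σ * (Real.pi * I) / 2 := by
  have h0 := W0S_eq σ m w hc
  unfold W0S at h0
  unfold W1S
  linear_combination h0 / 2

private theorem HinS_u {σ : ℝ} {m : ℕ} {w : ℂ} (hc : CritW σ m w) :
    exp (W0S σ w) = 2 * σ * I * cos (Real.pi * w) := by
  obtain ⟨h1, _, _⟩ := HinS_re hc
  have hp := hc.re_pos
  unfold W0S
  rw [Complex.exp_add, hh_exp_s _ (by simp; linarith) (by simp; linarith), HinS_exp hc.hs,
    show (Real.pi : ℂ) * (w + 1 / 2) = Real.pi * w + Real.pi / 2 by ring, Complex.sin_add_pi_div_two]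
  ring

private theorem HinS_v {σ : ℝ} {m : ℕ} {w : ℂ} (hc : CritW σ m w) :
    exp (-W1S σ w (((m - 1 : ℕ) : ℂ) * w)) = 1 - exp (W0S σ w) := by
  obtain ⟨_, h2, hm⟩ := HinS_re hc
  have hp := hc.re_pos
  have hsq := HinS_sq hc
  have hcl := close_T σ m w hc
  have hre : (((m - 1 : ℕ) : ℂ) * w).re = ((m : ℝ) - 1) * w.re := by
    rw [HinS_cast hc.hm]
    simp
  have hre' : ((m : ℂ) * w).re = (m : ℝ) * w.re := by simp
  have e1 := hh_exp_s (((m - 1 : ℕ) : ℂ) * w) (by rw [hre]; nlinarith) (by rw [hre]; nlinarith)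
  have e2 := hh_exp_s ((m : ℂ) * w) (by rw [hre']; nlinarith) (by rw [hre']; nlinarith)
  have hne : sin (Real.pi * (m * w)) ≠ 0 := by
    intro h
    rw [h, mul_zero] at e2
    exact Complex.exp_ne_zero _ e2
  have hx : sin (Real.pi * (((m - 1 : ℕ) : ℂ) * w)) =
      sin (Real.pi * (m * w)) * (2 * cos (Real.pi * w) + σ * I) := by
    have a1 : sin (Real.pi * (((m - 1 : ℕ) : ℂ) * w)) =
        sin (Real.pi * (m * w) - Real.pi * w) := by
      rw [HinS_cast hc.hm]
      congr 1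
      ring
    have a2 : sin ((m + 1) * (Real.pi * w)) = sin (Real.pi * (m * w) + Real.pi * w) := by
      congr 1
      ring
    have a3 : sin (m * (Real.pi * w)) = sin (Real.pi * (m * w)) := by
      congr 1
      ring
    rw [a2, a3, Complex.sin_add] at hcl
    rw [a1, Complex.sin_sub]
    linear_combination -hcl
  rw [HinS_W1 hc, HinS_u hc]
  have e3 : exp (-(hh (m * w) - hh (((m - 1 : ℕ) : ℂ) * w) + σ * (Real.pi * I) / 2)) =
      exp (hh (((m - 1 : ℕ) : ℂ) * w)) / (exp (hh (m * w)) * exp (σ * (Real.pi * I) / 2)) := by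
    rw [← Complex.exp_add, ← Complex.exp_sub]
    congr 1
    ring
  have hsI : (σ : ℂ) * I ≠ 0 := by
    rw [← HinS_exp hc.hs]
    exact Complex.exp_ne_zero _
  rw [e3, e1, e2, HinS_exp hc.hs, hx, div_eq_iff (mul_ne_zero (mul_ne_zero two_ne_zero hne) hsI)]
  have hI : I ^ 2 = -1 := Complex.I_sq
  linear_combination (4 * sin (Real.pi * (m * w)) * cos (Real.pi * w) * (σ : ℂ) ^ 2) * hI -
    4 * sin (Real.pi * (m * w)) * cos (Real.pi * w) * hsq

private theorem HinS_im {σ : ℝ} {m : ℕ} {w : ℂ} (hc : CritW σ m w) :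
    |(W0S σ w).im| < 2 * Real.pi := by
  obtain ⟨h1, _, _⟩ := HinS_re hc
  have hp := hc.re_pos
  have hpi := Real.pi_pos
  have h2 := hh_im_lt (w + 1 / 2) (by simp; linarith) (by simp; linarith)
  rw [abs_lt] at h2
  unfold W0S
  rw [Complex.add_im, abs_lt]
  rcases hc.hs with h | h
  · have e : (((1 : ℝ) : ℂ) * (Real.pi * I) / 2).im = Real.pi / 2 := by
      rw [show (((1 : ℝ) : ℂ) * (Real.pi * I) / 2) = ((Real.pi / 2 : ℝ) : ℂ) * I by
        push_cast; ring, Complex.im_ofReal_mul, Complex.I_im, mul_one]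
    rw [h, e]
    constructor <;> linarith
  · have e : (((-1 : ℝ) : ℂ) * (Real.pi * I) / 2).im = -(Real.pi / 2) := by
      rw [show (((-1 : ℝ) : ℂ) * (Real.pi * I) / 2) = ((-(Real.pi / 2) : ℝ) : ℂ) * I by
        push_cast; ring, Complex.im_ofReal_mul, Complex.I_im, mul_one]
    rw [h, e]
    constructor <;> linarith

private theorem HinS_lam {σ : ℝ} {m : ℕ} {w : ℂ} (hm : 2 ≤ m) :
    lamT σ m w m = hh (m * w) - hh w + (if Even m then σ * (Real.pi * I) / 2 else 0) ∧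
    lamT σ m w (m - 1) = hh (((m - 1 : ℕ) : ℂ) * w) - hh w +
      (if Even m then 0 else σ * (Real.pi * I) / 2) ∧
    lamT σ m w (m + 1) = hh (m * w) - hh w + (if Even m then σ * (Real.pi * I) / 2 else 0) := by
  unfold lamT
  rw [Nat.min_self, Nat.min_eq_left (Nat.sub_le m 1), Nat.min_eq_right (Nat.le_succ m)]
  refine ⟨rfl, ?_, rfl⟩
  by_cases h : Even m
  · rw [if_pos h, if_neg]
    rw [Nat.not_even_iff_odd]
    exact Nat.Even.sub_odd (by omega) h odd_one
  · rw [if_neg h, if_pos]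
    exact Nat.Odd.sub_odd (Nat.not_even_iff_odd.1 h) odd_one

theorem hin_s (σ : ℝ) (m : ℕ) (w : ℂ) (hc : CritW σ m w) (P Q : ℤ)
    (hP : Complex.log (zT σ w m) + P * (Real.pi * I) = -2 * σ * lamT σ m w m)
    (hQ : -Complex.log (1 - zT σ w m) + Q * (Real.pi * I) =
        (1 + σ) * lamT σ m w m - lamT σ m w (m - 1) - lamT σ m w (m + 1)) :
    Cg (2 * rogers (zT σ w m) P Q)
      (σ * (2 * GG (W0S σ w) + W0S σ w * W1S σ w (((m - 1 : ℕ) : ℂ) * w) -
        (Real.pi : ℂ) ^ 2 / 3) +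
      Real.pi * I * (if Even m then W1S σ w (((m - 1 : ℕ) : ℂ) * w) else -W0S σ w)) := by
  have hW0 := W0S_eq σ m w hc
  have hW1 := HinS_W1 hc
  have hv := HinS_v hc
  have him := HinS_im hc
  have hz := zT_pos σ m w hc m hc.hm le_rfl
  obtain ⟨l1, l2, l3⟩ := HinS_lam (σ := σ) (w := w) hc.hm
  rw [l1] at hP
  rw [l1, l2, l3] at hQ
  obtain ⟨W0, hW0d⟩ : ∃ x, x = W0S σ w := ⟨_, rfl⟩
  obtain ⟨W1, hW1d⟩ : ∃ x, x = W1S σ w (((m - 1 : ℕ) : ℂ) * w) := ⟨_, rfl⟩
  rw [← hW0d] at hW0 hv him ⊢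
  rw [← hW1d] at hW1 hv ⊢
  rcases hc.hs with h | h
  · have hzT : exp W0 = zT σ w m := by
      unfold zT
      rw [← hW0, h]
      push_cast
      ring_nf
    rw [hzT] at hv
    by_cases he : Even m
    · rw [if_pos he] at hP hQ ⊢
      rw [if_pos he] at hQ
      have key := rogers_GG (zT σ w m) W0 W1 (ne_of_gt hz) hzT hv him P Q (-1) 0
        (by rw [hP, ← hW0, h]; push_cast; ring)
        (by rw [hQ, hW1, h]; push_cast; ring)
      refine key.trans (Cg.of_eq ?_)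
      rw [h]
      push_cast
      ring
    · rw [if_neg he] at hP hQ ⊢
      rw [if_neg he] at hQ
      have key := rogers_GG (zT σ w m) W0 W1 (ne_of_gt hz) hzT hv him P Q 0 (-1)
        (by rw [hP, ← hW0, h]; push_cast; ring)
        (by rw [hQ, hW1, h]; push_cast; ring)
      refine key.trans (Cg.of_eq ?_)
      rw [h]
      push_cast
      ring
  · have hzT : zT σ w m = (exp W0)⁻¹ := by
      unfold zT
      rw [← hW0, h, ← Complex.exp_neg]
      push_cast
      ring_nf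
    rw [hzT] at hP hQ hz ⊢
    have hu : (exp W0).im ≠ 0 := by
      intro h0
      rw [Complex.inv_im, h0] at hz
      simp at hz
    by_cases he : Even m
    · rw [if_pos he] at hP hQ ⊢
      rw [if_pos he] at hQ
      have key := rogers_inv_GG (exp W0) W0 W1 hu rfl hv him P Q 1 0
        (by rw [hP, ← hW0, h]; push_cast; ring)
        (by rw [hQ, hW1, ← hW0, h]; push_cast; ring)
      refine key.trans (Cg.of_eq ?_)
      rw [h]
      push_cast
      ring
    · rw [if_neg he] at hP hQ ⊢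
      rw [if_neg he] at hQ
      have key := rogers_inv_GG (exp W0) W0 W1 hu rfl hv him P Q 0 1
        (by rw [hP, ← hW0, h]; push_cast; ring)
        (by rw [hQ, hW1, ← hW0, h]; push_cast; ring)
      refine key.trans (Cg.of_eq ?_)
      rw [h]
      push_cast
      ring

end Pool.Agent.H63.TC
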