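import Pool.Agent.H63.TC.LamS1
import Pool.Agent.H63.TC.Crw

/-! # Positivity of the shapes, the last layer -/

namespace Pool.Agent.H63.TC

open Pool.Agent.H63.VC Pool.Agent.H63.VC3 Pool.Agent.H63.VC4 Pool.Agent.H63.VC5
  Pool.Agent.H63.TW Complex

theorem exp_LT (w : ℂ) (h : |w.re| < 1 / 2) :
    exp (LT w) * (cos (Real.pi * w / 2) + sin (Real.pi * w / 2)) =
      cos (Real.pi * w / 2) - sin (Real.pi * w / 2) := by
  rw [abs_lt] at h
  have r1 : (3 / 4 + w / 2 : ℂ).re = 3 / 4 + w.re / 2 := by simp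
  have r2 : (3 / 4 - w / 2 : ℂ).re = 3 / 4 - w.re / 2 := by simp
  have e1 := hh_exp (3 / 4 + w / 2) (by rw [r1]; linarith) (by rw [r1]; linarith)
  have e2 := hh_exp (3 / 4 - w / 2) (by rw [r2]; linarith) (by rw [r2]; linarith)
  have a1 : (Real.pi : ℂ) * (3 / 4 + w / 2) = (Real.pi - Real.pi / 4 : ℂ) + Real.pi * w / 2 := by
    ring
  have a2 : (Real.pi : ℂ) * (3 / 4 - w / 2) = (Real.pi - Real.pi / 4 : ℂ) - Real.pi * w / 2 := by
    ring
  have s1 : sin ((Real.pi : ℂ) / 4) = (Real.sqrt 2 / 2 : ℂ) := by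
    have := Real.sin_pi_div_four
    have h2 : ((Real.sin (Real.pi / 4) : ℝ) : ℂ) = ((Real.sqrt 2 / 2 : ℝ) : ℂ) := by rw [this]
    rw [Complex.ofReal_sin] at h2
    push_cast at h2
    exact h2
  have c1 : cos ((Real.pi : ℂ) / 4) = (Real.sqrt 2 / 2 : ℂ) := by
    have := Real.cos_pi_div_four
    have h2 : ((Real.cos (Real.pi / 4) : ℝ) : ℂ) = ((Real.sqrt 2 / 2 : ℝ) : ℂ) := by rw [this]
    rw [Complex.ofReal_cos] at h2
    push_cast at h2
    exact h2
  rw [a1, Complex.sin_add, Complex.sin_pi_sub, Complex.cos_pi_sub, s1, c1] at e1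
  rw [a2, Complex.sin_sub, Complex.sin_pi_sub, Complex.cos_pi_sub, s1, c1] at e2
  have hq : (Real.sqrt 2 : ℂ) ≠ 0 := by
    have : Real.sqrt 2 ≠ 0 := by positivity
    exact_mod_cast this
  have hL : exp (LT w) * exp (hh (3 / 4 - w / 2)) = exp (hh (3 / 4 + w / 2)) := by
    rw [← Complex.exp_add]
    congr 1
    unfold TW.LT
    ring
  rw [e1, e2] at hL
  have : (Real.sqrt 2 : ℂ) * (exp (LT w) * (cos (Real.pi * w / 2) + sin (Real.pi * w / 2))) =
      (Real.sqrt 2 : ℂ) * (cos (Real.pi * w / 2) - sin (Real.pi * w / 2)) := by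
    linear_combination hL
  exact mul_left_cancel₀ hq this

private lemma PosT_re (σ : ℝ) (m : ℕ) (w : ℂ) (hc : CritW σ m w) : w.re < 2 / 5 := by
  have h1 := hc.re_lt
  have h2 := hc.re_pos
  have h3 : (2 : ℝ) ≤ m := by exact_mod_cast hc.hm
  nlinarith

private lemma PosT_mre (σ : ℝ) (m : ℕ) (w : ℂ) (hc : CritW σ m w) : m * w.re < 1 := by
  have h1 := hc.re_lt
  have h2 := hc.re_pos
  nlinarith

private lemma PosT_expLT (w : ℂ) (h : |w.re| < 1 / 2) :
    exp (LT w) * (exp (I * (Real.pi * w)) + I) = 1 + I * exp (I * (Real.pi * w)) := by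
  have h1 := exp_LT w h
  set b := exp (I * (Real.pi * w / 2)) with hb
  have hb0 : b ≠ 0 := Complex.exp_ne_zero _
  have ha : exp (I * (Real.pi * w)) = b * b := by
    rw [hb, ← Complex.exp_add]
    congr 1
    ring
  have hbi : exp (-(I * (Real.pi * w / 2))) = b⁻¹ := by
    rw [hb, Complex.exp_neg]
  have hC : cos (Real.pi * w / 2) = (b + b⁻¹) / 2 := by
    rw [Complex.cos, ← hbi, hb]
    congr 2 <;> congr 1 <;> ring
  have hS : sin (Real.pi * w / 2) = (b⁻¹ - b) * I / 2 := by
    rw [Complex.sin, ← hbi, hb]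
    congr 3 <;> congr 1 <;> ring
  rw [hC, hS] at h1
  rw [ha]
  have hI : I * I = -1 := Complex.I_mul_I
  have key : (1 - I) * (exp (LT w) * (b * b + I)) = (1 - I) * (1 + I * (b * b)) := by
    have e3 : b * b⁻¹ = 1 := mul_inv_cancel₀ hb0
    have := congrArg (fun t => 2 * b * t) h1
    have e4 : 2 * b * (exp (LT w) * ((b + b⁻¹) / 2 + (b⁻¹ - b) * I / 2)) =
        exp (LT w) * (b * b + b * b⁻¹ + (b * b⁻¹ - b * b) * I) := by ring
    have e5 : 2 * b * ((b + b⁻¹) / 2 - (b⁻¹ - b) * I / 2) =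
        b * b + b * b⁻¹ - (b * b⁻¹ - b * b) * I := by ring
    rw [e4, e5, e3] at this
    linear_combination this + (b * b - exp (LT w)) * hI
  have h1I : (1 - I : ℂ) ≠ 0 := by
    intro h
    have := congrArg Complex.re h
    simp at this
  exact mul_left_cancel₀ h1I key

/-- The closing condition. -/
theorem close_T (σ : ℝ) (m : ℕ) (w : ℂ) (hc : CritW σ m w) :
    sin ((m + 1) * (Real.pi * w)) = -(σ * I) * sin (m * (Real.pi * w)) := by
  have hre := PosT_re σ m w hc
  have hre0 := hc.re_pos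
  have h1 := PosT_expLT w (by rw [abs_lt]; constructor <;> linarith)
  set a := exp (I * (Real.pi * w)) with ha
  set A := exp (I * (m * (Real.pi * w))) with hA
  have ha0 : a ≠ 0 := Complex.exp_ne_zero _
  have hA0 : A ≠ 0 := Complex.exp_ne_zero _
  have hI : I * I = -1 := Complex.I_mul_I
  have hE : exp (σ * LT w) = A * A * a := by
    rw [hc.eq, hA, ha, ← Complex.exp_add, ← Complex.exp_add]
    have : (Real.pi : ℂ) * I * (2 * m + 1) * w - 2 * Real.pi * I =
        (I * (m * (Real.pi * w)) + I * (m * (Real.pi * w)) + I * (Real.pi * w)) -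
          2 * Real.pi * I := by ring
    rw [this, Complex.exp_sub, Complex.exp_two_pi_mul_I, div_one]
  have hs1 : sin (m * (Real.pi * w)) = (A⁻¹ - A) * I / 2 := by
    rw [Complex.sin, hA, ← Complex.exp_neg]
    congr 3 <;> congr 1 <;> ring
  have hs2 : sin ((m + 1) * (Real.pi * w)) = ((A * a)⁻¹ - A * a) * I / 2 := by
    rw [Complex.sin, hA, ha, ← Complex.exp_add, ← Complex.exp_neg]
    congr 3 <;> congr 1 <;> ring
  rw [hs1, hs2]
  rcases hc.hs with rfl | rfl
  · have hE' : exp (LT w) = A * A * a := by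
      rw [← hE]
      congr 1
      push_cast
      ring
    rw [hE'] at h1
    push_cast
    field_simp
    linear_combination (-1 : ℂ) * h1
  · have hE' : exp (LT w) * (A * A * a) = 1 := by
      rw [← hE, ← Complex.exp_add]
      have : LT w + ((-1 : ℝ) : ℂ) * LT w = 0 := by
        push_cast
        ring
      rw [this, Complex.exp_zero]
    have h2 : a + I = A * A * a * (1 + I * a) := by
      have := congrArg (fun t => A * A * a * t) h1
      rw [← this]
      linear_combination (-(a + I)) * hE'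
    push_cast
    field_simp
    linear_combination (-I) * h2 + (1 - A ^ 2 * a ^ 2) * hI

private lemma PosT_cot (z : ℂ) (h0 : 0 < z.re) (h1 : z.re < Real.pi) (h2 : 0 < z.im) :
    (z * cot z).im < 0 := by
  have hs : sin z ≠ 0 := by
    intro h
    rw [Complex.sin_eq_zero_iff] at h
    obtain ⟨k, hk⟩ := h
    have := congrArg Complex.im hk
    simp at this
    linarith
  have hn : 0 < Complex.normSq (sin z) := Complex.normSq_pos.2 hs
  have e1 : cot z = (cos z * (starRingEnd ℂ) (sin z)) / (Complex.normSq (sin z) : ℝ) := by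
    rw [Complex.cot_eq_cos_div_sin, div_eq_div_iff hs (by exact_mod_cast hn.ne')]
    rw [← Complex.mul_conj]
    ring
  have e2 : cos z * (starRingEnd ℂ) (sin z) =
      ((Real.sin (2 * z.re) / 2 : ℝ) : ℂ) - ((Real.sinh (2 * z.im) / 2 : ℝ) : ℂ) * I := by
    rw [← Complex.sin_conj]
    have h3 : sin ((starRingEnd ℂ) z + z) = ((Real.sin (2 * z.re) : ℝ) : ℂ) := by
      rw [add_comm, Complex.add_conj]
      push_cast
      rfl
    have h4 : sin ((starRingEnd ℂ) z - z) = -((Real.sinh (2 * z.im) : ℝ) : ℂ) * I := by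
      have : (starRingEnd ℂ) z - z = -((2 * z.im : ℝ) : ℂ) * I := by
        rw [← neg_sub, Complex.sub_conj]
        push_cast
        ring
      rw [this, neg_mul, Complex.sin_neg, Complex.sin_mul_I]
      push_cast
      ring
    rw [Complex.sin_add] at h3
    rw [Complex.sin_sub] at h4
    push_cast
    push_cast at h3 h4
    linear_combination (1 / 2 : ℂ) * h3 + (1 / 2 : ℂ) * h4
  have e3 : z * cot z = (z * (((Real.sin (2 * z.re) / 2 : ℝ) : ℂ) -
      ((Real.sinh (2 * z.im) / 2 : ℝ) : ℂ) * I)) / (Complex.normSq (sin z) : ℝ) := by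
    rw [e1, e2]
    ring
  rw [e3, Complex.div_ofReal_im]
  apply div_neg_of_neg_of_pos _ hn
  have e4 : (z * (((Real.sin (2 * z.re) / 2 : ℝ) : ℂ) -
      ((Real.sinh (2 * z.im) / 2 : ℝ) : ℂ) * I)).im =
      (z.im * Real.sin (2 * z.re) - z.re * Real.sinh (2 * z.im)) / 2 := by
    simp only [Complex.mul_im, Complex.sub_re, Complex.sub_im, Complex.ofReal_re,
      Complex.ofReal_im, Complex.mul_re, Complex.I_re, Complex.I_im]
    ring
  rw [e4]
  have h5 : Real.sin (2 * z.re) < 2 * z.re := Real.sin_lt (by linarith)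
  have h6 : 2 * z.im < Real.sinh (2 * z.im) := Real.self_lt_sinh_iff.2 (by linarith)
  nlinarith [mul_lt_mul_of_pos_left h5 h2, mul_lt_mul_of_pos_left h6 h0]

/-- The argument of `sin (π t w)` is monotone. -/
theorem hh_anti (w : ℂ) (h0 : 0 < w.re) (h1 : 0 < w.im) (a b : ℝ) (ha : 0 < a) (hab : a < b)
    (hb : b * w.re < 1) : (hh (b * w)).im < (hh (a * w)).im := by
  have hd : ∀ t : ℝ, 0 < t → t * w.re < 1 → HasDerivAt (fun t : ℝ => (hh (t * w)).im)
      ((Real.pi * cot (Real.pi * (t * w)) * w).im) t := by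
    intro t ht ht1
    have r : ((t : ℂ) * w).re = t * w.re := by simp
    have h2 := hh_hasDerivAt ((t : ℂ) * w) (by rw [r]; positivity) (by rw [r]; exact ht1)
    have h3 : HasDerivAt (fun t : ℝ => (t : ℂ) * w) w t := by
      simpa using (Complex.ofRealCLM.hasDerivAt (x := t)).mul_const w
    have h4 := h2.comp t h3
    have h5 := (Complex.imCLM.hasFDerivAt (x := hh ((t : ℂ) * w))).comp_hasDerivAt t h4
    simpa [Function.comp_def] using h5
  have hanti : StrictAntiOn (fun t : ℝ => (hh (t * w)).im) (Set.Icc a b) := by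
    apply strictAntiOn_of_deriv_neg (convex_Icc a b)
    · intro t ht
      have ht1 : t * w.re < 1 := by nlinarith [ht.2]
      exact (hd t (by linarith [ht.1]) ht1).continuousAt.continuousWithinAt
    · intro t ht
      rw [interior_Icc] at ht
      have ht0 : 0 < t := by linarith [ht.1]
      have ht1 : t * w.re < 1 := by nlinarith [ht.2]
      rw [(hd t ht0 ht1).deriv]
      have r : ((Real.pi : ℂ) * (t * w)).re = Real.pi * (t * w.re) := by simp
      have r2 : ((Real.pi : ℂ) * (t * w)).im = Real.pi * (t * w.im) := by simp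
      have h6 := PosT_cot ((Real.pi : ℂ) * (t * w)) (by rw [r]; positivity)
        (by rw [r]; nlinarith [Real.pi_pos]) (by rw [r2]; positivity)
      have e : (Real.pi * cot (Real.pi * (t * w)) * w) =
          ((Real.pi : ℂ) * (t * w) * cot (Real.pi * (t * w))) / (t : ℝ) := by
        have : (t : ℂ) ≠ 0 := by exact_mod_cast ht0.ne'
        field_simp
      rw [e, Complex.div_ofReal_im]
      exact div_neg_of_neg_of_pos h6 ht0
  exact hanti ⟨le_rfl, hab.le⟩ ⟨hab.le, le_rfl⟩ hab

private lemma PosT_half (w : ℂ) (h0 : 0 < w.re) (h1 : w.re < 1 / 2) (h2 : 0 < w.im) :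
    (hh (w + 1 / 2)).im < 0 := by
  unfold hh
  have e1 : (Real.pi : ℂ) * (w + 1 / 2) = Real.pi * w + Real.pi / 2 := by ring
  rw [e1, Complex.sin_add_pi_div_two]
  have hs : Real.sin (Real.pi * w.re) > 0 := Real.sin_pos_of_pos_of_lt_pi (by positivity)
    (by nlinarith [Real.pi_pos])
  have hsh : Real.sinh (Real.pi * w.im) > 0 := Real.sinh_pos_iff.2 (by positivity)
  have e2 : (2 * cos ((Real.pi : ℂ) * w)).im =
      -(2 * (Real.sin (Real.pi * w.re) * Real.sinh (Real.pi * w.im))) := by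
    have e : (Real.pi * w : ℂ) = ((Real.pi * w.re : ℝ) : ℂ) + ((Real.pi * w.im : ℝ) : ℂ) * I := by
      apply Complex.ext <;> simp
    rw [e, Complex.cos_add_mul_I, ← Complex.ofReal_sin, ← Complex.ofReal_cosh,
      ← Complex.ofReal_cos, ← Complex.ofReal_sinh]
    have h2 : ∀ a b c d : ℝ, (2 * ((a : ℂ) * b - (c : ℂ) * d * I)).im = -(2 * (c * d)) := by
      intro a b c d
      simp
    rw [h2]
  rw [Complex.log_im, Complex.arg_neg_iff, e2]
  have := mul_pos hs hsh
  linarith

private lemma PosT_sq (θ : ℂ) (m : ℕ) :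
    sin ((m + 1) * θ) ^ 2 - 2 * cos θ * (sin ((m + 1) * θ) * sin (m * θ)) + sin (m * θ) ^ 2 =
      sin θ ^ 2 := by
  have e : ((m : ℂ) + 1) * θ = m * θ + θ := by ring
  rw [e, Complex.sin_add]
  have h1 := Complex.sin_sq_add_cos_sq θ
  have h2 := Complex.sin_sq_add_cos_sq (m * θ)
  linear_combination (-(sin (m * θ)) ^ 2) * h1 + (sin θ ^ 2) * h2

private lemma PosT_exp (σ : ℝ) (m : ℕ) (w : ℂ) (hc : CritW σ m w) :
    exp (2 * (hh w - hh (m * w))) = exp (W0S σ w) := by
  have hre := PosT_re σ m w hc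
  have hre0 := hc.re_pos
  have hmre := PosT_mre σ m w hc
  have hm : (2 : ℝ) ≤ m := by exact_mod_cast hc.hm
  have r : ((m : ℂ) * w).re = m * w.re := by simp
  have r2 : (w + 1 / 2 : ℂ).re = w.re + 1 / 2 := by simp
  have e1 := hh_exp w hre0 (by linarith)
  have e2 := hh_exp (m * w) (by rw [r]; positivity) (by rw [r]; exact hmre)
  have e3 := hh_exp (w + 1 / 2) (by rw [r2]; linarith) (by rw [r2]; linarith)
  have a3 : (Real.pi : ℂ) * (w + 1 / 2) = Real.pi * w + Real.pi / 2 := by ring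
  rw [a3, Complex.sin_add_pi_div_two] at e3
  have h0 : sin (Real.pi * (m * w)) ≠ 0 := by
    intro h
    rw [h, mul_zero] at e2
    exact Complex.exp_ne_zero _ e2
  have a4 : (m : ℂ) * (Real.pi * w) = Real.pi * (m * w) := by ring
  have hcl := close_T σ m w hc
  have hsq := PosT_sq (Real.pi * w) m
  rw [hcl, a4] at hsq
  have hσ : (σ : ℂ) * σ = 1 := by
    rcases hc.hs with rfl | rfl <;> norm_num
  have hI : I * I = -1 := Complex.I_mul_I
  have hσe : exp (σ * (Real.pi * I) / 2) = σ * I := by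
    rcases hc.hs with rfl | rfl
    · have : ((1 : ℝ) : ℂ) * (Real.pi * I) / 2 = Real.pi / 2 * I := by push_cast; ring
      rw [this, Complex.exp_pi_div_two_mul_I]
      push_cast
      ring
    · have : ((-1 : ℝ) : ℂ) * (Real.pi * I) / 2 = -(Real.pi / 2 * I) := by push_cast; ring
      rw [this, Complex.exp_neg, Complex.exp_pi_div_two_mul_I]
      push_cast
      rw [Complex.inv_I]
      ring
  have e4 : exp (2 * (hh w - hh (m * w))) = sin (Real.pi * w) ^ 2 / sin (Real.pi * (m * w)) ^ 2 := by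
    have : 2 * (hh w - hh (m * w)) = hh w + hh w - (hh (m * w) + hh (m * w)) := by ring
    rw [this, Complex.exp_sub, Complex.exp_add, Complex.exp_add, e1, e2]
    field_simp
  rw [e4, W0S, Complex.exp_add, e3, hσe, div_eq_iff (pow_ne_zero 2 h0)]
  linear_combination (-1 : ℂ) * hsq + (sin (Real.pi * (m * w)) ^ 2) * hσ * (I * I) +
    (sin (Real.pi * (m * w)) ^ 2) * hI

private lemma PosT_im (w : ℂ) (h0 : 0 < w.re) (h1 : 0 < w.im) (k : ℕ) (hk : 2 ≤ k)
    (hkw : k * w.re < 1) : 0 < (2 * (hh w - hh (k * w))).im := by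
  have h2 := hh_anti w h0 h1 1 k one_pos (by exact_mod_cast hk) hkw
  have e : ((1 : ℝ) : ℂ) * w = w := by push_cast; ring
  rw [e] at h2
  have e2 : ((k : ℝ) : ℂ) = (k : ℂ) := by push_cast; rfl
  rw [e2] at h2
  have e3 : (2 * (hh w - hh (k * w))).im = 2 * ((hh w).im - (hh (k * w)).im) := by simp
  rw [e3]
  linarith

private lemma PosT_W0_one (m : ℕ) (w : ℂ) (hc : CritW 1 m w) :
    2 * (hh w - hh (m * w)) = W0S 1 w ∧ (W0S 1 w).im < Real.pi / 2 := by
  have hre := PosT_re 1 m w hc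
  have hre0 := hc.re_pos
  have hmre := PosT_mre 1 m w hc
  have him : 0 < w.im := by simpa using hc.im_pos
  have hm : (2 : ℝ) ≤ m := by exact_mod_cast hc.hm
  have r : ((m : ℂ) * w).re = m * w.re := by simp
  have r2 : (w + 1 / 2 : ℂ).re = w.re + 1 / 2 := by simp
  have hx := PosT_exp 1 m w hc
  have hL := PosT_im w hre0 him m hc.hm hmre
  have b1 := abs_lt.1 (hh_im_lt w hre0 (by linarith))
  have b2 := abs_lt.1 (hh_im_lt (m * w) (by rw [r]; positivity) (by rw [r]; exact hmre))
  have b3 := abs_lt.1 (hh_im_lt (w + 1 / 2) (by rw [r2]; linarith) (by rw [r2]; linarith))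
  have b4 := PosT_half w hre0 (by linarith) him
  have e3 : (2 * (hh w - hh (m * w))).im = 2 * ((hh w).im - (hh (m * w)).im) := by simp
  have e4 : (W0S 1 w).im = (hh (w + 1 / 2)).im + Real.pi / 2 := by
    unfold W0S
    simp
  refine ⟨?_, by rw [e4]; linarith⟩
  rw [Complex.exp_eq_exp_iff_exists_int] at hx
  obtain ⟨n, hn⟩ := hx
  have hn' := congrArg Complex.im hn
  have e5 : (W0S 1 w + n * (2 * Real.pi * I)).im = (W0S 1 w).im + n * (2 * Real.pi) := by simp
  rw [e5, e3, e4] at hn'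
  rw [e3] at hL
  have hpi := Real.pi_pos
  have hn0 : n = 0 := by
    have h1 : (n : ℝ) < 1 := by
      by_contra h
      push Not at h
      nlinarith
    have h2 : (-1 : ℝ) < n := by
      by_contra h
      push Not at h
      nlinarith
    have h1' : n < 1 := by exact_mod_cast h1
    have h2' : -1 < n := by exact_mod_cast h2
    omega
  rw [hn, hn0]
  simp

/-- The logarithm of the last shape. -/
theorem W0S_eq (σ : ℝ) (m : ℕ) (w : ℂ) (hc : CritW σ m w) :
    2 * (hh w - hh (m * w)) = W0S σ w := by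
  rcases hc.hs with rfl | rfl
  · exact (PosT_W0_one m w hc).1
  · have hc' := critW_conj m w hc
    have h := (PosT_W0_one m _ hc').1
    have hre := PosT_re (-1) m w hc
    have hre0 := hc.re_pos
    have hmre := PosT_mre (-1) m w hc
    have hm : (2 : ℝ) ≤ m := by exact_mod_cast hc.hm
    have r : ((m : ℂ) * w).re = m * w.re := by simp
    have r2 : (w + 1 / 2 : ℂ).re = w.re + 1 / 2 := by simp
    have a1 : (m : ℂ) * (starRingEnd ℂ) w = (starRingEnd ℂ) (m * w) := by simp
    have a2 : (starRingEnd ℂ) w + 1 / 2 = (starRingEnd ℂ) (w + 1 / 2) := by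
      rw [map_add, map_div₀, map_one, map_ofNat]
    rw [W0S, a1, a2, hh_conj w hre0 (by linarith), hh_conj (m * w) (by rw [r]; positivity)
      (by rw [r]; exact hmre), hh_conj (w + 1 / 2) (by rw [r2]; linarith)
      (by rw [r2]; linarith)] at h
    have h' := congrArg (starRingEnd ℂ) h
    simp only [map_mul, map_sub, map_add, map_div₀, Complex.conj_conj, Complex.conj_ofReal,
      Complex.conj_I, map_ofNat] at h'
    rw [W0S, h']
    push_cast
    ring

private lemma PosT_win (m : ℕ) (w : ℂ) (hc : CritW 1 m w) (k : ℕ) (hk : 2 ≤ k) (hkm : k ≤ m) :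
    0 < (2 * (hh w - hh (k * w))).im ∧ (2 * (hh w - hh (k * w))).im < Real.pi / 2 := by
  have hre := PosT_re 1 m w hc
  have hre0 := hc.re_pos
  have hmre := PosT_mre 1 m w hc
  have him : 0 < w.im := by simpa using hc.im_pos
  have hkm' : (k : ℝ) ≤ m := by exact_mod_cast hkm
  have hk' : (2 : ℝ) ≤ k := by exact_mod_cast hk
  refine ⟨PosT_im w hre0 him k hk (by nlinarith), ?_⟩
  obtain ⟨h1, h2⟩ := PosT_W0_one m w hc
  rw [← h1] at h2
  have e3 : ∀ j : ℕ, (2 * (hh w - hh (j * w))).im = 2 * ((hh w).im - (hh (j * w)).im) := by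
    intro j
    simp
  rw [e3] at h2 ⊢
  rcases hkm.lt_or_eq with h | h
  · have h3 := hh_anti w hre0 him k m (by linarith) (by exact_mod_cast h) hmre
    have e2 : ((k : ℝ) : ℂ) = (k : ℂ) := by push_cast; rfl
    have e4 : ((m : ℝ) : ℂ) = (m : ℂ) := by push_cast; rfl
    rw [e2, e4] at h3
    linarith
  · rw [h]
    exact h2

theorem zT_pos (σ : ℝ) (m : ℕ) (w : ℂ) (hc : CritW σ m w) (k : ℕ) (hk : 2 ≤ k) (hkm : k ≤ m) :
    0 < (zT σ w k).im := by
  have hpi := Real.pi_pos
  rcases hc.hs with rfl | rfl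
  · obtain ⟨h1, h2⟩ := PosT_win m w hc k hk hkm
    have e : zT 1 w k = exp (2 * (hh w - hh (k * w))) := by
      unfold zT
      congr 1
      push_cast
      ring
    rw [e, Complex.exp_im]
    exact mul_pos (Real.exp_pos _) (Real.sin_pos_of_pos_of_lt_pi h1 (by linarith))
  · have hc' := critW_conj m w hc
    obtain ⟨h1, h2⟩ := PosT_win m _ hc' k hk hkm
    have hre := PosT_re (-1) m w hc
    have hre0 := hc.re_pos
    have hmre := PosT_mre (-1) m w hc
    have hkm' : (k : ℝ) ≤ m := by exact_mod_cast hkm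
    have hk' : (2 : ℝ) ≤ k := by exact_mod_cast hk
    have r : ((k : ℂ) * w).re = k * w.re := by simp
    have a1 : (k : ℂ) * (starRingEnd ℂ) w = (starRingEnd ℂ) (k * w) := by simp
    rw [a1, hh_conj w hre0 (by linarith), hh_conj (k * w) (by rw [r]; positivity)
      (by rw [r]; nlinarith)] at h1 h2
    have e5 : (2 * ((starRingEnd ℂ) (hh w) - (starRingEnd ℂ) (hh (k * w)))).im =
        -(2 * ((hh w).im - (hh (k * w)).im)) := by
      simp
      ring
    rw [e5] at h1 h2
    have e : zT (-1) w k = exp (-(2 * (hh w - hh (k * w)))) := by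
      unfold zT
      congr 1
      push_cast
      ring
    have e6 : (-(2 * (hh w - hh (k * w)))).im = -(2 * ((hh w).im - (hh (k * w)).im)) := by simp
    rw [e, Complex.exp_im, e6]
    exact mul_pos (Real.exp_pos _) (Real.sin_pos_of_pos_of_lt_pi h1 (by linarith))

end Pool.Agent.H63.TC
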