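import Pool.Agent.H63.TC.LamS2
import Pool.Agent.H63.TC.PosT
import Pool.Agent.H63.VC5.RogGG

/-! # The layers of the fan -/

namespace Pool.Agent.H63.TC

open Pool.Agent.H63.VC Pool.Agent.H63.VC3 Pool.Agent.H63.VC4 Pool.Agent.H63.VC5
  Pool.Agent.H63.TW Complex

theorem LayS_sin (w b : ℂ) (h : Ds w b) (h' : Ds w (w + b)) :
    exp (-(2 * hh (w + b) - hh b - hh (2 * w + b))) = 1 - exp (2 * (hh w - hh (w + b))) := by
  have r1 := h.w1
  have r2 := h.b1
  have r3 := h.s1
  have r4 := h'.s1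
  simp only [Complex.add_re] at r3 r4
  have e1 : exp (hh w) = 2 * sin (Real.pi * w) := hh_exp_s w r1 (by linarith)
  have e2 : exp (hh b) = 2 * sin (Real.pi * b) := hh_exp_s b r2 (by linarith)
  have e3 : exp (hh (w + b)) = 2 * sin (Real.pi * (w + b)) :=
    hh_exp_s (w + b) (by simp only [Complex.add_re]; linarith)
      (by simp only [Complex.add_re]; linarith)
  have e4 : exp (hh (2 * w + b)) = 2 * sin (Real.pi * (2 * w + b)) := by
    have e : (2 * w + b).re = 2 * w.re + b.re := by simp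
    exact hh_exp_s (2 * w + b) (by rw [e]; linarith) (by rw [e]; linarith)
  have hA : exp (hh (w + b)) ≠ 0 := exp_ne_zero _
  have l1 : exp (-(2 * hh (w + b) - hh b - hh (2 * w + b))) =
      exp (hh b) * exp (hh (2 * w + b)) / exp (hh (w + b)) ^ 2 := by
    rw [eq_div_iff (pow_ne_zero 2 hA), ← exp_nat_mul, ← exp_add, ← exp_add]
    congr 1
    push_cast
    ring
  have l2 : exp (2 * (hh w - hh (w + b))) = exp (hh w) ^ 2 / exp (hh (w + b)) ^ 2 := by
    rw [eq_div_iff (pow_ne_zero 2 hA), ← exp_nat_mul, ← exp_nat_mul, ← exp_add]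
    congr 1
    push_cast
    ring
  have key : exp (hh b) * exp (hh (2 * w + b)) = exp (hh (w + b)) ^ 2 - exp (hh w) ^ 2 := by
    rw [e1, e2, e3, e4]
    have f1 : (Real.pi : ℂ) * b = Real.pi * (w + b) - Real.pi * w := by ring
    have f2 : (Real.pi : ℂ) * (2 * w + b) = Real.pi * (w + b) + Real.pi * w := by ring
    rw [f1, f2, Complex.sin_sub, Complex.sin_add]
    have g1 := Complex.sin_sq_add_cos_sq (Real.pi * (w + b))
    have g2 := Complex.sin_sq_add_cos_sq (Real.pi * w)
    linear_combination (-4 * sin (Real.pi * w) ^ 2) * g1 + (4 * sin (Real.pi * (w + b)) ^ 2) * g2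
  rw [l1, l2, key, sub_div, div_self (pow_ne_zero 2 hA)]

theorem LayS_im (w b : ℂ) (h : Ds w b) :
    |(2 * (hh w - hh (w + b))).im| < 2 * Real.pi := by
  have r1 := h.w1
  have r2 := h.b1
  have r3 := h.s1
  have e1 : |(hh w).im| < Real.pi / 2 :=
    hh_im_lt w r1 (by simp only [Complex.add_re] at r3; linarith)
  have e2 : |(hh (w + b)).im| < Real.pi / 2 :=
    hh_im_lt (w + b) (by simp only [Complex.add_re]; linarith) r3
  have e3 : (2 * (hh w - hh (w + b))).im = 2 * ((hh w).im - (hh (w + b)).im) := by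
    simp [Complex.mul_im]
  have hpi := Real.pi_pos
  rw [e3, abs_mul, abs_of_pos (show (0 : ℝ) < 2 by norm_num)]
  have := abs_sub (hh w).im (hh (w + b)).im
  nlinarith

theorem lay_s (σ : ℝ) (m : ℕ) (w : ℂ) (hc : CritW σ m w) (k : ℕ) (hk : 2 ≤ k) (hkm : k + 1 ≤ m)
    (P Q : ℤ)
    (hP : Complex.log (zT σ w k) + P * (Real.pi * I) = -2 * σ * lamT σ m w k)
    (hQ : -Complex.log (1 - zT σ w k) + Q * (Real.pi * I) =
        (1 + σ) * lamT σ m w k - lamT σ m w (k - 1) - lamT σ m w (k + 1)) :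
    Cg (2 * rogers (zT σ w k) P Q)
      (σ * (2 * (Lam w (((k - 1 : ℕ) : ℂ) * w) - Lam w (k * w)) - (Real.pi : ℂ) ^ 2 / 3) +
      Real.pi * I * (if Even k then 2 * hh w - hh (((k - 1 : ℕ) : ℂ) * w) -
        hh (((k + 1 : ℕ) : ℂ) * w) else 2 * hh (k * w) - 2 * hh w)) := by
  have hpos := zT_pos σ m w hc k hk (by omega)
  have hre := hc.re_pos
  have hlt := hc.re_lt
  have hcast : ((k - 1 : ℕ) : ℂ) = (k : ℂ) - 1 := by
    rw [Nat.cast_sub (by omega), Nat.cast_one]
  have hkR : (2 : ℝ) ≤ k := by exact_mod_cast hk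
  have hkm' : (k : ℝ) + 1 ≤ m := by exact_mod_cast hkm
  have hk1w : ((k : ℝ) + 1) * w.re < 1 := by nlinarith
  set b : ℂ := ((k - 1 : ℕ) : ℂ) * w with hb
  have hb1 : (k : ℂ) * w = w + b := by
    rw [hb, hcast]
    ring
  have hb2 : ((k + 1 : ℕ) : ℂ) * w = 2 * w + b := by
    rw [hb, hcast]
    push_cast
    ring
  have hbre : b.re = ((k : ℝ) - 1) * w.re := by
    rw [hb, hcast]
    simp [Complex.mul_re]
  have hD1 : Ds w b := by
    refine ⟨hre, ?_, ?_⟩
    · rw [hbre]
      nlinarith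
    · rw [Complex.add_re, hbre]
      nlinarith
  have hD2 : Ds w (w + b) := by
    refine ⟨hre, ?_, ?_⟩
    · rw [Complex.add_re, hbre]
      nlinarith
    · rw [Complex.add_re, Complex.add_re, hbre]
      nlinarith
  have hm0 : min k m = k := by omega
  have hm1 : min (k - 1) m = k - 1 := by omega
  have hm2 : min (k + 1) m = k + 1 := by omega
  rw [hb1, hb2]
  set W0 : ℂ := 2 * (hh w - hh (w + b)) with hW0
  set W1 : ℂ := 2 * hh (w + b) - hh b - hh (2 * w + b) with hW1
  have hexp : exp (-W1) = 1 - exp W0 := LayS_sin w b hD1 hD2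
  have him : |W0.im| < 2 * Real.pi := LayS_im w b hD1
  have hR : GG W0 + W0 * W1 / 2 = Lam w b - Lam w (w + b) := by
    rw [← LamS_step w b hD1 hD2, Rr, hW0, hW1]
    ring
  have lam0 : lamT σ m w (k - 1) = hh b - hh w +
      if Even k then 0 else σ * (Real.pi * I) / 2 := by
    rw [lamT, hm1, ← hb]
    congr 1
    have : Even (k - 1) ↔ ¬ Even k := by
      obtain ⟨j, rfl⟩ : ∃ j, k = j + 1 := ⟨k - 1, by omega⟩
      rw [Nat.add_sub_cancel, Nat.even_add_one, not_not]
    by_cases he : Even k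
    · rw [if_neg (by rw [this]; exact not_not.2 he), if_pos he]
    · rw [if_pos (this.2 he), if_neg he]
  have lam1 : lamT σ m w k = hh (w + b) - hh w +
      if Even k then σ * (Real.pi * I) / 2 else 0 := by
    rw [lamT, hm0, hb1]
  have lam2 : lamT σ m w (k + 1) = hh (2 * w + b) - hh w +
      if Even k then 0 else σ * (Real.pi * I) / 2 := by
    rw [lamT, hm2, hb2]
    congr 1
    by_cases he : Even k
    · rw [if_neg (by rw [Nat.even_add_one]; exact not_not.2 he), if_pos he]
    · rw [if_pos (by rw [Nat.even_add_one]; exact he), if_neg he]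
  rcases hc.hs with hs | hs
  · have hz : zT σ w k = exp W0 := by
      rw [zT, hs, hb1, hW0]
      push_cast
      ring_nf
    rw [lam1, hs] at hP
    rw [lam0, lam1, lam2, hs] at hQ
    rw [hz] at hpos ⊢
    rw [← hs, hz] at hP hQ
    rw [hs] at hP hQ ⊢
    by_cases he : Even k
    · rw [if_pos he] at hP hQ ⊢
      rw [if_pos he] at hQ
      have key := rogers_GG (exp W0) W0 W1 hpos.ne' rfl hexp him P Q (-1) 1
        (by rw [hP, hW0]; push_cast; ring) (by rw [hQ, hW1]; push_cast; ring)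
      rw [hR] at key
      refine key.trans (Cg.of_eq ?_)
      rw [hW0, hW1]
      push_cast
      ring
    · rw [if_neg he] at hP hQ ⊢
      rw [if_neg he] at hQ
      have key := rogers_GG (exp W0) W0 W1 hpos.ne' rfl hexp him P Q 0 (-1)
        (by rw [hP, hW0]; push_cast; ring) (by rw [hQ, hW1]; push_cast; ring)
      rw [hR] at key
      refine key.trans (Cg.of_eq ?_)
      rw [hW0]
      push_cast
      ring
  · have hz : zT σ w k = (exp W0)⁻¹ := by
      rw [zT, hs, hb1, ← exp_neg, hW0]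
      congr 1
      push_cast
      ring
    rw [hz] at hP hQ hpos ⊢
    rw [lam1, hs] at hP
    rw [lam0, lam2, hs] at hQ
    rw [hs]
    have hu : (exp W0).im ≠ 0 := by
      intro h0
      rw [Complex.inv_im, h0] at hpos
      simp at hpos
    by_cases he : Even k
    · rw [if_pos he] at hP hQ ⊢
      have key := rogers_inv_GG (exp W0) W0 W1 hu rfl hexp him P Q 1 (-1)
        (by rw [hP, hW0]; push_cast; ring) (by rw [hQ, hW0, hW1]; push_cast; ring)
      rw [hR] at key
      refine key.trans (Cg.of_eq ?_)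
      rw [hW0, hW1]
      push_cast
      ring
    · rw [if_neg he] at hP hQ ⊢
      have key := rogers_inv_GG (exp W0) W0 W1 hu rfl hexp him P Q 0 1
        (by rw [hP, hW0]; push_cast; ring) (by rw [hQ, hW0, hW1]; push_cast; ring)
      rw [hR] at key
      refine key.trans (Cg.of_eq ?_)
      rw [hW0]
      push_cast
      ring

end Pool.Agent.H63.TC
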