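import Pool.Agent.H63.GV.FanSum
import Pool.Agent.H63.TC.HinS
import Pool.Agent.H63.TC.LayS

/-! # The sum over the layers -/

namespace Pool.Agent.H63.TC

open Pool.Agent.H63.VC Pool.Agent.H63.VC3 Pool.Agent.H63.VC4 Pool.Agent.H63.VC5
  Pool.Agent.H63.TW Complex
open scoped BigOperators

theorem bS_eq (σ : ℝ) (m : ℕ) (w : ℂ) (hc : CritW σ m w) :
    ((m - 1 : ℕ) : ℂ) * w = bS σ w := by
  have hm := hc.hm
  have h := hc.eq
  have hpi : (2 * (Real.pi : ℂ) * I) ≠ 0 := by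
    have : (Real.pi : ℂ) ≠ 0 := by exact_mod_cast Real.pi_ne_zero
    exact mul_ne_zero (mul_ne_zero two_ne_zero this) I_ne_zero
  have h1 : (σ : ℂ) * LT w / (2 * Real.pi * I) = (2 * m + 1) / 2 * w - 1 := by
    rw [h, div_eq_iff hpi]
    ring
  unfold bS
  rw [h1, Nat.cast_sub (by omega)]
  push_cast
  ring

theorem SumS_term (σ w : ℂ) (k : ℕ) (hk : 1 ≤ k) :
    σ * (2 * (Lam w (((k - 1 : ℕ) : ℂ) * w) - Lam w (k * w)) - (Real.pi : ℂ) ^ 2 / 3) +
      Real.pi * I * (if Even k then 2 * hh w - hh (((k - 1 : ℕ) : ℂ) * w) -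
        hh (((k + 1 : ℕ) : ℂ) * w) else 2 * hh (k * w) - 2 * hh w) =
    ((-(σ * (2 * Lam w ((k : ℂ) * w))) +
      Real.pi * I * GV.FanSum_U (hh w) (fun n => hh ((n : ℂ) * w)) k) -
      (-(σ * (2 * Lam w (((k - 1 : ℕ) : ℂ) * w))) +
      Real.pi * I * GV.FanSum_U (hh w) (fun n => hh ((n : ℂ) * w)) (k - 1))) -
      σ * (Real.pi : ℂ) ^ 2 / 3 := by
  have h := GV.FanSum_U_sub (hh w) (fun n => hh ((n : ℂ) * w)) k hk
  rw [h]
  ring

theorem SumS_W1 (σ : ℝ) (m : ℕ) (w : ℂ) (hc : CritW σ m w) :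
    W1S σ w (((m - 1 : ℕ) : ℂ) * w) =
      hh ((m : ℂ) * w) - hh (((m - 1 : ℕ) : ℂ) * w) + σ * (Real.pi * I) / 2 := by
  have h := W0S_eq σ m w hc
  unfold W0S at h
  unfold W1S
  linear_combination (1 / 2) * h

theorem SumS_const (σ : ℝ) (m : ℕ) (hm : 2 ≤ m) :
    ∑ k ∈ Finset.Icc 2 m, (-(σ * (Real.pi : ℂ) ^ 2 / 3) +
      (Real.pi : ℂ) ^ 2 * ((if k = 2 then 1 / 2 else σ / 3 : ℝ) : ℂ)) =
      (Real.pi : ℂ) ^ 2 / 2 - σ * (Real.pi : ℂ) ^ 2 / 3 := by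
  induction m, hm using Nat.le_induction with
  | base =>
    rw [Finset.Icc_self, Finset.sum_singleton, if_pos rfl]
    push_cast
    ring
  | succ n hn ih =>
    rw [Finset.sum_Icc_succ_top (by omega), ih, if_neg (by omega)]
    push_cast
    ring

theorem sum_s (σ : ℝ) (m : ℕ) (w : ℂ) (hc : CritW σ m w) (P Q : ℕ → ℤ)
    (hP : ∀ k, 2 ≤ k → k ≤ m →
      Complex.log (zT σ w k) + P k * (Real.pi * I) = -2 * σ * lamT σ m w k)
    (hQ : ∀ k, 2 ≤ k → k ≤ m → -Complex.log (1 - zT σ w k) + Q k * (Real.pi * I) =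
        (1 + σ) * lamT σ m w k - lamT σ m w (k - 1) - lamT σ m w (k + 1)) :
    Cg (∑ k ∈ Finset.Icc 2 m, (2 * rogers (zT σ w k) (P k) (Q k) +
        (Real.pi : ℂ) ^ 2 * (if k = 2 then 1 / 2 else σ / 3)))
      (LS σ w + (Real.pi : ℂ) ^ 2 / 2 - if Even m then σ * (Real.pi : ℂ) ^ 2 / 2 else 0) := by
  have hm := hc.hm
  set F : ℕ → ℂ := fun n => -((σ : ℂ) * (2 * Lam w ((n : ℂ) * w))) +
    Real.pi * I * GV.FanSum_U (hh w) (fun n => hh ((n : ℂ) * w)) n with hF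
  set L : ℂ := σ * (2 * GG (W0S σ w) + W0S σ w * W1S σ w (((m - 1 : ℕ) : ℂ) * w)) +
      Real.pi * I * (if Even m then W1S σ w (((m - 1 : ℕ) : ℂ) * w) else -W0S σ w) with hL
  -- the terms
  have hterm : ∀ k ∈ Finset.Icc 2 m, Cg (2 * rogers (zT σ w k) (P k) (Q k) +
        (Real.pi : ℂ) ^ 2 * ((if k = 2 then 1 / 2 else σ / 3 : ℝ) : ℂ))
      ((if k = m then L else F k - F (k - 1)) + (-(σ * (Real.pi : ℂ) ^ 2 / 3) +
      (Real.pi : ℂ) ^ 2 * ((if k = 2 then 1 / 2 else σ / 3 : ℝ) : ℂ))) := by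
    intro k hk
    rw [Finset.mem_Icc] at hk
    rw [← add_assoc]
    refine Cg.add ?_ (Cg.refl _)
    by_cases hkm : k = m
    · subst hkm
      rw [if_pos rfl]
      refine (hin_s σ k w hc (P k) (Q k) (hP k hk.1 hk.2) (hQ k hk.1 hk.2)).trans (Cg.of_eq ?_)
      rw [hL]
      ring
    · rw [if_neg hkm]
      refine (lay_s σ m w hc k hk.1 (by omega) (P k) (Q k) (hP k hk.1 hk.2)
        (hQ k hk.1 hk.2)).trans (Cg.of_eq ?_)
      rw [SumS_term σ w k (by omega)]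
      simp only [hF]
      ring
  refine (Cg.sum _ hterm).trans (Cg.of_eq ?_)
  rw [Finset.sum_add_distrib, SumS_const _ _ hm]
  have hsplit : ∑ k ∈ Finset.Icc 2 m, (if k = m then L else F k - F (k - 1)) =
      (F (m - 1) - F 1) + L := by
    obtain ⟨n, rfl⟩ : ∃ n, m = n + 1 := ⟨m - 1, by omega⟩
    rw [Finset.sum_Icc_succ_top (by omega), if_pos rfl]
    congr 1
    have h1 : ∑ k ∈ Finset.Icc 2 n, (if k = n + 1 then L else F k - F (k - 1)) =
        ∑ k ∈ Finset.Icc 2 n, (F k - F (k - 1)) := by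
      refine Finset.sum_congr rfl (fun k hk => ?_)
      rw [Finset.mem_Icc] at hk
      rw [if_neg (by omega)]
    rw [h1, GV.FanSum_tel F 2 n (by norm_num) (by omega)]
    simp
  rw [hsplit]
  have hF1 : F 1 = -(σ * (Real.pi : ℂ) ^ 2 / 3) := by
    have h3 : ¬ Even 1 := by decide
    simp only [hF, GV.FanSum_U, if_neg h3, Nat.cast_one, one_mul, GV.Lam_diag]
    ring
  have hW := W0S_eq σ m w hc
  have hW1 := SumS_W1 σ m w hc
  have hI : I * I = -1 := I_mul_I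
  rw [hF1]
  have hLS : LS σ w = σ * (2 * GG (W0S σ w) + W0S σ w * W1S σ w (((m - 1 : ℕ) : ℂ) * w) -
      2 * Lam w (((m - 1 : ℕ) : ℂ) * w)) - Real.pi * I * W0S σ w / 2 := by
    unfold LS
    rw [bS_eq σ m w hc]
  rw [hLS]
  by_cases he : Even m
  · have ho : ¬ Even (m - 1) := by
      rw [Nat.not_even_iff_odd]
      exact Nat.Even.sub_odd (by omega) he odd_one
    simp only [hL, hF, GV.FanSum_U, if_pos he, if_neg ho]
    generalize hA : W1S σ w (((m - 1 : ℕ) : ℂ) * w) = A at *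
    linear_combination (Real.pi * I) * hW1 - (Real.pi * I / 2) * hW +
      (σ * (Real.pi : ℂ) ^ 2 / 2) * hI
  · have ho : Even (m - 1) := by
      rw [Nat.not_even_iff_odd] at he
      exact Nat.Odd.sub_odd he odd_one
    have hm1 : m - 1 + 1 = m := by omega
    simp only [hL, hF, GV.FanSum_U, if_neg he, if_pos ho, hm1]
    linear_combination (Real.pi * I / 2) * hW

end Pool.Agent.H63.TC
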