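import Pool.Agent.H63.TC.CvChain
import Pool.Agent.H63.TC.Flat
import Pool.Agent.H63.TC.SumS
import Pool.Agent.H63.TC.Star

/-! # The complex volume of the twist knots -/

namespace Pool.Agent.H63.TC

open Pool.Agent.H63.VC Pool.Agent.H63.VC3 Pool.Agent.H63.VC4 Pool.Agent.H63.VC5
  Pool.Agent.H63.TW Complex

private theorem CvT_RS (p s : ℤ) (v : ℂ) (hc : CritT p s v) (σ : ℝ) (hσ : σ = 1 ∨ σ = -1) :
    RS σ (σ * v) = 2 * Real.pi * I * VT p s v := by
  have heq := hc.eq
  rcases hσ with rfl | rfl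
  · unfold RS VT VU W0
    push_cast
    rw [one_mul]
    linear_combination (-(Real.pi : ℂ) * I * v) * heq + (-2 * (Real.pi : ℂ) ^ 2 * v) * I_sq
  · unfold RS VT VU W0
    push_cast
    have e0 : (-1 : ℂ) * v = -v := by ring
    have e1 : (3 / 4 + -v / 2 : ℂ) = 3 / 4 - v / 2 := by ring
    have e2 : (3 / 4 - -v / 2 : ℂ) = 3 / 4 + v / 2 := by ring
    rw [e0, e1, e2, LT_neg]
    linear_combination (-(Real.pi : ℂ) * I * v) * heq + (-2 * (Real.pi : ℂ) ^ 2 * v) * I_sq

private theorem CvT_par (p s : ℤ) (hp : 2 ≤ |p|) (hs : s = 1 ∨ s = -1) :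
    ∃ n : ℤ, 3 * sgr p / 4 + 1 / 2 - (if Even (mp p s) then sgr p / 2 else 0) + (s : ℝ) / 4 = n := by
  have hp0 : 1 ≤ p.natAbs := by
    by_contra h
    have h1 : p.natAbs = 0 := by omega
    rw [Int.natAbs_eq_zero] at h1
    rw [h1, abs_zero] at hp
    omega
  rcases lt_trichotomy p 0 with h | h | h
  · have e1 : sgr p = 1 := by
      unfold sgr
      rw [if_pos h]
    rcases hs with rfl | rfl
    · have e2 : Even (mp p 1) := by
        unfold mp
        rw [if_neg (by omega)]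
        exact even_two_mul _
      refine ⟨1, ?_⟩
      rw [if_pos e2, e1]
      push_cast
      norm_num
    · have e2 : ¬ Even (mp p (-1)) := by
        unfold mp
        rw [if_pos (by omega), Nat.not_even_iff_odd]
        exact ⟨p.natAbs - 1, by omega⟩
      refine ⟨1, ?_⟩
      rw [if_neg e2, e1]
      push_cast
      norm_num
  · rw [h, abs_zero] at hp
    omega
  · have e1 : sgr p = -1 := by
      unfold sgr
      rw [if_neg (by omega)]
    rcases hs with rfl | rfl
    · have e2 : ¬ Even (mp p 1) := by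
        unfold mp
        rw [if_pos (by omega), Nat.not_even_iff_odd]
        exact ⟨p.natAbs - 1, by omega⟩
      refine ⟨0, ?_⟩
      rw [if_neg e2, e1]
      push_cast
      norm_num
    · have e2 : Even (mp p (-1)) := by
        unfold mp
        rw [if_neg (by omega)]
        exact even_two_mul _
      refine ⟨0, ?_⟩
      rw [if_pos e2, e1]
      push_cast
      norm_num

theorem cvT (p s : ℤ) (hp : 2 ≤ |p|) (hs : s = 1 ∨ s = -1) (v : ℂ) (hc : CritT p s v) :
    ∃ Z : ℂ, IsComplexVolume (conway [p, s]) (decide (p < 0)) Z ∧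
      Cg Z (2 * Real.pi * I * (VT p s v + s * (Real.pi * I / 8))) := by
  have hσ : sgr p = 1 ∨ sgr p = -1 := by
    unfold sgr
    split_ifs
    · exact Or.inl rfl
    · exact Or.inr rfl
  have hcw := critW_of p s hp hs v hc
  obtain ⟨ha, hin⟩ := conway_mp p s hs (Or.inl hp)
  have hm := hcw.hm
  obtain ⟨w, hw⟩ : ∃ w : ℂ, w = sgr p * v := ⟨_, rfl⟩
  rw [← hw] at hcw
  have hPQ : ∀ k : ℕ, ∃ P Q : ℤ, 2 ≤ k → k ≤ mp p s →
      (Complex.log (zT (sgr p) w k) + P * (Real.pi * I) = -2 * sgr p * lamT (sgr p) (mp p s) w k ∧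
      -Complex.log (1 - zT (sgr p) w k) + Q * (Real.pi * I) =
        (1 + sgr p) * lamT (sgr p) (mp p s) w k - lamT (sgr p) (mp p s) w (k - 1) -
          lamT (sgr p) (mp p s) w (k + 1)) := by
    intro k
    by_cases h1 : 2 ≤ k ∧ k ≤ mp p s
    · obtain ⟨P, Q, h2⟩ := flatT (sgr p) (mp p s) w hcw k h1.1 h1.2
      exact ⟨P, Q, fun _ _ => h2⟩
    · exact ⟨0, 0, fun h2 h3 => absurd ⟨h2, h3⟩ h1⟩
  choose P Q hPQ using hPQ
  obtain ⟨Z, hZ1, hZ2⟩ := cv_chain (sgr p) hσ (mp p s) hm (conway [p, s]) ha hin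
    (lamT (sgr p) (mp p s) w) (zT (sgr p) w) P Q (lamT_one _ _ _ hm) (lamT_last _ _ _)
    (fun k h1 h2 => ⟨zT_pos _ _ _ hcw k h1 h2, zT_eq _ hσ _ _ k h2⟩)
    (fun k h1 h2 => (hPQ k h1 h2).1) (fun k h1 h2 => (hPQ k h1 h2).2)
  refine ⟨Z, ?_, hZ2.trans ((sum_s (sgr p) (mp p s) w hcw P Q (fun k h1 h2 => (hPQ k h1 h2).1)
    (fun k h1 h2 => (hPQ k h1 h2).2)).trans ?_)⟩
  · have h1 : decide (0 < sgr p) = decide (p < 0) := by
      unfold sgr
      by_cases h2 : p < 0
      · rw [if_pos h2, decide_eq_true h2]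
        exact decide_eq_true one_pos
      · rw [if_neg h2, decide_eq_false h2]
        exact decide_eq_false (by norm_num)
    rwa [h1] at hZ1
  · obtain ⟨n, hn⟩ := CvT_par p s hp hs
    refine ⟨n, ?_⟩
    rw [star (sgr p) hσ w (critW_dom _ _ _ hcw), hw, CvT_RS p s v hc (sgr p) hσ]
    have hn' : 3 * (sgr p : ℂ) / 4 + 1 / 2 - (if Even (mp p s) then (sgr p : ℂ) / 2 else 0) +
        (s : ℂ) / 4 = n := by
      by_cases h2 : Even (mp p s)
      · rw [if_pos h2] at hn ⊢
        have h1 := congrArg Complex.ofReal hn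
        push_cast at h1
        exact h1
      · rw [if_neg h2] at hn ⊢
        have h1 := congrArg Complex.ofReal hn
        push_cast at h1
        exact h1
    rw [← hn']
    by_cases h2 : Even (mp p s)
    · rw [if_pos h2, if_pos h2]
      linear_combination (-(Real.pi : ℂ) ^ 2 * s / 4) * I_sq
    · rw [if_neg h2, if_neg h2]
      linear_combination (-(Real.pi : ℂ) ^ 2 * s / 4) * I_sq

end Pool.Agent.H63.TC
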