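import Pool.Agent.H63.TC.Defs
import Pool.Agent.H63.VC.DTone
import Pool.Agent.H63.VC3.JNlim

/-! # The figure eight knot: the terms -/

namespace Pool.Agent.H63.TC

open Pool.Agent.H63.VC Pool.Agent.H63.VC3 Pool.Agent.H63.VC5 Pool.Agent.H63.TW Filter
  Topology
open scoped BigOperators

theorem F8A_NN (n M k : ℕ) : NN 1 n M k * NN (-1) n M k = -1 := by
  have h : (starRingEnd ℂ) (Th n M k) * Th n M k = 1 := by
    rw [mul_comm, Complex.mul_conj, Complex.normSq_eq_norm_sq, norm_Th]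
    norm_num
  unfold NN
  rw [if_pos (by norm_num), if_neg (by norm_num)]
  have h1 : ((1 : ℤ)).toNat = 1 := rfl
  have h2 : (-(-1 : ℤ)).toNat = 1 := rfl
  rw [h1, h2, twistCoeff_one, map_one, mul_one, mul_one, mul_neg, h]

theorem F8A_prod (M k j : ℕ) :
    S M (j + k) = S M k * ∏ i ∈ Finset.range j, sg M (k + i + 1) := by
  have h := S_mul_prod M (k + 1) j (by omega)
  rw [show k + 1 - 1 = k by omega, add_comm k j] at h
  rw [← h]
  congr 1
  refine Finset.prod_congr rfl fun i _ => ?_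
  congr 1
  omega

theorem F8A_T (n g M k : ℕ) (hn : 2 ≤ n) (hg : 1 ≤ g) (hgn : g ≤ n - 1) (hM : n ≤ M)
    (hk : k + n ≤ M + 1) :
    T M n g k = M * Real.exp (2 * M * Fr (5 / 6)) / Dg n g M * F8h n g M k := by
  have hM' : (M : ℝ) ≠ 0 := by exact_mod_cast (by omega : M ≠ 0)
  have hS : S M k ≠ 0 := (S_pos (by omega)).ne'
  have hD : Dg n g M ≠ 0 := (Reduce_Dg n g M hn hg hgn hM).1.ne'
  rw [T_eq M n g k hg hgn hn hk, F8A_prod M k (g - 1), F8A_prod M k (n - g - 1),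
    F8A_prod M k (n - 2)]
  unfold F8h
  rw [if_pos hk, Real.exp_neg]
  have hE : Real.exp (2 * M * Fr (5 / 6)) ≠ 0 := (Real.exp_pos _).ne'
  have e : S M (g - 1) * S M (n - g - 1) * S M (n - 2) * S M k = Dg n g M * S M k := rfl
  rw [e]
  field_simp

theorem JN_f8 (n g M : ℕ) (hn : 2 ≤ n) (hg : 1 ≤ g) (hgn : g ≤ n - 1) (hM : n ≤ M) :
    JN 1 (-1) n g M = -((M * Real.exp (2 * M * Fr (5 / 6)) / Dg n g M *
      ∑ k ∈ Finset.range (M + 2 - n), F8h n g M k : ℝ) : ℂ) := by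
  unfold JN
  have h1 : ∑ k ∈ Finset.range (M - g + 1), (T M n g k : ℂ) * (NN 1 n M k * NN (-1) n M k) =
      -((∑ k ∈ Finset.range (M - g + 1), T M n g k : ℝ) : ℂ) := by
    push_cast
    rw [← Finset.sum_neg_distrib]
    refine Finset.sum_congr rfl fun k _ => ?_
    rw [F8A_NN]
    ring
  have h2 : ∑ k ∈ Finset.range (M - g + 1), T M n g k =
      ∑ k ∈ Finset.range (M + 2 - n), T M n g k := by
    symm
    refine Finset.sum_subset ?_ ?_
    · intro k hk
      rw [Finset.mem_range] at hk ⊢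
      omega
    · intro k _ hk
      rw [Finset.mem_range] at hk
      exact T_eq_zero M n g k hn hM (by omega)
  have h3 : ∑ k ∈ Finset.range (M + 2 - n), T M n g k =
      M * Real.exp (2 * M * Fr (5 / 6)) / Dg n g M *
        ∑ k ∈ Finset.range (M + 2 - n), F8h n g M k := by
    rw [Finset.mul_sum]
    refine Finset.sum_congr rfl fun k hk => ?_
    rw [Finset.mem_range] at hk
    exact F8A_T n g M k hn hg hgn hM (by omega)
  rw [h1, h2, h3]

theorem Dg_lim (n g : ℕ) (hn : 2 ≤ n) (hg : 1 ≤ g) (hgn : g ≤ n - 1) :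
    ∃ d : ℝ, 0 < d ∧ Tendsto (fun M : ℕ => (M : ℝ) ^ (2 * (n : ℝ) - 4) * Dg n g M) atTop
      (𝓝 d) := by
  refine ⟨((2 * Real.pi) ^ (g - 1) * (Nat.factorial (g - 1) : ℝ)) *
        ((2 * Real.pi) ^ (n - g - 1) * (Nat.factorial (n - g - 1) : ℝ)) *
        ((2 * Real.pi) ^ (n - 2) * (Nat.factorial (n - 2) : ℝ)), by positivity, ?_⟩
  refine (((S_lim (g - 1)).mul (S_lim (n - g - 1))).mul (S_lim (n - 2))).congr' ?_
  filter_upwards [eventually_gt_atTop 0] with M hM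
  have e1 : (2 * (n : ℝ) - 4) = ((2 * n - 4 : ℕ) : ℝ) := by
    rw [Nat.cast_sub (by omega)]
    push_cast
    ring
  rw [e1, Real.rpow_natCast]
  unfold Dg
  have e : 2 * n - 4 = (g - 1) + (n - g - 1) + (n - 2) := by omega
  rw [e, pow_add, pow_add]
  ring

end Pool.Agent.H63.TC
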