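import Pool.Agent.H63.TC.Defs
import Pool.Agent.H63.VC3.LLasym
import Pool.Agent.H63.VC3.LogS
import Pool.Agent.H63.VC3.Taylor2

/-! # The figure eight knot: estimates of the terms -/

namespace Pool.Agent.H63.TC

open Pool.Agent.H63.VC Pool.Agent.H63.VC3 Pool.Agent.H63.VC5 Pool.Agent.H63.TW Filter
  Topology
open scoped BigOperators

/-! ### The potential near its maximum -/

private lemma F8B_sin56 : Real.sin (Real.pi * (5 / 6)) = 1 / 2 := by
  have e : Real.pi * (5 / 6) = Real.pi - Real.pi / 6 := by ring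
  rw [e, Real.sin_pi_sub, Real.sin_pi_div_six]

private lemma F8B_sin12 : Real.sin (Real.pi * (1 / 2)) = 1 := by
  have e : Real.pi * (1 / 2) = Real.pi / 2 := by ring
  rw [e, Real.sin_pi_div_two]

private lemma F8B_mem {x : ℝ} (h0 : 0 ≤ x) (h1 : x ≤ 1) : Real.pi * x ∈ Set.Icc 0 Real.pi := by
  have hp := Real.pi_pos
  constructor
  · positivity
  · nlinarith

private lemma F8B_low (x : ℝ) (h0 : 1 / 2 ≤ x) (h1 : x ≤ 5 / 6) :
    3 / 2 * (5 / 6 - x) ≤ Real.log (2 * Real.sin (Real.pi * x)) := by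
  have hc := strictConcaveOn_sin_Icc.concaveOn
  have h2 := hc.2 (F8B_mem (x := 5 / 6) (by norm_num) (by norm_num))
    (F8B_mem (x := 1 / 2) (by norm_num) (by norm_num))
    (show 0 ≤ 1 - 3 * (5 / 6 - x) by linarith) (show 0 ≤ 3 * (5 / 6 - x) by linarith) (by ring)
  simp only [smul_eq_mul] at h2
  have e : (1 - 3 * (5 / 6 - x)) * (Real.pi * (5 / 6)) + 3 * (5 / 6 - x) * (Real.pi * (1 / 2)) =
      Real.pi * x := by ring
  rw [e, F8B_sin56, F8B_sin12] at h2
  have h3 : 1 + 3 * (5 / 6 - x) ≤ 2 * Real.sin (Real.pi * x) := by linarith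
  have hp : 0 < 1 + 3 * (5 / 6 - x) := by linarith
  have h4 := Real.one_sub_inv_le_log_of_pos hp
  have h5 := Real.log_le_log hp h3
  have h6 : 3 / 2 * (5 / 6 - x) ≤ 1 - (1 + 3 * (5 / 6 - x))⁻¹ := by
    have h7 : 1 - (1 + 3 * (5 / 6 - x))⁻¹ = 3 * (5 / 6 - x) / (1 + 3 * (5 / 6 - x)) := by
      rw [eq_div_iff hp.ne', sub_mul, inv_mul_cancel₀ hp.ne']
      ring
    rw [h7, le_div_iff₀ hp]
    nlinarith
  linarith

private lemma F8B_high (x : ℝ) (h0 : 5 / 6 ≤ x) (h1 : x < 1) :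
    Real.log (2 * Real.sin (Real.pi * x)) ≤ -(3 * (x - 5 / 6)) := by
  have hc := strictConcaveOn_sin_Icc.concaveOn
  have h3 : Real.sin (Real.pi * x) ≤ 1 / 2 - 3 / 2 * (x - 5 / 6) := by
    obtain ⟨y, hy⟩ : ∃ y : ℝ, x = y + 1 / 2 := ⟨x - 1 / 2, by ring⟩
    subst hy
    have hy0 : 0 < y := by linarith
    have hμ : 0 ≤ 1 / 3 / y := by positivity
    have hν : 0 ≤ (y - 1 / 3) / y := div_nonneg (by linarith) hy0.le
    have hs : 1 / 3 / y + (y - 1 / 3) / y = 1 := by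
      rw [← add_div]
      rw [div_eq_one_iff_eq hy0.ne']
      ring
    have h2 := hc.2 (F8B_mem (x := y + 1 / 2) (by linarith) h1.le)
      (F8B_mem (x := 1 / 2) (by norm_num) (by norm_num)) hμ hν hs
    simp only [smul_eq_mul] at h2
    have e : 1 / 3 / y * (Real.pi * (y + 1 / 2)) + (y - 1 / 3) / y * (Real.pi * (1 / 2)) =
        Real.pi * (5 / 6) := by
      field_simp
      ring
    rw [e, F8B_sin56, F8B_sin12] at h2
    have h5 : 1 / 3 / y * Real.sin (Real.pi * (y + 1 / 2)) + (y - 1 / 3) / y * 1 =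
        (1 / 3 * Real.sin (Real.pi * (y + 1 / 2)) + (y - 1 / 3)) / y := by
      ring
    rw [h5, div_le_iff₀ hy0] at h2
    linarith
  have hs : 0 < Real.sin (Real.pi * x) := by
    apply Real.sin_pos_of_pos_of_lt_pi
    · have := Real.pi_pos; nlinarith
    · have := Real.pi_pos; nlinarith
  have h4 := Real.log_le_sub_one_of_pos (show 0 < 2 * Real.sin (Real.pi * x) by positivity)
  linarith

private lemma F8B_hd (y : ℝ) (h0 : 0 < y) (h1 : y < 1) :
    HasDerivAt (fun y : ℝ => Fr y + 3 / 4 * (y - 5 / 6) ^ 2)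
      (Real.log (2 * Real.sin (Real.pi * y)) + 3 / 2 * (y - 5 / 6)) y := by
  have h2 : HasDerivAt (fun y : ℝ => 3 / 4 * (y - 5 / 6) ^ 2) (3 / 2 * (y - 5 / 6)) y := by
    have h3 := (((hasDerivAt_id y).sub_const (5 / 6 : ℝ)).pow 2).const_mul (3 / 4 : ℝ)
    refine h3.congr_deriv ?_
    simp
    ring
  exact (Fr_hasDerivAt y h0 h1).add h2

private lemma F8B_cont : Continuous (fun y : ℝ => Fr y + 3 / 4 * (y - 5 / 6) ^ 2) := by
  have := Fr_continuous
  fun_prop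

private lemma F8B_half (x : ℝ) (h0 : 1 / 2 ≤ x) (h1 : x ≤ 1) :
    Fr x + 3 / 4 * (x - 5 / 6) ^ 2 ≤ Fr (5 / 6) := by
  rcases le_total x (5 / 6) with h | h
  · have hm : MonotoneOn (fun y : ℝ => Fr y + 3 / 4 * (y - 5 / 6) ^ 2)
        (Set.Icc (1 / 2) (5 / 6)) := by
      apply monotoneOn_of_deriv_nonneg (convex_Icc _ _) F8B_cont.continuousOn
      · intro y hy
        rw [interior_Icc] at hy
        exact (F8B_hd y (by linarith [hy.1]) (by linarith [hy.2])).differentiableAt.differentiableWithinAt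
      · intro y hy
        rw [interior_Icc] at hy
        rw [(F8B_hd y (by linarith [hy.1]) (by linarith [hy.2])).deriv]
        have := F8B_low y hy.1.le hy.2.le
        linarith
    have h2 := hm (a := x) ⟨h0, h⟩ (b := 5 / 6) ⟨by norm_num, le_rfl⟩ h
    simpa using h2
  · have hm : AntitoneOn (fun y : ℝ => Fr y + 3 / 4 * (y - 5 / 6) ^ 2)
        (Set.Icc (5 / 6) 1) := by
      apply antitoneOn_of_deriv_nonpos (convex_Icc _ _) F8B_cont.continuousOn
      · intro y hy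
        rw [interior_Icc] at hy
        exact (F8B_hd y (by linarith [hy.1]) (by linarith [hy.2])).differentiableAt.differentiableWithinAt
      · intro y hy
        rw [interior_Icc] at hy
        rw [(F8B_hd y (by linarith [hy.1]) (by linarith [hy.2])).deriv]
        have := F8B_high y hy.1.le hy.2
        linarith [hy.1]
    have h2 := hm (a := 5 / 6) ⟨le_rfl, by norm_num⟩ (b := x) ⟨h, h1⟩ h
    simpa using h2

private lemma F8B_Fr (x : ℝ) (h0 : 0 ≤ x) (h1 : x ≤ 1) :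
    Fr x - Fr (5 / 6) ≤ -(1 / 10 * (x - 5 / 6) ^ 2) := by
  rcases le_total (1 / 2) x with h | h
  · have := F8B_half x h h1
    nlinarith [sq_nonneg (x - 5 / 6)]
  · have h2 := F8B_half (1 / 2) le_rfl (by norm_num)
    rw [Fr_half] at h2
    have h3 := Fr_nonpos x h0 h
    nlinarith

/-! ### The products -/

private lemma F8B_log {M k : ℕ} (h : k < M) : Real.log (S M k) = (LL M k).re := by
  have h1 := LL_nat M k h
  have h2 : ‖Complex.exp (LL M k)‖ = S M k := by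
    rw [h1, Complex.norm_real, Real.norm_of_nonneg (S_pos h).le]
  rw [Complex.norm_exp] at h2
  rw [← h2, Real.log_exp]

private lemma F8B_asym : ∃ C : ℝ, 0 < C ∧ ∀ M k : ℕ, k < M → 1 / 12 ≤ ((k : ℝ) + 1 / 2) / M →
    ((k : ℝ) + 1 / 2) / M ≤ 11 / 12 →
    |Real.log (S M k) - Real.log M / 2 - M * Fr (((k : ℝ) + 1 / 2) / M)| ≤ C / M := by
  obtain ⟨C, hC, h⟩ := LL_asym (1 / 12) 1 (by norm_num)
  refine ⟨C, hC, fun M k hk h1 h2 => ?_⟩
  have hM0 : (0 : ℝ) < M := by exact_mod_cast (by omega : 0 < M)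
  have hMc : (M : ℂ) ≠ 0 := by exact_mod_cast hM0.ne'
  set z : ℝ := ((k : ℝ) + 1 / 2) / M with hz
  have h3 := h M (by omega) (z : ℂ) (by simpa using h1) (by
    rw [Complex.ofReal_re]; linarith) (by simp)
  have e : (M : ℂ) * (z : ℂ) - 1 / 2 = k := by
    rw [hz]
    push_cast
    field_simp
    ring
  rw [e, ff_real z (by linarith) (by linarith)] at h3
  have h4 := (Complex.abs_re_le_norm _).trans h3
  have e2 : (LL M k - (Real.log M : ℂ) / 2 - (M : ℂ) * ((Fr z : ℝ) : ℂ)).re =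
      (LL M k).re - Real.log M / 2 - M * Fr z := by
    have e3 : (Real.log M : ℂ) / 2 = ((Real.log M / 2 : ℝ) : ℂ) := by push_cast; rfl
    have e4 : (M : ℂ) * ((Fr z : ℝ) : ℂ) = ((M * Fr z : ℝ) : ℂ) := by push_cast; rfl
    rw [e3, e4, Complex.sub_re, Complex.sub_re, Complex.ofReal_re, Complex.ofReal_re]
  rw [e2] at h4
  rw [F8B_log hk]
  exact h4

private lemma F8B_prod (M k a n : ℕ) (ha : a + 2 ≤ n) (h : k + n ≤ M + 1) :
    0 ≤ ∏ i ∈ Finset.range a, sg M (k + i + 1) ∧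
      ∏ i ∈ Finset.range a, sg M (k + i + 1) ≤ 2 ^ a := by
  constructor
  · apply Finset.prod_nonneg
    intro i hi
    rw [Finset.mem_range] at hi
    exact (sg_pos (by omega) (by omega)).le
  · calc ∏ i ∈ Finset.range a, sg M (k + i + 1) ≤ ∏ i ∈ Finset.range a, (2 : ℝ) := by
          apply Finset.prod_le_prod
          · intro i hi
            rw [Finset.mem_range] at hi
            exact (sg_pos (by omega) (by omega)).le
          · intro i _
            exact sg_le_two _ _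
      _ = 2 ^ a := by rw [Finset.prod_const, Finset.card_range]

private lemma F8B_core : ∃ C : ℝ, 0 < C ∧ ∀ᶠ M : ℕ in atTop, ∀ k : ℕ, k < M →
    S M k ^ 2 / M * Real.exp (-(2 * M * Fr (5 / 6))) ≤
      C * Real.exp (-(1 / 10 * (k - 5 * M / 6) ^ 2 / M)) := by
  obtain ⟨C0, hC0, hA⟩ := F8B_asym
  obtain ⟨C1, hC1, hB⟩ := log_S_bound
  refine ⟨Real.exp (2 * C0 + 1 / 20), Real.exp_pos _, ?_⟩
  have hlog : ∀ᶠ M : ℕ in atTop, 2 * C1 * Real.log M ≤ (M : ℝ) / 1690 := by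
    have h1 := Real.isLittleO_log_id_atTop.comp_tendsto (tendsto_natCast_atTop_atTop (R := ℝ))
    rw [Asymptotics.isLittleO_iff] at h1
    have h2 := h1 (c := 1 / (1690 * (2 * C1))) (by positivity)
    filter_upwards [h2, eventually_ge_atTop 1] with M hM hM1
    simp only [Function.comp_apply, id_eq, Real.norm_eq_abs] at hM
    have hM0 : (0 : ℝ) < M := by exact_mod_cast hM1
    rw [abs_of_pos hM0] at hM
    have h3 := (le_abs_self _).trans hM
    calc 2 * C1 * Real.log M ≤ 2 * C1 * (1 / (1690 * (2 * C1)) * M) :=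
          mul_le_mul_of_nonneg_left h3 (by positivity)
      _ = (M : ℝ) / 1690 := by field_simp
  filter_upwards [hlog, eventually_ge_atTop 100] with M hM hM100 k hk
  have hMp : 0 < M := by omega
  have hM0 : (0 : ℝ) < M := by exact_mod_cast hMp
  have hM1 : (100 : ℝ) ≤ M := by exact_mod_cast hM100
  have hS := S_pos hk
  have hkM : (k : ℝ) + 1 ≤ M := by exact_mod_cast hk
  have hk0 : (0 : ℝ) ≤ k := by positivity
  have hS2 : S M k ^ 2 = Real.exp (2 * Real.log (S M k)) := by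
    rw [two_mul, Real.exp_add, Real.exp_log hS]; ring
  set z : ℝ := ((k : ℝ) + 1 / 2) / M with hz
  have hz0 : 0 ≤ z := by positivity
  have hz1 : z ≤ 1 := by rw [hz, div_le_one hM0]; linarith
  by_cases hc : 1 / 12 ≤ z ∧ z ≤ 11 / 12
  · have h1 := abs_le.1 (hA M k hk hc.1 hc.2)
    rw [← hz] at h1
    have h2 := F8B_Fr z hz0 hz1
    have e1 : S M k ^ 2 / M = Real.exp (2 * Real.log (S M k) - Real.log M) := by
      rw [Real.exp_sub, Real.exp_log hM0, hS2]
    rw [e1, ← Real.exp_add, ← Real.exp_add]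
    apply Real.exp_le_exp.2
    have h3 : C0 / M ≤ C0 := div_le_self hC0.le (by linarith)
    have h4 : (M : ℝ) * (z - 5 / 6) ^ 2 = ((k : ℝ) + 1 / 2 - 5 * M / 6) ^ 2 / M := by
      rw [hz]; field_simp
    have h5 : (k - 5 * M / 6 : ℝ) ^ 2 / M ≤ 2 * (((k : ℝ) + 1 / 2 - 5 * M / 6) ^ 2 / M) + 1 / 2 := by
      rw [div_le_iff₀ hM0]
      have e2 : (2 * (((k : ℝ) + 1 / 2 - 5 * M / 6) ^ 2 / M) + 1 / 2) * M =
          2 * ((k : ℝ) + 1 / 2 - 5 * M / 6) ^ 2 + M / 2 := by field_simp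
      rw [e2]
      nlinarith [sq_nonneg ((k : ℝ) - 5 * M / 6 + 1)]
    have h6 : (M : ℝ) * (Fr z - Fr (5 / 6)) ≤ M * -(1 / 10 * (z - 5 / 6) ^ 2) :=
      mul_le_mul_of_nonneg_left h2 hM0.le
    have h7 : (M : ℝ) * -(1 / 10 * (z - 5 / 6) ^ 2) =
        -(1 / 10) * (((k : ℝ) + 1 / 2 - 5 * M / 6) ^ 2 / M) := by rw [← h4]; ring
    have h8 : 1 / 10 * (k - 5 * M / 6 : ℝ) ^ 2 / M = 1 / 10 * ((k - 5 * M / 6 : ℝ) ^ 2 / M) := by
      ring
    rw [h8]
    rw [h7, mul_sub] at h6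
    linarith [h1.2]
  · have hx : 1 / 13 ≤ |(k : ℝ) / M - 5 / 6| := by
      have e : z = (k : ℝ) / M + 1 / 2 / M := by rw [hz]; ring
      have h9 : 1 / 2 / (M : ℝ) ≤ 1 / 200 := by
        rw [div_le_iff₀ hM0]; linarith
      have h10 : 0 ≤ 1 / 2 / (M : ℝ) := by positivity
      rcases not_and_or.1 hc with h | h
      · rw [not_le] at h
        rw [abs_of_nonpos (by linarith)]
        linarith
      · rw [not_le] at h
        refine le_trans ?_ (le_abs_self _)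
        linarith
    have h1 := abs_le.1 (hB M k (by omega) hk)
    have h2 := F8B_Fr ((k : ℝ) / M) (by positivity) (by rw [div_le_one hM0]; linarith)
    have h3 : S M k ^ 2 / M ≤ S M k ^ 2 := div_le_self (by positivity) (by linarith)
    have h4 : 1 ≤ Real.exp (2 * C0 + 1 / 20) := Real.one_le_exp (by positivity)
    have h5 : (M : ℝ) * ((k : ℝ) / M - 5 / 6) ^ 2 = (k - 5 * M / 6 : ℝ) ^ 2 / M := by
      field_simp
    have h6 : (M : ℝ) / 169 ≤ M * ((k : ℝ) / M - 5 / 6) ^ 2 := by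
      have : (1 / 13 : ℝ) ^ 2 ≤ ((k : ℝ) / M - 5 / 6) ^ 2 := by
        rw [← sq_abs ((k : ℝ) / M - 5 / 6)]
        exact pow_le_pow_left₀ (by norm_num) hx 2
      nlinarith
    calc S M k ^ 2 / M * Real.exp (-(2 * M * Fr (5 / 6))) ≤
        S M k ^ 2 * Real.exp (-(2 * M * Fr (5 / 6))) :=
          mul_le_mul_of_nonneg_right h3 (Real.exp_pos _).le
      _ = Real.exp (2 * Real.log (S M k) - 2 * M * Fr (5 / 6)) := by
          rw [hS2, ← Real.exp_add]; congr 1
      _ ≤ Real.exp (-(1 / 10 * (k - 5 * M / 6) ^ 2 / M)) := by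
          apply Real.exp_le_exp.2
          have h8 : 1 / 10 * (k - 5 * M / 6 : ℝ) ^ 2 / M =
              1 / 10 * (M * ((k : ℝ) / M - 5 / 6) ^ 2) := by rw [h5]; ring
          rw [h8]
          have h9 : (M : ℝ) * (Fr ((k : ℝ) / M) - Fr (5 / 6)) ≤
              M * -(1 / 10 * ((k : ℝ) / M - 5 / 6) ^ 2) := mul_le_mul_of_nonneg_left h2 hM0.le
          rw [mul_sub] at h9
          linarith [h1.2]
      _ ≤ _ := le_mul_of_one_le_left (Real.exp_pos _).le h4

theorem F8h_bd (n g : ℕ) (hn : 2 ≤ n) (hg : 1 ≤ g) (hgn : g ≤ n - 1) :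
    ∃ C c : ℝ, 0 < C ∧ 0 < c ∧ ∀ᶠ M : ℕ in atTop, ∀ k : ℕ, 0 ≤ F8h n g M k ∧
      F8h n g M k ≤ C * Real.exp (-(c * (k - 5 * M / 6) ^ 2 / M)) := by
  obtain ⟨C, hC, h⟩ := F8B_core
  refine ⟨C * (2 ^ (g - 1) * 2 ^ (n - g - 1) * 2 ^ (n - 2)), 1 / 10, by positivity, by norm_num, ?_⟩
  filter_upwards [h, eventually_ge_atTop 1] with M hM hM1 k
  unfold F8h
  by_cases hk : k + n ≤ M + 1
  · rw [if_pos hk]
    have hkM : k < M := by omega
    have h1 := hM k hkM
    obtain ⟨a0, a1⟩ := F8B_prod M k (g - 1) n (by omega) hk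
    obtain ⟨b0, b1⟩ := F8B_prod M k (n - g - 1) n (by omega) hk
    obtain ⟨c0, c1⟩ := F8B_prod M k (n - 2) n (by omega) hk
    have hS := S_pos hkM
    have hcore : 0 ≤ S M k ^ 2 / M * Real.exp (-(2 * M * Fr (5 / 6))) := by positivity
    refine ⟨mul_nonneg hcore (mul_nonneg (mul_nonneg a0 b0) c0), ?_⟩
    have h2 := mul_le_mul (mul_le_mul a1 b1 b0 (by positivity)) c1 c0 (by positivity)
    have h3 := mul_le_mul h1 h2 (mul_nonneg (mul_nonneg a0 b0) c0)
      (mul_nonneg hC.le (Real.exp_pos _).le)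
    refine h3.trans (le_of_eq ?_)
    ring
  · rw [if_neg hk]
    exact ⟨le_rfl, by positivity⟩

/-! ### The limit -/

private lemma F8B_quad {ε : ℝ} (hε : 0 < ε) : ∀ᶠ s in 𝓝 (0 : ℝ),
    |Fr (5 / 6 + s) - Fr (5 / 6) + Real.pi * Real.sqrt 3 / 2 * s ^ 2| ≤ ε * s ^ 2 := by
  have hev : ∀ᶠ s in 𝓝 (0 : ℝ), 0 < 5 / 6 + s ∧ 5 / 6 + s < 1 := by
    have h1 : Tendsto (fun s : ℝ => 5 / 6 + s) (𝓝 0) (𝓝 (5 / 6 + 0)) :=
      tendsto_const_nhds.add tendsto_id
    exact (h1.eventually (lt_mem_nhds (by norm_num))).and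
      (h1.eventually (gt_mem_nhds (by norm_num)))
  have hd : ∀ᶠ s in 𝓝 (0 : ℝ), HasDerivAt (fun s : ℝ => ((Fr (5 / 6 + s) : ℝ) : ℂ))
      ((fun s : ℝ => ((Real.log (2 * Real.sin (Real.pi * (5 / 6 + s))) : ℝ) : ℂ)) s) s := by
    filter_upwards [hev] with s hs
    have h1 := Fr_hasDerivAt (5 / 6 + s) hs.1 hs.2
    have h2 : HasDerivAt (fun s : ℝ => 5 / 6 + s) 1 s := (hasDerivAt_id s).const_add (5 / 6)
    have h3 := (h1.comp s h2).ofReal_comp
    rw [mul_one] at h3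
    exact h3
  have h0 : ((fun s : ℝ => ((Real.log (2 * Real.sin (Real.pi * (5 / 6 + s))) : ℝ) : ℂ)) 0) = 0 := by
    simp only [add_zero]
    rw [F8B_sin56]
    norm_num
  have hG : HasDerivAt (fun s : ℝ => ((Real.log (2 * Real.sin (Real.pi * (5 / 6 + s))) : ℝ) : ℂ))
      ((-(Real.pi * Real.sqrt 3) : ℝ) : ℂ) 0 := by
    have h2 : HasDerivAt (fun s : ℝ => Real.pi * (5 / 6 + s)) Real.pi 0 := by
      have := ((hasDerivAt_id (0 : ℝ)).const_add (5 / 6)).const_mul Real.pi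
      simpa using this
    have h3 := (h2.sin.const_mul 2).log (by
      simp only [add_zero]
      rw [F8B_sin56]; norm_num)
    have h4 := h3.ofReal_comp
    refine h4.congr_deriv ?_
    simp only [add_zero]
    rw [F8B_sin56]
    have e : Real.pi * (5 / 6) = Real.pi - Real.pi / 6 := by ring
    rw [e, Real.cos_pi_sub, Real.cos_pi_div_six]
    congr 1
    ring
  have hT := Taylor2_peano hd h0 hG
  have h1 := hT.eventually (Metric.closedBall_mem_nhds _ hε)
  rw [eventually_nhdsWithin_iff] at h1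
  filter_upwards [h1] with s hs
  by_cases hs0 : s = 0
  · rw [hs0]; simp
  have h2 := hs hs0
  rw [dist_eq_norm] at h2
  have hs2 : 0 < s ^ 2 := by positivity
  have hsc : (s : ℂ) ≠ 0 := by exact_mod_cast hs0
  have e : (((Fr (5 / 6 + s) : ℝ) : ℂ) - ((Fr (5 / 6 + 0) : ℝ) : ℂ)) / (s : ℂ) ^ 2 -
      ((-(Real.pi * Real.sqrt 3) : ℝ) : ℂ) / 2 =
      (((Fr (5 / 6 + s) - Fr (5 / 6) + Real.pi * Real.sqrt 3 / 2 * s ^ 2) / s ^ 2 : ℝ) : ℂ) := by
    rw [add_zero]
    push_cast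
    field_simp
    ring
  rw [e, Complex.norm_real, Real.norm_eq_abs, abs_div, abs_of_pos hs2, div_le_iff₀ hs2] at h2
  exact h2

private lemma F8B_floor (t : ℝ) : ∀ᶠ M : ℕ in atTop,
    |((⌊5 * (M : ℝ) / 6 + Real.sqrt M * t⌋₊ : ℕ) : ℝ) - (5 * (M : ℝ) / 6 + Real.sqrt M * t)| ≤ 1 := by
  have h1 : ∀ᶠ M : ℕ in atTop, 2 * |t| + 1 ≤ Real.sqrt M := by
    have h2 : Tendsto (fun M : ℕ => Real.sqrt (M : ℝ)) atTop atTop :=
      Real.tendsto_sqrt_atTop.comp tendsto_natCast_atTop_atTop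
    exact h2.eventually_ge_atTop _
  filter_upwards [h1, eventually_ge_atTop 1] with M hM hM1
  have hM0 : (0 : ℝ) ≤ M := by positivity
  have hs0 : 0 ≤ Real.sqrt M := Real.sqrt_nonneg _
  have hsq : Real.sqrt M * Real.sqrt M = M := Real.mul_self_sqrt hM0
  have ht := neg_abs_le t
  have hta := abs_nonneg t
  by_cases hpos : 0 ≤ 5 * (M : ℝ) / 6 + Real.sqrt M * t
  · have h3 := Nat.floor_le hpos
    have h4 := Nat.lt_floor_add_one (5 * (M : ℝ) / 6 + Real.sqrt M * t)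
    rw [abs_le]
    constructor <;> linarith
  · rw [not_le] at hpos
    have h5 : Real.sqrt M * (5 * Real.sqrt M / 6 + t) < 0 := by
      have : Real.sqrt M * (5 * Real.sqrt M / 6 + t) = 5 * (M : ℝ) / 6 + Real.sqrt M * t := by
        nlinarith
      linarith
    have hf : ⌊5 * (M : ℝ) / 6 + Real.sqrt M * t⌋₊ = 0 := Nat.floor_of_nonpos hpos.le
    rw [hf, Nat.cast_zero, zero_sub, abs_neg, abs_of_neg hpos]
    exfalso
    have h6 : 0 < Real.sqrt M := by linarith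
    have h7 : 5 * Real.sqrt M / 6 + t < 0 := by
      by_contra hcon
      rw [not_lt] at hcon
      exact absurd (mul_nonneg h6.le hcon) (not_le.2 h5)
    linarith

theorem F8h_lim (n g : ℕ) (hn : 2 ≤ n) (hg : 1 ≤ g) (hgn : g ≤ n - 1) (t : ℝ) :
    Tendsto (fun M : ℕ => F8h n g M ⌊5 * (M : ℝ) / 6 + Real.sqrt M * t⌋₊) atTop
      (𝓝 (Real.exp (-(Real.pi * Real.sqrt 3 * t ^ 2)))) := by
  set κ : ℕ → ℕ := fun M => ⌊5 * (M : ℝ) / 6 + Real.sqrt M * t⌋₊ with hκ
  have hsqrt : Tendsto (fun M : ℕ => Real.sqrt (M : ℝ)) atTop atTop :=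
    Real.tendsto_sqrt_atTop.comp tendsto_natCast_atTop_atTop
  have hinv : Tendsto (fun M : ℕ => 2 / Real.sqrt (M : ℝ)) atTop (𝓝 0) :=
    tendsto_const_nhds.div_atTop hsqrt
  have hpos : ∀ᶠ M : ℕ in atTop, (0 : ℝ) < M := by
    filter_upwards [eventually_ge_atTop 1] with M hM
    exact_mod_cast hM
  -- the rescaled deviation
  have hσ : Tendsto (fun M : ℕ => ((κ M : ℝ) + 1 / 2 - 5 * M / 6) / Real.sqrt M) atTop (𝓝 t) := by
    rw [← tendsto_sub_nhds_zero_iff]
    refine squeeze_zero_norm' ?_ hinv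
    filter_upwards [F8B_floor t, hpos] with M hM hM0
    have hs : 0 < Real.sqrt (M : ℝ) := Real.sqrt_pos.2 hM0
    have e : ((κ M : ℝ) + 1 / 2 - 5 * M / 6) / Real.sqrt M - t =
        (((κ M : ℝ) - (5 * M / 6 + Real.sqrt M * t)) + 1 / 2) / Real.sqrt M := by
      field_simp
      ring
    rw [e, norm_div, Real.norm_eq_abs, Real.norm_of_nonneg hs.le]
    apply div_le_div_of_nonneg_right _ hs.le
    refine (abs_add_le _ _).trans ?_
    have : |(1 / 2 : ℝ)| = 1 / 2 := abs_of_pos (by norm_num)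
    rw [this]
    linarith
  -- ratios
  have hrat : ∀ a : ℝ, Tendsto (fun M : ℕ => ((κ M : ℝ) + a) / M) atTop (𝓝 (5 / 6)) := by
    intro a
    have h1 : Tendsto (fun M : ℕ => 5 / 6 + (((κ M : ℝ) + 1 / 2 - 5 * M / 6) / Real.sqrt M +
        (a - 1 / 2) * (1 / Real.sqrt M)) * (1 / Real.sqrt M)) atTop
        (𝓝 (5 / 6 + (t + (a - 1 / 2) * 0) * 0)) := by
      have h2 : Tendsto (fun M : ℕ => 1 / Real.sqrt (M : ℝ)) atTop (𝓝 0) :=
        tendsto_const_nhds.div_atTop hsqrt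
      exact tendsto_const_nhds.add ((hσ.add (h2.const_mul _)).mul h2)
    have e0 : 5 / 6 + (t + (a - 1 / 2) * 0) * 0 = 5 / 6 := by ring
    rw [e0] at h1
    refine h1.congr' ?_
    filter_upwards [hpos] with M hM0
    have hs : 0 < Real.sqrt (M : ℝ) := Real.sqrt_pos.2 hM0
    have hsq : Real.sqrt (M : ℝ) ^ 2 = M := Real.sq_sqrt hM0.le
    field_simp
    rw [hsq]
    ring
  -- the exponent
  have hM2 : Tendsto (fun M : ℕ => (M : ℝ) * (((κ M : ℝ) + 1 / 2) / M - 5 / 6) ^ 2) atTop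
      (𝓝 (t ^ 2)) := by
    refine (hσ.pow 2).congr' ?_
    filter_upwards [hpos] with M hM0
    have hs : 0 < Real.sqrt (M : ℝ) := Real.sqrt_pos.2 hM0
    have hsq : Real.sqrt (M : ℝ) ^ 2 = M := Real.sq_sqrt hM0.le
    rw [div_pow, hsq]
    field_simp
  have hs0 : Tendsto (fun M : ℕ => ((κ M : ℝ) + 1 / 2) / M - 5 / 6) atTop (𝓝 0) := by
    have := (hrat (1 / 2)).sub_const (5 / 6)
    rwa [sub_self] at this
  have hexp : Tendsto (fun M : ℕ => 2 * (M : ℝ) * (Fr (((κ M : ℝ) + 1 / 2) / M) - Fr (5 / 6)))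
      atTop (𝓝 (-(Real.pi * Real.sqrt 3 * t ^ 2))) := by
    have h1 : Tendsto (fun M : ℕ => -(Real.pi * Real.sqrt 3 *
        ((M : ℝ) * (((κ M : ℝ) + 1 / 2) / M - 5 / 6) ^ 2))) atTop
        (𝓝 (-(Real.pi * Real.sqrt 3 * t ^ 2))) := (hM2.const_mul _).neg
    rw [← tendsto_sub_nhds_zero_iff] at h1 ⊢
    have h2 : Tendsto (fun M : ℕ => 2 * (M : ℝ) * (Fr (((κ M : ℝ) + 1 / 2) / M) - Fr (5 / 6)) +
        Real.pi * Real.sqrt 3 * ((M : ℝ) * (((κ M : ℝ) + 1 / 2) / M - 5 / 6) ^ 2)) atTop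
        (𝓝 0) := by
      rw [Metric.tendsto_nhds]
      intro ε hε
      have hb : ∀ᶠ M : ℕ in atTop, (M : ℝ) * (((κ M : ℝ) + 1 / 2) / M - 5 / 6) ^ 2 < t ^ 2 + 1 :=
        hM2.eventually (gt_mem_nhds (by linarith))
      have hq := hs0.eventually (F8B_quad (ε := ε / (4 * (t ^ 2 + 1))) (by positivity))
      filter_upwards [hb, hq, hpos] with M h3 h4 hM0
      rw [Real.dist_eq, sub_zero]
      have e1 : 5 / 6 + (((κ M : ℝ) + 1 / 2) / M - 5 / 6) = ((κ M : ℝ) + 1 / 2) / M := by ring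
      rw [e1] at h4
      set s : ℝ := ((κ M : ℝ) + 1 / 2) / M - 5 / 6 with hs
      have e2 : 2 * (M : ℝ) * (Fr (((κ M : ℝ) + 1 / 2) / M) - Fr (5 / 6)) +
          Real.pi * Real.sqrt 3 * ((M : ℝ) * s ^ 2) =
          2 * M * (Fr (((κ M : ℝ) + 1 / 2) / M) - Fr (5 / 6) +
            Real.pi * Real.sqrt 3 / 2 * s ^ 2) := by ring
      rw [e2, abs_mul, abs_of_pos (by positivity)]
      calc 2 * (M : ℝ) * |Fr (((κ M : ℝ) + 1 / 2) / M) - Fr (5 / 6) +
            Real.pi * Real.sqrt 3 / 2 * s ^ 2|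
          ≤ 2 * M * (ε / (4 * (t ^ 2 + 1)) * s ^ 2) :=
            mul_le_mul_of_nonneg_left h4 (by positivity)
        _ = ε / (2 * (t ^ 2 + 1)) * (M * s ^ 2) := by field_simp; ring
        _ ≤ ε / (2 * (t ^ 2 + 1)) * (t ^ 2 + 1) :=
            mul_le_mul_of_nonneg_left h3.le (by positivity)
        _ = ε / 2 := by field_simp
        _ < ε := by linarith
    have h3 := h2.add h1
    rw [add_zero] at h3
    refine h3.congr ?_
    intro M
    ring
  -- the logarithm of S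
  obtain ⟨C0, hC0, hA⟩ := F8B_asym
  have hwin : ∀ᶠ M : ℕ in atTop, 1 / 12 ≤ ((κ M : ℝ) + 1 / 2) / M ∧
      ((κ M : ℝ) + 1 / 2) / M ≤ 11 / 12 := by
    have h1 := (hrat (1 / 2)).eventually (le_mem_nhds (show (1 / 12 : ℝ) < 5 / 6 by norm_num))
    have h2 := (hrat (1 / 2)).eventually (ge_mem_nhds (show (5 / 6 : ℝ) < 11 / 12 by norm_num))
    exact h1.and h2
  have hkn : ∀ᶠ M : ℕ in atTop, κ M + n ≤ M + 1 := by
    have h2 := (hrat n).eventually (gt_mem_nhds (show (5 / 6 : ℝ) < 1 by norm_num))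
    filter_upwards [h2, hpos] with M h3 hM0
    rw [div_lt_one hM0] at h3
    have : κ M + n < M := by exact_mod_cast h3
    omega
  have herr : Tendsto (fun M : ℕ => 2 * (Real.log (S M (κ M)) - Real.log M / 2 -
      M * Fr (((κ M : ℝ) + 1 / 2) / M))) atTop (𝓝 0) := by
    have h1 : Tendsto (fun M : ℕ => 2 * C0 / (M : ℝ)) atTop (𝓝 0) :=
      tendsto_const_nhds.div_atTop tendsto_natCast_atTop_atTop
    refine squeeze_zero_norm' ?_ h1
    filter_upwards [hwin, hkn] with M h2 h3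
    rw [norm_mul, Real.norm_of_nonneg (by norm_num : (0 : ℝ) ≤ 2), Real.norm_eq_abs, mul_div_assoc]
    exact mul_le_mul_of_nonneg_left (hA M (κ M) (by omega) h2.1 h2.2) (by norm_num)
  have hcore : Tendsto (fun M : ℕ => S M (κ M) ^ 2 / M * Real.exp (-(2 * M * Fr (5 / 6)))) atTop
      (𝓝 (Real.exp (-(Real.pi * Real.sqrt 3 * t ^ 2)))) := by
    have h1 := herr.add hexp
    rw [zero_add] at h1
    have h2 := (Real.continuous_exp.tendsto _).comp h1
    refine h2.congr' ?_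
    filter_upwards [hkn, hpos] with M h3 hM0
    have hS := S_pos (M := M) (k := κ M) (by omega)
    have e1 : S M (κ M) ^ 2 / M = Real.exp (2 * Real.log (S M (κ M)) - Real.log M) := by
      rw [Real.exp_sub, Real.exp_log hM0, two_mul, Real.exp_add, Real.exp_log hS]
      ring
    simp only [Function.comp_apply]
    rw [e1, ← Real.exp_add]
    congr 1
    ring
  have hsg : ∀ i : ℕ, Tendsto (fun M : ℕ => sg M (κ M + i + 1)) atTop (𝓝 1) := by
    intro i
    have h1 := hrat ((i : ℝ) + 1)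
    have h2 : Tendsto (fun M : ℕ => 2 * Real.sin (Real.pi * (((κ M : ℝ) + (i + 1)) / M))) atTop
        (𝓝 (2 * Real.sin (Real.pi * (5 / 6)))) :=
      (((Real.continuous_sin.tendsto _).comp (h1.const_mul Real.pi))).const_mul 2
    rw [F8B_sin56] at h2
    have e : (2 : ℝ) * (1 / 2) = 1 := by norm_num
    rw [e] at h2
    refine h2.congr ?_
    intro M
    unfold sg
    push_cast
    congr 2
    ring
  have hprod : ∀ a : ℕ, Tendsto (fun M : ℕ => ∏ i ∈ Finset.range a, sg M (κ M + i + 1)) atTop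
      (𝓝 1) := by
    intro a
    have h1 := tendsto_finsetProd (Finset.range a) (fun i _ => hsg i)
    simpa using h1
  have hall := hcore.mul (((hprod (g - 1)).mul (hprod (n - g - 1))).mul (hprod (n - 2)))
  rw [one_mul, one_mul, mul_one] at hall
  refine hall.congr' ?_
  filter_upwards [hkn] with M h1
  show _ = F8h n g M (κ M)
  unfold F8h
  rw [if_pos h1]

end Pool.Agent.H63.TC
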