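import Pool.Agent.H63.TC.CvChain
import Pool.Agent.H63.VC3.BWff
import Pool.Agent.H63.VC4.SWgen
import Pool.Agent.H63.VC5.FFdilog

/-! # The figure eight knot: volume and complex volume -/

namespace Pool.Agent.H63.TC

open Pool.Agent.H63.VC Pool.Agent.H63.VC3 Pool.Agent.H63.VC4 Pool.Agent.H63.VC5
  Pool.Agent.H63.TW Complex

theorem F8G_cases (p s : ℤ) (h : p * s = -1) : (p = 1 ∧ s = -1) ∨ (p = -1 ∧ s = 1) := by
  have h1 : IsUnit p := IsUnit.of_mul_eq_one (-s) (by linarith)
  rcases Int.isUnit_iff.1 h1 with rfl | rfl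
  · left; exact ⟨rfl, by linarith⟩
  · right; exact ⟨rfl, by linarith⟩

theorem F8G_conway (p s : ℤ) (h : p * s = -1) : conway [p, s] = [2, 2] := by
  rcases F8G_cases p s h with ⟨rfl, rfl⟩ | ⟨rfl, rfl⟩ <;> rfl

theorem F8G_hinge (i : ℕ) : IsHinge [2, 2] i ↔ i = 1 := by
  unfold IsHinge
  constructor
  · rintro ⟨j, h1, h2, h3⟩
    have hj : j = 1 := by
      simp only [List.length_cons, List.length_nil] at h2
      omega
    subst hj
    simp at h3
    omega
  · rintro rfl
    exact ⟨1, le_refl _, by simp, by simp⟩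

/-- The shape of the regular ideal tetrahedron. -/
noncomputable def F8G_z : ℂ := exp (Real.pi / 3 * I)

theorem F8G_val : F8G_z = 1 / 2 + (Real.sqrt 3 / 2 : ℝ) * I := by
  unfold F8G_z
  have e : ((Real.pi : ℂ) / 3) = ((Real.pi / 3 : ℝ) : ℂ) := by push_cast; ring
  rw [e, Complex.exp_mul_I, ← Complex.ofReal_cos, ← Complex.ofReal_sin, Real.cos_pi_div_three,
    Real.sin_pi_div_three]
  push_cast
  ring

theorem F8G_quad : F8G_z ^ 2 - F8G_z + 1 = 0 := by
  rw [F8G_val]
  have h3 : ((Real.sqrt 3 : ℝ) : ℂ) ^ 2 = 3 := by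
    rw [← Complex.ofReal_pow, Real.sq_sqrt (by norm_num)]
    norm_num
  push_cast
  linear_combination (1 / 4 * I ^ 2) * h3 + 3 / 4 * Complex.I_sq

theorem F8G_im : 0 < F8G_z.im := by
  rw [F8G_val]
  simp

theorem F8G_ne : F8G_z ≠ 0 := Complex.exp_ne_zero _

theorem F8G_inv : F8G_z⁻¹ = 1 - F8G_z := by
  have h := F8G_quad
  have h0 := F8G_ne
  field_simp
  linear_combination h

theorem F8G_cube : F8G_z ^ 3 = -1 := by
  linear_combination (F8G_z + 1) * F8G_quad

theorem F8G_one_sub : 1 - F8G_z = exp (-(Real.pi / 3 * I)) := by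
  rw [← F8G_inv, Complex.exp_neg]
  rfl

theorem F8G_log : Complex.log F8G_z = Real.pi / 3 * I := by
  have hpi := Real.pi_pos
  unfold F8G_z
  have e : ((Real.pi : ℂ) / 3 * I).im = Real.pi / 3 := by
    have : ((Real.pi : ℂ) / 3 * I) = ((Real.pi / 3 : ℝ) : ℂ) * I := by push_cast; ring
    rw [this]; simp
  exact Complex.log_exp (by rw [e]; linarith) (by rw [e]; linarith)

theorem F8G_log' : Complex.log (1 - F8G_z) = -(Real.pi / 3 * I) := by
  have hpi := Real.pi_pos
  rw [F8G_one_sub]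
  have e : (-((Real.pi : ℂ) / 3 * I)).im = -(Real.pi / 3) := by
    have : (-((Real.pi : ℂ) / 3 * I)) = ((-(Real.pi / 3) : ℝ) : ℂ) * I := by push_cast; ring
    rw [this]; simp
  exact Complex.log_exp (by rw [e]; linarith) (by rw [e]; linarith)

theorem F8G_Fr : Fr (1 / 6) = -Fr (5 / 6) := by
  have e : (1 / 6 : ℝ) = -(5 / 6) + 1 := by norm_num
  rw [e, Fr_add_one, Fr_neg]

theorem F8G_arg : exp (2 * Real.pi * I * ((1 / 6 : ℝ) : ℂ)) = F8G_z := by
  unfold F8G_z
  congr 1
  push_cast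
  ring

theorem F8G_bw : blochWigner F8G_z = 2 * Real.pi * Fr (5 / 6) := by
  have h := BWff_circle (1 / 6) (by norm_num) (by norm_num)
  rw [F8G_arg] at h
  rw [h]
  have h2 := F8G_Fr
  have hpi := Real.pi_pos.ne'
  have h3 : Fr (1 / 6) = -lob (Real.pi * (1 / 6)) / Real.pi := rfl
  rw [h3] at h2
  field_simp at h2
  have h4 : Real.pi * (1 / 6) = Real.pi / 6 := by ring
  rw [h4]
  linarith

theorem geo8 (p s : ℤ) (h : p * s = -1) :
    IsGreatest (structureVolumes (conway [p, s])) (2 * Real.pi * (2 * Fr (5 / 6))) := by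
  rw [F8G_conway p s h]
  have key := sw_shapes [2, 2] (fun i => if i = 1 then F8G_z else 1) (by simp) (by simp)
    (by simp) ?_ ?_ ?_
  · have e : (2 * Real.pi * (2 * Fr (5 / 6))) = 2 * ∑ i ∈ Finset.Icc 1 (([2, 2] : List ℕ).sum - 3),
        blochWigner ((fun i => if i = 1 then F8G_z else 1) i) := by
      have e2 : ([2, 2] : List ℕ).sum - 3 = 1 := by simp
      rw [e2, Finset.Icc_self, Finset.sum_singleton]
      simp only [if_true]
      rw [F8G_bw]
      ring
    rw [e]
    exact key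
  · intro i hi
    have e2 : ([2, 2] : List ℕ).sum - 3 = 1 := by simp
    rw [e2, Finset.Icc_self, Finset.mem_singleton] at hi
    subst hi
    simpa using F8G_im
  · intro i hi hn
    have e2 : ([2, 2] : List ℕ).sum - 3 = 1 := by simp
    rw [e2, Finset.Icc_self, Finset.mem_singleton] at hi
    exact absurd ((F8G_hinge i).2 hi) hn
  · intro i hi _
    have e2 : ([2, 2] : List ℕ).sum - 3 = 1 := by simp
    rw [e2, Finset.Icc_self, Finset.mem_singleton] at hi
    subst hi
    have h0 : ¬ IsHinge [2, 2] 0 := by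
      rw [F8G_hinge]; norm_num
    have e3 : shT [2, 2] (fun i => if i = 1 then F8G_z else 1) (1 - 1) = 1 := by
      unfold shT
      rw [if_neg h0]
      simp
    rw [e3]
    simp only [if_true]
    rw [if_neg (by norm_num), map_one, F8G_inv]
    linear_combination F8G_cube

theorem cv8 (p s : ℤ) (h : p * s = -1) :
    ∃ Z : ℂ, IsComplexVolume (conway [p, s]) (decide (p < 0)) Z ∧
      Cg Z (2 * Real.pi * I * (2 * Fr (5 / 6))) := by
  have hσ : sgr p = 1 ∨ sgr p = -1 := by
    unfold sgr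
    split_ifs
    · left; rfl
    · right; rfl
  have hσ2 : ((sgr p : ℝ) : ℂ) ^ 2 = 1 := by
    rcases hσ with e | e <;> rw [e] <;> norm_num
  have hdec : decide (0 < sgr p) = decide (p < 0) := by
    unfold sgr
    by_cases hp : p < 0
    · rw [if_pos hp]; simp [hp]
    · rw [if_neg hp]; simp [hp]
  rw [F8G_conway p s h]
  have key := cv_chain (sgr p) hσ 2 le_rfl [2, 2] (by simp) ?_
    (fun k => if k ≤ 1 then 0 else sgr p * (Real.pi / 3 * I)) (fun _ => F8G_z)
    (fun _ => -1) (fun _ => 0) (by simp) (by simp) ?_ ?_ ?_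
  · obtain ⟨Z, hZ1, hZ2⟩ := key
    refine ⟨Z, ?_, ?_⟩
    · rw [← hdec]; exact hZ1
    · refine hZ2.trans (Cg.of_eq ?_)
      rw [Finset.Icc_self, Finset.sum_singleton]
      simp only [if_true]
      unfold rogers
      rw [F8G_log, F8G_log']
      have hd := ff_dilog ((1 / 6 : ℝ) : ℂ) (by simp) (by
        rw [Complex.ofReal_re]; norm_num)
      rw [F8G_arg, ff_real (1 / 6) (by norm_num) (by norm_num), F8G_Fr] at hd
      push_cast at hd ⊢
      linear_combination 2 * hd + ((Real.pi : ℂ) ^ 2 * (-1 / 9 + 1 / 3)) * Complex.I_sq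
  · intro i h1 h2
    rw [F8G_hinge]
  · intro k h1 h2
    obtain rfl : k = 2 := le_antisymm h2 h1
    refine ⟨F8G_im, ?_⟩
    simp only [show ¬ (2 ≤ 1) by norm_num, if_false]
    have e1 : (-2 * (sgr p : ℂ) * (sgr p * (Real.pi / 3 * I))) = -(Real.pi * I) + Real.pi / 3 * I := by
      linear_combination (-2 * (Real.pi / 3 * I)) * hσ2
    rw [e1, Complex.exp_add, Complex.exp_neg, Complex.exp_pi_mul_I]
    have : exp (Real.pi / 3 * I) = F8G_z := rfl
    rw [this]
    norm_num
  · intro k h1 h2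
    obtain rfl : k = 2 := le_antisymm h2 h1
    simp only [show ¬ (2 ≤ 1) by norm_num, if_false]
    rw [F8G_log]
    push_cast
    linear_combination (2 * (Real.pi / 3 * I)) * hσ2
  · intro k h1 h2
    obtain rfl : k = 2 := le_antisymm h2 h1
    simp only [show ¬ (2 ≤ 1) by norm_num, show (2 - 1 ≤ 1) by norm_num,
      show ¬ (2 + 1 ≤ 1) by norm_num, if_false, if_true]
    rw [F8G_log']
    push_cast
    linear_combination (-(Real.pi / 3 * I)) * hσ2

end Pool.Agent.H63.TC
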