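import Pool.Agent.H63.TC.F8A
import Pool.Agent.H63.TC.F8B

/-! # The figure eight knot: the asymptotics -/

namespace Pool.Agent.H63.TC

open Pool.Agent.H63.VC Pool.Agent.H63.VC3 Pool.Agent.H63.VC5 Pool.Agent.H63.TW Filter
  Topology
open scoped BigOperators

/-- The step function of a sequence with finite support. -/
private noncomputable def F8J_step (F : ℕ → ℝ) (K : ℕ) (x : ℝ) : ℝ :=
  ∑ k ∈ Finset.range K, (Set.Ico (k : ℝ) (k + 1)).indicator (fun _ => F k) x

private theorem F8J_step_meas (F : ℕ → ℝ) (K : ℕ) : Measurable (F8J_step F K) := by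
  unfold F8J_step
  exact Finset.measurable_sum _ fun k _ => measurable_const.indicator measurableSet_Ico

private theorem F8J_step_integral (F : ℕ → ℝ) (K : ℕ) :
    ∫ x : ℝ, F8J_step F K x = ∑ k ∈ Finset.range K, F k := by
  unfold F8J_step
  rw [MeasureTheory.integral_finsetSum]
  · refine Finset.sum_congr rfl fun k _ => ?_
    rw [MeasureTheory.integral_indicator_const _ measurableSet_Ico]
    simp [MeasureTheory.Measure.real]
  · intro k _
    refine (MeasureTheory.integrable_indicator_iff measurableSet_Ico).2 ?_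
    exact MeasureTheory.integrableOn_const (by simp) (by simp)

private theorem F8J_step_eq (F : ℕ → ℝ) (K : ℕ) (hF : ∀ k, K ≤ k → F k = 0) (x : ℝ) :
    F8J_step F K x = if 0 ≤ x then F ⌊x⌋₊ else 0 := by
  unfold F8J_step
  by_cases hx : 0 ≤ x
  · rw [if_pos hx]
    have h1 : ∀ k : ℕ, (Set.Ico (k : ℝ) (k + 1)).indicator (fun _ => F k) x =
        if ⌊x⌋₊ = k then F k else 0 := by
      intro k
      by_cases hk : ⌊x⌋₊ = k
      · rw [if_pos hk, Set.indicator_of_mem]
        exact (Nat.floor_eq_iff hx).1 hk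
      · rw [if_neg hk, Set.indicator_of_notMem]
        intro h
        exact hk ((Nat.floor_eq_iff hx).2 h)
    simp only [h1]
    rw [Finset.sum_ite_eq (Finset.range K) ⌊x⌋₊ F]
    by_cases hK : ⌊x⌋₊ ∈ Finset.range K
    · rw [if_pos hK]
    · rw [if_neg hK, hF _ (by simpa using hK)]
  · rw [if_neg hx]
    refine Finset.sum_eq_zero fun k _ => ?_
    refine Set.indicator_of_notMem ?_ _
    intro h
    have h2 : (0 : ℝ) ≤ k := Nat.cast_nonneg k
    exact hx (h2.trans h.1)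

private theorem F8J_subst (G : ℝ → ℝ) (a s : ℝ) (hs : 0 < s) :
    ∫ t : ℝ, G (a + s * t) = (∫ x : ℝ, G x) / s := by
  have h1 := MeasureTheory.Measure.integral_comp_mul_left (fun y => G (a + y)) s
  have h2 : ∫ y : ℝ, G (a + y) = ∫ x : ℝ, G x := MeasureTheory.integral_add_left_eq_self G a
  rw [h2] at h1
  rw [h1, abs_of_pos (inv_pos.2 hs), smul_eq_mul]
  field_simp

private theorem F8J_dom (c m t u : ℝ) (hc : 0 < c) (hm : 1 ≤ m)
    (hu1 : u ≤ 5 * m / 6 + Real.sqrt m * t) (hu2 : 5 * m / 6 + Real.sqrt m * t < u + 1) :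
    Real.exp (-(c * (u - 5 * m / 6) ^ 2 / m)) ≤ Real.exp c * Real.exp (-(c / 2) * t ^ 2) := by
  rw [← Real.exp_add]
  refine Real.exp_le_exp.2 ?_
  have hm0 : 0 < m := by linarith
  have hsq : Real.sqrt m ^ 2 = m := Real.sq_sqrt hm0.le
  set s := Real.sqrt m with hs
  set r := 5 * m / 6 + s * t - u with hr
  have hr0 : 0 ≤ r := by rw [hr]; linarith
  have hr1 : r < 1 := by rw [hr]; linarith
  have hu : u - 5 * m / 6 = s * t - r := by rw [hr]; ring
  have h1 : m * t ^ 2 / 2 - 1 ≤ (u - 5 * m / 6) ^ 2 := by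
    rw [hu]
    have h3 : m * t ^ 2 = (s * t) ^ 2 := by rw [mul_pow, hsq]
    rw [h3]
    nlinarith [sq_nonneg (s * t - 2 * r), hr0, hr1]
  have h2 : c * (m * t ^ 2 / 2 - 1) / m ≤ c * (u - 5 * m / 6) ^ 2 / m :=
    div_le_div_of_nonneg_right (mul_le_mul_of_nonneg_left h1 hc.le) hm0.le
  have h3 : c * (m * t ^ 2 / 2 - 1) / m = c / 2 * t ^ 2 - c / m := by
    field_simp
  have h4 : c / m ≤ c := div_le_self hc.le hm
  rw [h3] at h2
  linarith

theorem f8_sum (n g : ℕ) (hn : 2 ≤ n) (hg : 1 ≤ g) (hgn : g ≤ n - 1) :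
    Tendsto (fun M : ℕ => (∑ k ∈ Finset.range (M + 2 - n), F8h n g M k) / Real.sqrt M) atTop
      (𝓝 (∫ t : ℝ, Real.exp (-(Real.pi * Real.sqrt 3 * t ^ 2)))) := by
  obtain ⟨C, c, hC, hc, hb⟩ := F8h_bd n g hn hg hgn
  set f : ℕ → ℝ → ℝ := fun M t =>
    F8J_step (F8h n g M) (M + 2 - n) (5 * (M : ℝ) / 6 + Real.sqrt M * t) with hf
  have hz : ∀ M k : ℕ, M + 2 - n ≤ k → F8h n g M k = 0 := by
    intro M k hk
    unfold F8h
    rw [if_neg (by omega)]
  have hfe : ∀ M t, f M t = if 0 ≤ 5 * (M : ℝ) / 6 + Real.sqrt M * t then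
      F8h n g M ⌊5 * (M : ℝ) / 6 + Real.sqrt M * t⌋₊ else 0 := fun M t =>
    F8J_step_eq _ _ (hz M) _
  have hint : ∀ᶠ M : ℕ in atTop, ∫ t : ℝ, f M t =
      (∑ k ∈ Finset.range (M + 2 - n), F8h n g M k) / Real.sqrt M := by
    filter_upwards [eventually_ge_atTop 1] with M hM
    have hM0 : (0 : ℝ) < M := by exact_mod_cast hM
    rw [hf]
    simp only
    rw [F8J_subst (F8J_step (F8h n g M) (M + 2 - n)) _ _ (Real.sqrt_pos.2 hM0),
      F8J_step_integral]
  refine Tendsto.congr' hint ?_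
  refine MeasureTheory.tendsto_integral_filter_of_dominated_convergence
    (fun t => C * (Real.exp c * Real.exp (-(c / 2) * t ^ 2))) ?_ ?_ ?_ ?_
  · filter_upwards with M
    refine Measurable.aestronglyMeasurable ?_
    exact (F8J_step_meas _ _).comp (by fun_prop)
  · filter_upwards [hb, eventually_ge_atTop 1] with M hM hM1
    refine Filter.Eventually.of_forall fun t => ?_
    rw [hfe]
    have hM1' : (1 : ℝ) ≤ M := by exact_mod_cast hM1
    by_cases h0 : 0 ≤ 5 * (M : ℝ) / 6 + Real.sqrt M * t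
    · rw [if_pos h0]
      obtain ⟨h1, h2⟩ := hM ⌊5 * (M : ℝ) / 6 + Real.sqrt M * t⌋₊
      rw [Real.norm_of_nonneg h1]
      refine h2.trans (mul_le_mul_of_nonneg_left ?_ hC.le)
      exact F8J_dom c M t _ hc hM1' (Nat.floor_le h0) (Nat.lt_floor_add_one _)
    · rw [if_neg h0, norm_zero]
      positivity
  · exact ((integrable_exp_neg_mul_sq (by linarith : 0 < c / 2)).const_mul _).const_mul _
  · refine Filter.Eventually.of_forall fun t => ?_
    have h1 := F8h_lim n g hn hg hgn t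
    refine Tendsto.congr' ?_ h1
    obtain ⟨M0, hM0⟩ := exists_nat_gt (4 * t ^ 2)
    filter_upwards [eventually_ge_atTop (max M0 1)] with M hM
    have hMr : (M0 : ℝ) ≤ M := by exact_mod_cast (le_max_left _ _).trans hM
    have hMp : (0 : ℝ) < M := by exact_mod_cast (le_max_right M0 1).trans hM
    rw [hfe, if_pos]
    have hsq : Real.sqrt M ^ 2 = M := Real.sq_sqrt hMp.le
    have hs : 0 < Real.sqrt M := Real.sqrt_pos.2 hMp
    have h2 : 4 * t ^ 2 < Real.sqrt M ^ 2 := by rw [hsq]; linarith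
    have h3 : |2 * t| < Real.sqrt M := by
      refine abs_lt_of_sq_lt_sq ?_ hs.le
      nlinarith
    have h4 := (abs_lt.1 h3).1
    have h5 : (M : ℝ) = Real.sqrt M * Real.sqrt M := by rw [← sq, hsq]
    nlinarith

theorem jlim8 (n g : ℕ) (hn : 2 ≤ n) (hg : 1 ≤ g) (hgn : g ≤ n - 1) : ∃ κ : ℂ, κ ≠ 0 ∧
    Tendsto (fun M : ℕ => JN 1 (-1) n g M / (((M : ℝ) ^ (2 * (n : ℝ) - 5 / 2) : ℝ) *
      Complex.exp (M * (2 * Fr (5 / 6) : ℝ)))) atTop (𝓝 κ) := by
  obtain ⟨d, hd, hD⟩ := Dg_lim n g hn hg hgn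
  have hS := f8_sum n g hn hg hgn
  set G : ℝ := ∫ t : ℝ, Real.exp (-(Real.pi * Real.sqrt 3 * t ^ 2)) with hG
  have hG0 : 0 < G := by
    have h1 : G = Real.sqrt (Real.pi / (Real.pi * Real.sqrt 3)) := by
      rw [hG, ← integral_gaussian]
      congr 1
      funext t
      congr 1
      ring
    rw [h1]
    positivity
  refine ⟨-((G / d : ℝ) : ℂ), ?_, ?_⟩
  · rw [neg_ne_zero]
    exact_mod_cast (div_pos hG0 hd).ne'
  · have h1 : Tendsto (fun M : ℕ => (∑ k ∈ Finset.range (M + 2 - n), F8h n g M k) /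
        Real.sqrt M / ((M : ℝ) ^ (2 * (n : ℝ) - 4) * Dg n g M)) atTop (𝓝 (G / d)) :=
      hS.div hD hd.ne'
    have h2 := ((Complex.continuous_ofReal.tendsto _).comp h1).neg
    refine Tendsto.congr' ?_ h2
    filter_upwards [eventually_ge_atTop (max n 1)] with M hM
    have hMn : n ≤ M := (le_max_left _ _).trans hM
    have hMp : (0 : ℝ) < M := by exact_mod_cast (le_max_right n 1).trans hM
    rw [JN_f8 n g M hn hg hgn hMn]
    simp only [Function.comp_apply]
    have e1 : Complex.exp (M * (2 * Fr (5 / 6) : ℝ)) =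
        ((Real.exp (2 * M * Fr (5 / 6)) : ℝ) : ℂ) := by
      rw [Complex.ofReal_exp]
      congr 1
      push_cast
      ring
    have e2 : (M : ℝ) ^ (2 * (n : ℝ) - 5 / 2) =
        (M : ℝ) ^ (2 * (n : ℝ) - 4) * (M * Real.sqrt M) := by
      have h3 : (M : ℝ) * Real.sqrt M = (M : ℝ) ^ (3 / 2 : ℝ) := by
        rw [Real.sqrt_eq_rpow, ← Real.rpow_one_add' hMp.le (by norm_num)]
        norm_num
      rw [h3, ← Real.rpow_add hMp]
      congr 1
      ring
    rw [e1, e2, neg_div, ← Complex.ofReal_mul, ← Complex.ofReal_div]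
    congr 2
    have hE : Real.exp (2 * M * Fr (5 / 6)) ≠ 0 := (Real.exp_pos _).ne'
    have hs : Real.sqrt M ≠ 0 := (Real.sqrt_pos.2 hMp).ne'
    have hP : (M : ℝ) ^ (2 * (n : ℝ) - 4) ≠ 0 := (Real.rpow_pos_of_pos hMp _).ne'
    generalize Real.exp (2 * M * Fr (5 / 6)) = E at *
    generalize (M : ℝ) ^ (2 * (n : ℝ) - 4) = P at *
    generalize Real.sqrt M = s at *
    generalize (∑ k ∈ Finset.range (M + 2 - n), F8h n g M k) = Q
    have hM' := hMp.ne'
    by_cases hD0 : Dg n g M = 0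
    · rw [hD0]
      simp
    · field_simp

end Pool.Agent.H63.TC
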