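import Pool.Agent.H63.GO.Defs
import Pool.Agent.H63.GV.Mir
import Pool.Agent.H63.VC12.Fin12

/-! # The final theorem from the asymptotics, the volume and the complex volume -/

namespace Pool.Agent.H63.TC

open Filter Topology Pool.Agent.H63.VC Pool.Agent.H63.VC3 Pool.Agent.H63.VC4 Pool.Agent.H63.VC5
  Pool.Agent.H63.VC7 Pool.Agent.H63.VC11 Pool.Agent.H63.GO
open Complex (I exp)

/-- The final form of the theorem. -/
def Concl (r1 r2 : ℤ) : Prop :=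
    ∃ V C : ℝ, IsGreatest (structureVolumes (conway [r1, r2])) V ∧
    (∃ Z : ℂ, IsComplexVolume (conway [r1, r2]) (decide (r1 < 0)) Z ∧
      ∃ k : ℤ, Z = I * (V + C * I) + k * (Real.pi : ℂ) ^ 2) ∧
    ∀ n a : ℕ, 2 ≤ n → 1 ≤ a → a ≤ n - 1 → ∃ J : ℕ → ℂ,
      (∀ N : ℕ, Tendsto (fun q => coloredSU
          (diagram (m := 1) Fin.castSucc ![r1, r2]) n N q)
        (𝓝[≠] exp (Real.pi * I / (N + a))) (𝓝 (J N))) ∧
      (∃ L : ℕ → ℂ, (∀ᶠ N : ℕ in atTop, exp (L N) = J N) ∧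
        Tendsto (fun N : ℕ => 2 * (Real.pi : ℂ) * L N / (N + 1)) atTop
          (𝓝 (V + C * I))) ∧
      Tendsto (fun N : ℕ => 2 * (Real.pi : ℂ) * Complex.log (J N) / (N + 1)) atTop (𝓝 (V : ℂ)) ∧
      ∃ κ : ℂ, κ ≠ 0 ∧ Tendsto (fun N : ℕ => J N /
        ((((N : ℝ) + a) ^ (2 * (n : ℝ) - 5 / 2) : ℝ) *
          exp ((N + a) * (V + C * I) / (2 * Real.pi)))) atTop (𝓝 κ)

theorem fin_of (r1 r2 : ℤ) (h10 : r1 ≠ 0) (h20 : r2 ≠ 0) (c : ℂ)
    (hgeo : IsGreatest (structureVolumes (conway [r1, r2])) (2 * Real.pi * c.re))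
    (hcv : ∃ Z : ℂ, IsComplexVolume (conway [r1, r2]) (decide (r1 < 0)) Z ∧
      Cg Z (2 * Real.pi * I * c))
    (h : ∀ n g : ℕ, 2 ≤ n → 1 ≤ g → g ≤ n - 1 → ∃ κ : ℂ, κ ≠ 0 ∧
      Tendsto (fun M : ℕ => JN r1 r2 n g M / (((M : ℝ) ^ (2 * (n : ℝ) - 5 / 2) : ℝ) *
        exp (M * c))) atTop (𝓝 κ)) : Concl r1 r2 := by
  obtain ⟨Z, hZ, nZ, hnZ⟩ := hcv
  refine ⟨2 * Real.pi * c.re, 2 * Real.pi * c.im, hgeo, ⟨Z, hZ, nZ, ?_⟩,
    fun n a hn ha han => ?_⟩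
  · rw [hnZ]
    conv_lhs => rw [← Complex.re_add_im c]
    push_cast
    ring
  obtain ⟨κ, hκ, hlim⟩ := h n a hn ha han
  have hπ : (Real.pi : ℂ) ≠ 0 := by exact_mod_cast Real.pi_ne_zero
  have hW : (((2 * Real.pi * c.re : ℝ) : ℂ) + ((2 * Real.pi * c.im : ℝ) : ℂ) * I) =
      2 * Real.pi * c := by
    conv_rhs => rw [← Complex.re_add_im c]
    push_cast
    ring
  obtain ⟨J, hJd⟩ : ∃ J : ℕ → ℂ, ∀ N, J N = suChain [r1, r2] n N
      (exp (Real.pi * I / (N + a))) := ⟨_, fun _ => rfl⟩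
  have hJ : ∀ N, n ≤ N → J N = -JN r1 r2 n a (N + a) := fun N hN => by
    rw [hJd]
    exact Pool.Agent.H63.GV.suChain_JN r1 r2 h10 h20 n a N hn ha han hN
  have hasy : Tendsto (fun N : ℕ => J N /
        ((((N : ℝ) + a) ^ (2 * (n : ℝ) - 5 / 2) : ℝ) *
          exp ((N + a) * (((2 * Real.pi * c.re : ℝ) : ℂ) +
            ((2 * Real.pi * c.im : ℝ) : ℂ) * I) / (2 * Real.pi)))) atTop (𝓝 (-κ)) := by
    have h2 := (hlim.comp (tendsto_add_atTop_nat a)).neg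
    refine h2.congr' ?_
    filter_upwards [eventually_ge_atTop n] with N hN
    simp only [Function.comp]
    have e : ((N : ℂ) + a) * (2 * Real.pi * c) / (2 * Real.pi) = ((N + a : ℕ) : ℂ) * c := by
      push_cast
      field_simp
    rw [hJ N hN, hW, e, neg_div]
    congr 3
    push_cast
    rfl
  have hnorm : Tendsto (fun N : ℕ => ‖J N‖ /
        (((N + a : ℕ) : ℝ) ^ (2 * (n : ℝ) - 5 / 2) * Real.exp ((N + a : ℕ) * c.re)))
        atTop (𝓝 ‖(-κ)‖) := by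
    refine (hasy.norm).congr fun N => ?_
    have e : ((N : ℂ) + a) * (2 * Real.pi * c) / (2 * Real.pi) = ((N + a : ℕ) : ℂ) * c := by
      push_cast
      field_simp
    rw [norm_div, norm_mul, Complex.norm_exp, Complex.norm_real, Real.norm_eq_abs,
      abs_of_nonneg (by positivity), hW, e]
    congr 2
    · push_cast
      rfl
    · congr 1
      simp
  have hlog := final_log J a ha (2 * (n : ℝ) - 5 / 2) c.re ‖(-κ)‖
    (norm_pos_iff.2 (neg_ne_zero.2 hκ)) hnorm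
  refine ⟨J, fun N => ?_, Pool.Agent.H63.VC6.log_lift J a ha _ _ (-κ) (neg_ne_zero.2 hκ) hasy,
    hlog, -κ, neg_ne_zero.2 hκ, hasy⟩
  have h1 := Pool.Agent.H63.VC12.Fin12_lim 1 ⟨1, rfl⟩ ![r1, r2] n N a hn ha
  have e : (List.finRange (1 + 1)).map ![r1, r2] = [r1, r2] := rfl
  rw [e, ← hJd] at h1
  exact h1

end Pool.Agent.H63.TC
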