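import Pool.Agent.H63.TC.PosT
import Pool.Agent.H63.VC4.SWgen
import Pool.Agent.H63.VC3.Fan

/-! # The hyperbolic structure of the twist knots -/

namespace Pool.Agent.H63.TC

open Pool.Agent.H63.VC Pool.Agent.H63.VC3 Pool.Agent.H63.VC4 Pool.Agent.H63.VC5
  Pool.Agent.H63.TW Complex
open scoped BigOperators

private theorem GeoS_cas (y : ℂ) (k : ℕ) :
    Xs y k * Xs y (k + 2) = Xs y (k + 1) ^ 2 - 1 := by
  induction k with
  | zero =>
    rw [Xs_zero, zero_add, Xs_one]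
    ring
  | succ k ih =>
    have e1 : Xs y (k + 1 + 2) = y * Xs y (k + 2) - Xs y (k + 1) := Xs_rec y (k + 1)
    have e2 : Xs y (k + 2) = y * Xs y (k + 1) - Xs y k := Xs_rec y k
    have e3 : Xs y (k + 1 + 1) = Xs y (k + 2) := rfl
    rw [e1, e3]
    linear_combination (-Xs y (k + 2)) * e2 + ih

private theorem GeoS_re (m : ℕ) (w : ℂ) (hc : CritW 1 m w) (k : ℕ) (hk : 1 ≤ k) (hkm : k ≤ m) :
    0 < ((k : ℂ) * w).re ∧ ((k : ℂ) * w).re < 1 := by
  have h1 := hc.re_pos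
  have h2 := hc.re_lt
  have hk1 : (1 : ℝ) ≤ k := by exact_mod_cast hk
  have hk2 : (k : ℝ) ≤ m := by exact_mod_cast hkm
  have e : ((k : ℂ) * w).re = k * w.re := by simp
  rw [e]
  constructor
  · positivity
  · nlinarith

private theorem GeoS_sin (m : ℕ) (w : ℂ) (hc : CritW 1 m w) (k : ℕ) (hk : 1 ≤ k) (hkm : k ≤ m) :
    exp (hh (k * w)) = 2 * sin (k * (Real.pi * w)) ∧ sin (k * (Real.pi * w)) ≠ 0 := by
  obtain ⟨h1, h2⟩ := GeoS_re m w hc k hk hkm
  have h3 := hh_exp_s ((k : ℂ) * w) h1 h2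
  have e : (Real.pi : ℂ) * (k * w) = k * (Real.pi * w) := by ring
  rw [e] at h3
  refine ⟨h3, fun h4 => ?_⟩
  rw [h4, mul_zero] at h3
  exact exp_ne_zero _ h3

private theorem GeoS_X (m : ℕ) (w : ℂ) (hc : CritW 1 m w) (k : ℕ) (hk : 1 ≤ k) (hkm : k ≤ m) :
    Xs (2 * cos (Real.pi * w)) k ≠ 0 ∧ zT 1 w k = (Xs (2 * cos (Real.pi * w)) k ^ 2)⁻¹ := by
  have hm := hc.hm
  obtain ⟨a1, a2⟩ := GeoS_sin m w hc k hk hkm
  obtain ⟨b1, b2⟩ := GeoS_sin m w hc 1 le_rfl (by omega)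
  rw [Nat.cast_one, one_mul, one_mul] at b1
  rw [Nat.cast_one, one_mul] at b2
  have hX := Xs_sin w k
  have hX0 : Xs (2 * cos (Real.pi * w)) k ≠ 0 := by
    intro h
    rw [h, zero_mul] at hX
    exact a2 hX.symm
  refine ⟨hX0, ?_⟩
  have e : zT 1 w k = exp (hh w) ^ 2 / exp (hh (k * w)) ^ 2 := by
    unfold zT
    rw [← exp_nat_mul, ← exp_nat_mul, ← exp_sub]
    congr 1
    push_cast
    ring
  rw [e, a1, b1, ← hX]
  field_simp

theorem sw_T (m : ℕ) (w : ℂ) (hc : CritW 1 m w) (a : List ℕ) (ha : a.sum = m + 2)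
    (hin : ∀ i, 1 ≤ i → i ≤ m - 1 → (IsHinge a i ↔ i = m - 1)) :
    IsGreatest (structureVolumes a)
      (2 * ∑ k ∈ Finset.Icc 2 m, blochWigner ((Xs (2 * cos (Real.pi * w)) k ^ 2)⁻¹)) := by
  have hm := hc.hm
  have hX : ∀ k, 1 ≤ k → k ≤ m → Xs (2 * cos (Real.pi * w)) k ≠ 0 := fun k h1 h2 =>
    (GeoS_X m w hc k h1 h2).1
  have hz : ∀ k, 1 ≤ k → k ≤ m → zT 1 w k = (Xs (2 * cos (Real.pi * w)) k ^ 2)⁻¹ :=
    fun k h1 h2 => (GeoS_X m w hc k h1 h2).2
  have hcl : Xs (2 * cos (Real.pi * w)) (m + 1) = -I * Xs (2 * cos (Real.pi * w)) m := by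
    have h1 := close_T 1 m w hc
    have h2 := Xs_sin w m
    have h3 := Xs_sin w (m + 1)
    obtain ⟨-, b2⟩ := GeoS_sin m w hc 1 le_rfl (by omega)
    rw [Nat.cast_one, one_mul] at b2
    apply mul_right_cancel₀ b2
    rw [h3, mul_assoc, h2]
    push_cast
    rw [h1]
    push_cast
    ring
  set y : ℂ := 2 * cos (Real.pi * w) with hy
  set sh : ℕ → ℂ := fun i => if 1 ≤ i ∧ i ≤ m - 1 then (Xs y (i + 1) ^ 2)⁻¹ else 1 with hsh
  have hsh1 : ∀ i, i ≤ m - 1 → sh i = (Xs y (i + 1) ^ 2)⁻¹ := by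
    intro i hi
    rcases Nat.eq_zero_or_pos i with h | h
    · rw [h, zero_add, Xs_one]
      simp [hsh]
    · simp only [hsh]
      rw [if_pos ⟨h, hi⟩]
  have hshm : sh m = 1 := by
    simp only [hsh]
    rw [if_neg (by omega)]
  have hsh0 : sh 0 = 1 := by
    rw [hsh1 0 (by omega), zero_add, Xs_one]
    simp
  have hshT : ∀ i, i < m - 1 → shT a sh i = (Xs y (i + 1) ^ 2)⁻¹ := by
    intro i hi
    rw [← hsh1 i hi.le]
    unfold shT
    split_ifs with h
    · rcases Nat.eq_zero_or_pos i with h2 | h2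
      · rw [h2, hsh0]
        simp
      · exact absurd ((hin i h2 hi.le).1 h) hi.ne
    · rfl
  have e1 : a.sum - 3 = m - 1 := by omega
  have e2 : a.sum - 2 = m := by omega
  have key := sw_shapes a sh (by omega) hsh0 (by rw [e2]; exact hshm)
    (by
      rw [e1]
      intro i hi
      obtain ⟨h1, h2⟩ := Finset.mem_Icc.1 hi
      rw [hsh1 i h2, ← hz (i + 1) (by omega) (by omega)]
      exact zT_pos 1 m w hc (i + 1) (by omega) (by omega))
    (by
      rw [e1]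
      intro i hi hn
      obtain ⟨h1, h2⟩ := Finset.mem_Icc.1 hi
      have h3 : i ≠ m - 1 := fun h => hn ((hin i h1 h2).2 h)
      obtain ⟨j, rfl⟩ : ∃ j, i = j + 1 := ⟨i - 1, by omega⟩
      rw [hsh1 (j + 1) h2, hsh1 (j + 1 + 1) (by omega), Nat.add_sub_cancel,
        hshT j (by omega), inv_inv]
      have c := GeoS_cas y (j + 1)
      have n1 := hX (j + 1) (by omega) (by omega)
      have n3 := hX (j + 1 + 2) (by omega) (by omega)
      have c1 : Xs y (j + 1 + 1 + 1) = Xs y (j + 1 + 2) := rfl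
      rw [c1]
      have c2 : (1 - Xs y (j + 1 + 1) ^ 2) ^ 2 = (Xs y (j + 1) * Xs y (j + 1 + 2)) ^ 2 := by
        rw [c]; ring
      rw [c2]
      field_simp)
    (by
      rw [e1]
      intro i hi hn
      obtain ⟨h1, h2⟩ := Finset.mem_Icc.1 hi
      have h3 : i = m - 1 := (hin i h1 h2).1 hn
      obtain ⟨j, rfl⟩ : ∃ j, i = j + 1 := ⟨i - 1, by omega⟩
      have h4 : j + 1 + 1 = m := by omega
      rw [hsh1 (j + 1) h2, h4, hshm, Nat.add_sub_cancel, hshT j (by omega), inv_inv, map_one,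
        mul_one]
      have c := GeoS_cas y (j + 1)
      have c1 : Xs y (j + 1 + 2) = -I * Xs y m := by
        rw [← hcl]
        congr 1
        omega
      rw [c1, h4] at c
      have n1 := hX (j + 1) (by omega) (by omega)
      have n2 := hX m (by omega) le_rfl
      have c2 : (1 - Xs y m ^ 2) ^ 2 = -(Xs y (j + 1) * Xs y m) ^ 2 := by
        have : (1 - Xs y m ^ 2) ^ 2 = (Xs y (j + 1) * (-I * Xs y m)) ^ 2 := by
          rw [c]; ring
        rw [this]
        linear_combination (Xs y (j + 1) * Xs y m) ^ 2 * I_sq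
      rw [c2]
      field_simp)
  have hsum : ∑ i ∈ Finset.Icc 1 (a.sum - 3), blochWigner (sh i) =
      ∑ k ∈ Finset.Icc 2 m, blochWigner ((Xs y k ^ 2)⁻¹) := by
    rw [e1]
    apply Finset.sum_bij (fun i _ => i + 1)
    · intro i hi
      obtain ⟨h1, h2⟩ := Finset.mem_Icc.1 hi
      exact Finset.mem_Icc.2 ⟨by omega, by omega⟩
    · intro i _ j _ h
      omega
    · intro k hk
      obtain ⟨h1, h2⟩ := Finset.mem_Icc.1 hk
      exact ⟨k - 1, Finset.mem_Icc.2 ⟨by omega, by omega⟩, by omega⟩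
    · intro i hi
      obtain ⟨h1, h2⟩ := Finset.mem_Icc.1 hi
      rw [hsh1 i h2]
  rw [hsum] at key
  exact key

end Pool.Agent.H63.TC
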