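import Pool.Agent.H63.TC.GeoS
import Pool.Agent.H63.VC3.BWff

/-! # The volume of the twist knots -/

namespace Pool.Agent.H63.TC

open Pool.Agent.H63.VC Pool.Agent.H63.VC3 Pool.Agent.H63.VC4 Pool.Agent.H63.VC5
  Pool.Agent.H63.TW Complex
open scoped BigOperators

private theorem GeoV_sin_ne (w : ℂ) (hw : 0 < w.im) (k : ℕ) (hk : 1 ≤ k) :
    sin (k * (Real.pi * w)) ≠ 0 := by
  intro h
  rw [Complex.sin_eq_zero_iff] at h
  obtain ⟨j, hj⟩ := h
  have h2 := congrArg Complex.im hj
  have h3 : (k * (Real.pi * w) : ℂ).im = k * (Real.pi * w.im) := by simp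
  have h4 : ((j : ℂ) * Real.pi).im = 0 := by simp
  rw [h3, h4] at h2
  have h5 : (0 : ℝ) < k := by exact_mod_cast hk
  have h6 := mul_pos h5 (mul_pos Real.pi_pos hw)
  linarith

private theorem GeoV_sin (z : ℂ) (k : ℕ) :
    sin (k * (Real.pi * z)) * (2 * I) * exp (k * (Real.pi * z) * I) =
      exp (2 * Real.pi * I * z) ^ k - 1 := by
  have h1 : exp (2 * Real.pi * I * z) ^ k = exp (k * (Real.pi * z) * I) ^ 2 := by
    rw [← Complex.exp_nat_mul, ← Complex.exp_nat_mul]
    congr 1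
    push_cast
    ring
  have h2 : exp (-(k * (Real.pi * z)) * I) * exp (k * (Real.pi * z) * I) = 1 := by
    rw [← Complex.exp_add]
    simp
  rw [h1, Complex.sin]
  linear_combination I ^ 2 * h2 + (1 - exp (k * (Real.pi * z) * I) ^ 2) * I_sq

/-- The volume of the fan. -/
theorem fan_T (m : ℕ) (w : ℂ) (hc : CritW 1 m w) :
    ∑ k ∈ Finset.Icc 2 m, blochWigner ((Xs (2 * cos (Real.pi * w)) k ^ 2)⁻¹) =
      blochWigner (I * exp (Real.pi * I * w)) + blochWigner (I * exp (-(Real.pi * I * w))) := by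
  have hw : 0 < w.im := by
    have := hc.im_pos
    rwa [one_mul] at this
  have hm := hc.hm
  have hs := GeoV_sin_ne w hw
  rw [fan_sum w m (by omega) (fun k h1 _ => hs k h1)]
  have cl := close_T 1 m w hc
  have s1 := GeoV_sin w 1
  have s2 := GeoV_sin w m
  have s3 := GeoV_sin w (m + 1)
  set q : ℂ := exp (2 * Real.pi * I * w) with hq
  set a : ℂ := exp (Real.pi * I * w) with ha
  have ha0 : a ≠ 0 := exp_ne_zero _
  have hai : exp (-(Real.pi * I * w)) = a⁻¹ := by rw [ha, ← exp_neg]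
  have hqa : q = a ^ 2 := by
    rw [hq, ha, ← Complex.exp_nat_mul]
    congr 1
    push_cast
    ring
  have hE : exp (((m + 1 : ℕ) : ℂ) * (Real.pi * w) * I) = exp (m * (Real.pi * w) * I) * a := by
    rw [ha, ← Complex.exp_add]
    congr 1
    push_cast
    ring
  have key : q ^ (m + 1) - 1 = -(I * a) * (q ^ m - 1) := by
    rw [← s3, ← s2, hE]
    have e1 : ((m + 1 : ℕ) : ℂ) * (Real.pi * w) = (m + 1) * (Real.pi * w) := by push_cast; ring
    rw [e1, cl]
    push_cast
    ring
  have hn : ∀ k : ℕ, 1 ≤ k → q ^ k - 1 ≠ 0 := by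
    intro k hk
    have := GeoV_sin w k
    rw [← hq] at this
    rw [← this]
    exact mul_ne_zero (mul_ne_zero (hs k hk) (mul_ne_zero two_ne_zero I_ne_zero))
      (Complex.exp_ne_zero _)
  have hq1 : q - 1 ≠ 0 := by
    have := hn 1 le_rfl
    rwa [pow_one] at this
  have hqm : q ^ m - 1 ≠ 0 := hn m (by omega)
  have r1 : qn q (m + 1) / qn q m = -(I * a) := by
    unfold qn
    rw [key]
    field_simp
  have r2 : qn q (m + 1) = 1 + q * qn q m := by
    unfold qn
    rw [pow_succ]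
    field_simp
    ring
  have r3 : qn q (m + 1) = -(I * a) * qn q m := by
    unfold qn
    rw [key]
    ring
  have r4 : qn q (m + 1) * (1 - I * a) = 1 := by
    have e1 : qn q (m + 1) * (1 - I * a) = qn q (m + 1) - I * a * qn q (m + 1) := by ring
    rw [e1]
    nth_rewrite 2 [r3]
    rw [r2, hqa]
    linear_combination (a ^ 2 * qn (a ^ 2) m) * I_sq
  have r5 : qn q (m + 1) = (1 - I * a)⁻¹ := eq_inv_of_mul_eq_one_left r4
  have r6 : (-(I * a))⁻¹ = I * a⁻¹ := by
    rw [inv_neg, mul_inv, Complex.inv_I]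
    ring
  rw [r1, r5, hai, SWpath_inv, SWpath_one_sub, ← r6, SWpath_inv]
  ring

/-- The real part of the critical value. -/
theorem re_VT (p s : ℤ) (v : ℂ) (hc : CritT p s v) (h0 : |v.re| < 1 / 2) :
    2 * Real.pi * (VT p s v).re =
      2 * (blochWigner (I * exp (Real.pi * I * v)) + blochWigner (I * exp (-(Real.pi * I * v)))) := by
  rw [abs_lt] at h0
  have k1 : (3 / 4 + v / 2 : ℂ).re = 3 / 4 + v.re / 2 := by
    simp [Complex.add_re]
  have k2 : (3 / 4 - v / 2 : ℂ).re = 3 / 4 - v.re / 2 := by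
    simp [Complex.sub_re]
  have k3 : (3 / 4 + v / 2 : ℂ).im = v.im / 2 := by
    simp [Complex.add_im]
  have k4 : (3 / 4 - v / 2 : ℂ).im = -(v.im / 2) := by
    simp [Complex.sub_im]
  have f1 := ff_re_bw (3 / 4 + v / 2) (by rw [k1]; linarith [h0.1]) (by rw [k1]; linarith [h0.2])
  have f2 := ff_re_bw (3 / 4 - v / 2) (by rw [k2]; linarith [h0.2]) (by rw [k2]; linarith [h0.1])
  rw [k3] at f1
  rw [k4] at f2
  set a : ℂ := exp (Real.pi * I * v) with ha
  have ha0 : a ≠ 0 := exp_ne_zero _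
  have hai : exp (-(Real.pi * I * v)) = a⁻¹ := by rw [ha, ← exp_neg]
  have hI : exp (3 * Real.pi / 2 * I) = -I := by
    have e : (3 * Real.pi / 2 * I : ℂ) = Real.pi * I + Real.pi / 2 * I := by ring
    rw [e, Complex.exp_add, Complex.exp_pi_mul_I, Complex.exp_pi_div_two_mul_I]
    ring
  have e1 : exp (2 * Real.pi * I * (3 / 4 + v / 2)) = (I * a⁻¹)⁻¹ := by
    have e : (2 * Real.pi * I * (3 / 4 + v / 2) : ℂ) = 3 * Real.pi / 2 * I + Real.pi * I * v := by
      ring
    rw [e, Complex.exp_add, hI, ← ha, mul_inv, inv_inv, Complex.inv_I]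
  have e2 : exp (2 * Real.pi * I * (3 / 4 - v / 2)) = (I * a)⁻¹ := by
    have e : (2 * Real.pi * I * (3 / 4 - v / 2) : ℂ) =
        3 * Real.pi / 2 * I + -(Real.pi * I * v) := by
      ring
    rw [e, Complex.exp_add, hI, hai, mul_inv, Complex.inv_I]
  rw [e1, SWpath_inv] at f1
  rw [e2, SWpath_inv] at f2
  have ec := congrArg Complex.im hc.eq
  have g1 : (Real.pi * I * (4 * p - s) * v : ℂ).im = Real.pi * (4 * p - s) * v.re := by
    simp [Complex.mul_im, Complex.mul_re]
  have g2 : (2 * Real.pi * I : ℂ).im = 2 * Real.pi := by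
    simp [Complex.mul_im, Complex.mul_re]
  rw [Complex.add_im, Complex.add_im, g1, g2, Complex.zero_im, TW.LT, Complex.sub_im] at ec
  have hV : (VT p s v).re = 2 * (ff (3 / 4 + v / 2)).re + 2 * (ff (3 / 4 - v / 2)).re -
      Real.pi * (4 * p - s) * v.re * v.im - 2 * Real.pi * v.im := by
    have g3 : (2 * Real.pi * I * (p - s / 4) * v ^ 2 : ℂ).re =
        -(Real.pi * (4 * p - s) * v.re * v.im) := by
      have e : (2 * Real.pi * I * (p - s / 4) * v ^ 2 : ℂ) =
          ((Real.pi * (4 * p - s) / 2 : ℝ) : ℂ) * (I * v ^ 2) := by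
        push_cast
        ring
      rw [e, Complex.re_ofReal_mul, pow_two]
      simp only [Complex.mul_re, Complex.mul_im, Complex.I_re, Complex.I_im]
      ring
    have g4 : (2 * Real.pi * I * v : ℂ).re = -(2 * Real.pi * v.im) := by
      simp [Complex.mul_re]
    have g5 : (2 * ff (3 / 4 + v / 2)).re = 2 * (ff (3 / 4 + v / 2)).re := by
      simp [Complex.mul_re]
    have g6 : (2 * ff (3 / 4 - v / 2)).re = 2 * (ff (3 / 4 - v / 2)).re := by
      simp [Complex.mul_re]
    rw [VT, VU, W0, Complex.add_re, Complex.add_re, Complex.add_re, g3, g4, g5, g6]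
    ring
  rw [hV, hai]
  linear_combination 2 * f1 + 2 * f2 - 2 * Real.pi * v.im * ec

theorem geoT (p s : ℤ) (hp : 2 ≤ |p|) (hs : s = 1 ∨ s = -1) (v : ℂ) (hc : CritT p s v) :
    IsGreatest (structureVolumes (conway [p, s])) (2 * Real.pi * (VT p s v).re) := by
  have h0 : |v.re| < 1 / 2 := by
    have h1 := hc.re_lt
    have h2 : (2 : ℝ) ≤ |(p : ℝ)| := by
      have : ((2 : ℤ) : ℝ) ≤ ((|p| : ℤ) : ℝ) := by exact_mod_cast hp
      simpa using this
    have h3 : |(s : ℝ)| = 1 := by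
      rcases hs with h | h <;> simp [h]
    have h4 : (7 : ℝ) ≤ |(4 * p - s : ℝ)| := by
      have h5 := abs_sub_abs_le_abs_sub (4 * (p : ℝ)) (s : ℝ)
      rw [abs_mul, h3] at h5
      have h6 : |(4 : ℝ)| = 4 := by norm_num
      rw [h6] at h5
      linarith
    have h5 := abs_nonneg v.re
    nlinarith
  obtain ⟨ca, ch⟩ := conway_mp p s hs (Or.inl hp)
  have hW := critW_of p s hp hs v hc
  rw [re_VT p s v hc h0]
  rcases lt_or_ge p 0 with hneg | hpos
  · have hsg : sgr p = 1 := by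
      unfold sgr
      rw [if_pos hneg]
    rw [hsg, Complex.ofReal_one, one_mul] at hW
    have h1 := sw_T (mp p s) v hW (conway [p, s]) ca ch
    rwa [fan_T (mp p s) v hW] at h1
  · have hsg : sgr p = -1 := by
      unfold sgr
      rw [if_neg (not_lt.2 hpos)]
    rw [hsg, Complex.ofReal_neg, Complex.ofReal_one, neg_one_mul] at hW
    have hW' := critW_conj (mp p s) (-v) hW
    have h1 := sw_T (mp p s) _ hW' (conway [p, s]) ca ch
    rw [fan_T (mp p s) _ hW'] at h1
    set a : ℂ := exp (Real.pi * I * v) with ha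
    have hai : exp (-(Real.pi * I * v)) = a⁻¹ := by rw [ha, ← exp_neg]
    have b1 : exp (Real.pi * I * (starRingEnd ℂ) (-v)) = (starRingEnd ℂ) a := by
      rw [ha, ← Complex.exp_conj, map_mul, map_mul, Complex.conj_ofReal, Complex.conj_I, map_neg]
      congr 1
      ring
    have b2 : exp (-(Real.pi * I * (starRingEnd ℂ) (-v))) = ((starRingEnd ℂ) a)⁻¹ := by
      rw [Complex.exp_neg, b1]
    have b3 : blochWigner (I * (starRingEnd ℂ) a) = blochWigner (I * a⁻¹) := by
      have e : I * (starRingEnd ℂ) a = (starRingEnd ℂ) (-(I * a)) := by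
        rw [map_neg, map_mul, Complex.conj_I]
        ring
      rw [e, bw_conj, ← SWpath_inv]
      congr 1
      rw [inv_neg, mul_inv, Complex.inv_I]
      ring
    have b4 : blochWigner (I * ((starRingEnd ℂ) a)⁻¹) = blochWigner (I * a) := by
      have e : I * ((starRingEnd ℂ) a)⁻¹ = (starRingEnd ℂ) (-(I * a⁻¹)) := by
        rw [map_neg, map_mul, Complex.conj_I, map_inv₀]
        ring
      rw [e, bw_conj, ← SWpath_inv]
      congr 1
      rw [inv_neg, mul_inv, Complex.inv_I, inv_inv]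
      ring
    rw [b1, b2, b3, b4] at h1
    rwa [hai, add_comm (blochWigner (I * a))]

end Pool.Agent.H63.TC
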