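import Pool.Agent.H63.TC.Defs
import Pool.Agent.H63.GV.LamB

/-! # `Lam` on the strip: derivatives -/

namespace Pool.Agent.H63.TC

open Pool.Agent.H63.VC Pool.Agent.H63.VC3 Pool.Agent.H63.VC5 Pool.Agent.H63.TW Complex Filter
  Topology

/-- On the strip, `|Im hh z| < π / 2`. -/
theorem hh_im_lt (z : ℂ) (h0 : 0 < z.re) (h1 : z.re < 1) : |(hh z).im| < Real.pi / 2 := by
  unfold hh
  rw [Complex.log_im]
  exact Complex.abs_arg_lt_pi_div_two_iff.2 (Or.inl (Clausen_sin_re z h0 h1))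

theorem hh_exp_s (z : ℂ) (h0 : 0 < z.re) (h1 : z.re < 1) : exp (hh z) = 2 * sin (Real.pi * z) := by
  exact hh_exp z h0 h1

/-! ### The three points `w`, `b`, `w + b` -/

theorem LamS1_w {w b : ℂ} (h : Ds w b) : 0 < w.re ∧ w.re < 1 := by
  have h1 := h.w1
  have h2 := h.b1
  have h3 := h.s1
  rw [Complex.add_re] at h3
  constructor <;> linarith

theorem LamS1_b {w b : ℂ} (h : Ds w b) : 0 < b.re ∧ b.re < 1 := by
  have h1 := h.w1
  have h2 := h.b1
  have h3 := h.s1
  rw [Complex.add_re] at h3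
  constructor <;> linarith

theorem LamS1_s {w b : ℂ} (h : Ds w b) : 0 < (w + b).re ∧ (w + b).re < 1 := by
  have h1 := h.w1
  have h2 := h.b1
  have h3 := h.s1
  refine ⟨?_, h3⟩
  rw [Complex.add_re]
  linarith

theorem LamS1_exp_w {w b : ℂ} (h : Ds w b) : exp (hh w) = 2 * sin (Real.pi * w) :=
  hh_exp_s w (LamS1_w h).1 (LamS1_w h).2

theorem LamS1_exp_b {w b : ℂ} (h : Ds w b) : exp (hh b) = 2 * sin (Real.pi * b) :=
  hh_exp_s b (LamS1_b h).1 (LamS1_b h).2

theorem LamS1_exp_s {w b : ℂ} (h : Ds w b) :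
    exp (hh (w + b)) = 2 * sin (Real.pi * (w + b)) :=
  hh_exp_s (w + b) (LamS1_s h).1 (LamS1_s h).2

theorem LamS1_der_w {w b : ℂ} (h : Ds w b) :
    HasDerivAt hh (Real.pi * Complex.cot (Real.pi * w)) w :=
  hh_hasDerivAt w (LamS1_w h).1 (LamS1_w h).2

theorem LamS1_der_b {w b : ℂ} (h : Ds w b) :
    HasDerivAt hh (Real.pi * Complex.cot (Real.pi * b)) b :=
  hh_hasDerivAt b (LamS1_b h).1 (LamS1_b h).2

theorem LamS1_der_s {w b : ℂ} (h : Ds w b) :
    HasDerivAt hh (Real.pi * Complex.cot (Real.pi * (w + b))) (w + b) :=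
  hh_hasDerivAt (w + b) (LamS1_s h).1 (LamS1_s h).2

theorem LamS1_der_sw {w b : ℂ} (h : Ds w b) :
    HasDerivAt (fun w => hh (w + b)) (Real.pi * Complex.cot (Real.pi * (w + b))) w :=
  HasDerivAt.comp_add_const w b (LamS1_der_s h)

theorem LamS1_der_sb {w b : ℂ} (h : Ds w b) :
    HasDerivAt (fun b => hh (w + b)) (Real.pi * Complex.cot (Real.pi * (w + b))) b :=
  HasDerivAt.comp_const_add w b (LamS1_der_s h)

theorem LamS1_sin_ne (z : ℂ) (h0 : 0 < z.re) (h1 : z.re < 1) : sin (Real.pi * z) ≠ 0 := by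
  intro h
  have h2 := hh_exp_s z h0 h1
  rw [h, mul_zero] at h2
  exact exp_ne_zero _ h2

/-! ### The two relations -/

theorem LamS1_rel1 {w b : ℂ} (h : Ds w b) :
    exp (hh (w + b) - hh w + Real.pi * I * b) +
      exp (-(-(hh b - hh w) - Real.pi * I * (w + b) + Real.pi * I)) = 1 := by
  have hw := LamS1_exp_w h
  have hb := LamS1_exp_b h
  have hs := LamS1_exp_s h
  have hw0 : (2 * sin (Real.pi * w) : ℂ) ≠ 0 := by
    rw [← hw]; exact Complex.exp_ne_zero _
  have e1 : exp (hh (w + b) - hh w + Real.pi * I * b) =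
      2 * sin (Real.pi * (w + b)) / (2 * sin (Real.pi * w)) * exp ((Real.pi * b) * I) := by
    rw [Complex.exp_add, Complex.exp_sub, hs, hw]
    congr 2
    ring
  have e2 : exp (-(-(hh b - hh w) - Real.pi * I * (w + b) + Real.pi * I)) =
      -(2 * sin (Real.pi * b) / (2 * sin (Real.pi * w)) *
        exp ((Real.pi * w + Real.pi * b) * I)) := by
    have : -(-(hh b - hh w) - Real.pi * I * (w + b) + Real.pi * I) =
        (hh b - hh w) + (Real.pi * w + Real.pi * b) * I - Real.pi * I := by ring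
    rw [this, Complex.exp_sub, Complex.exp_add, Complex.exp_sub, hb, hw, Complex.exp_pi_mul_I]
    ring
  rw [e1, e2]
  have ht := GV.LamA_trig (Real.pi * w) (Real.pi * b)
  have e3 : (Real.pi : ℂ) * (w + b) = Real.pi * w + Real.pi * b := by ring
  rw [e3]
  exact GV.LamA_alg _ _ _ _ _ hw0 ht

theorem LamS1_rel2 {w b : ℂ} (h : Ds w b) :
    exp (hh (w + b) - hh b + Real.pi * I * w) +
      exp (-(hh b - hh w - Real.pi * I * (w + b) + Real.pi * I)) = 1 := by
  have hw := LamS1_exp_w h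
  have hb := LamS1_exp_b h
  have hs := LamS1_exp_s h
  have hb0 : (2 * sin (Real.pi * b) : ℂ) ≠ 0 := by
    rw [← hb]; exact Complex.exp_ne_zero _
  have e1 : exp (hh (w + b) - hh b + Real.pi * I * w) =
      2 * sin (Real.pi * (w + b)) / (2 * sin (Real.pi * b)) * exp ((Real.pi * w) * I) := by
    rw [Complex.exp_add, Complex.exp_sub, hs, hb]
    congr 2
    ring
  have e2 : exp (-(hh b - hh w - Real.pi * I * (w + b) + Real.pi * I)) =
      -(2 * sin (Real.pi * w) / (2 * sin (Real.pi * b)) *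
        exp ((Real.pi * b + Real.pi * w) * I)) := by
    have : -(hh b - hh w - Real.pi * I * (w + b) + Real.pi * I) =
        (hh w - hh b) + (Real.pi * b + Real.pi * w) * I - Real.pi * I := by ring
    rw [this, Complex.exp_sub, Complex.exp_add, Complex.exp_sub, hb, hw, Complex.exp_pi_mul_I]
    ring
  rw [e1, e2]
  have ht := GV.LamA_trig (Real.pi * b) (Real.pi * w)
  have e3 : (Real.pi : ℂ) * (w + b) = Real.pi * b + Real.pi * w := by ring
  rw [e3]
  exact GV.LamA_alg _ _ _ _ _ hb0 ht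

/-! ### Bounds of the imaginary parts -/

theorem LamS1_bd1 {w b : ℂ} (h : Ds w b) :
    |(hh (w + b) - hh w + Real.pi * I * b).im| < 2 * Real.pi := by
  have hp := Real.pi_pos
  have h1 := hh_im_lt (w + b) (LamS1_s h).1 (LamS1_s h).2
  have h2 := hh_im_lt w (LamS1_w h).1 (LamS1_w h).2
  obtain ⟨h3, h3'⟩ := LamS1_b h
  rw [Complex.add_im, Complex.sub_im, GV.LamA_im_pi]
  rw [abs_lt] at h1 h2
  have h4 : Real.pi * b.re ≤ Real.pi * 1 := mul_le_mul_of_nonneg_left h3'.le hp.le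
  have h5 : 0 ≤ Real.pi * b.re := mul_nonneg hp.le h3.le
  rw [abs_lt]
  constructor <;> linarith [h1.1, h1.2, h2.1, h2.2]

theorem LamS1_bd2 {w b : ℂ} (h : Ds w b) :
    |(hh (w + b) - hh b + Real.pi * I * w).im| < 2 * Real.pi := by
  have hp := Real.pi_pos
  have h1 := hh_im_lt (w + b) (LamS1_s h).1 (LamS1_s h).2
  have h2 := hh_im_lt b (LamS1_b h).1 (LamS1_b h).2
  obtain ⟨h3, h3'⟩ := LamS1_w h
  rw [Complex.add_im, Complex.sub_im, GV.LamA_im_pi]
  rw [abs_lt] at h1 h2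
  have h4 : Real.pi * w.re ≤ Real.pi * 1 := mul_le_mul_of_nonneg_left h3'.le hp.le
  have h5 : 0 ≤ Real.pi * w.re := mul_nonneg hp.le h3.le
  rw [abs_lt]
  constructor <;> linarith [h1.1, h1.2, h2.1, h2.2]

/-! ### Openness of the domain -/

theorem Ds_open {w b : ℂ} (h : Ds w b) : ∀ᶠ p : ℂ × ℂ in 𝓝 (w, b), Ds p.1 p.2 := by
  have e1 : ∀ᶠ p : ℂ × ℂ in 𝓝 (w, b), 0 < p.1.re :=
    (isOpen_lt (by fun_prop) (by fun_prop)).mem_nhds h.w1
  have e2 : ∀ᶠ p : ℂ × ℂ in 𝓝 (w, b), 0 < p.2.re :=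
    (isOpen_lt (by fun_prop) (by fun_prop)).mem_nhds h.b1
  have e3 : ∀ᶠ p : ℂ × ℂ in 𝓝 (w, b), (p.1 + p.2).re < 1 :=
    (isOpen_lt (by fun_prop) (by fun_prop)).mem_nhds h.s1
  filter_upwards [e1, e2, e3] with p q1 q2 q3
  exact ⟨q1, q2, q3⟩

theorem LamS1_nhds_w {w b : ℂ} (h : Ds w b) : ∀ᶠ w' in 𝓝 w, Ds w' b := by
  have hc : ContinuousAt (fun x : ℂ => (x, b)) w := by fun_prop
  exact hc.eventually (Ds_open h)

theorem LamS1_nhds_b {w b : ℂ} (h : Ds w b) : ∀ᶠ b' in 𝓝 b, Ds w b' := by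
  have hc : ContinuousAt (fun x : ℂ => (w, x)) b := by fun_prop
  exact hc.eventually (Ds_open h)

/-! ### The derivatives -/

theorem LamS_w (w b : ℂ) (h : Ds w b) : HasDerivAt (fun w => Lam w b) (GV.LamB_Cw w b) w := by
  unfold GV.LamB_Cw
  have dw := LamS1_der_w h
  have ds := LamS1_der_sw h
  set c := (Real.pi : ℂ) * Complex.cot (Real.pi * w) with hc
  set c1 := (Real.pi : ℂ) * Complex.cot (Real.pi * (w + b)) with hc1
  have did : HasDerivAt (fun w : ℂ => w) 1 w := hasDerivAt_id w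
  have df : HasDerivAt (fun w => hh (w + b) - hh w + Real.pi * I * b) (c1 - c) w :=
    (ds.sub dw).add_const _
  have dg : HasDerivAt (fun w => -(hh b - hh w) - Real.pi * I * (w + b) + Real.pi * I)
      (c - Real.pi * I) w := by
    have := (((dw.const_sub (hh b)).neg).sub
      ((did.add_const b).const_mul ((Real.pi : ℂ) * I))).add_const ((Real.pi : ℂ) * I)
    refine this.congr_deriv ?_
    ring
  have df2 : HasDerivAt (fun w => hh (w + b) - hh b + Real.pi * I * w) (c1 + Real.pi * I) w := by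
    have := (ds.sub_const (hh b)).add (did.const_mul ((Real.pi : ℂ) * I))
    refine this.congr_deriv ?_
    ring
  have dg2 : HasDerivAt (fun w => hh b - hh w - Real.pi * I * (w + b) + Real.pi * I)
      (-c - Real.pi * I) w := by
    have := ((dw.const_sub (hh b)).sub
      ((did.add_const b).const_mul ((Real.pi : ℂ) * I))).add_const ((Real.pi : ℂ) * I)
    refine this.congr_deriv ?_
    ring
  have hn := LamS1_nhds_w h
  have r1 := RG_hasDerivAt _ _ _ _ w df dg (hn.mono fun w' h' => LamS1_rel1 h') (LamS1_bd1 h)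
  have r2 := RG_hasDerivAt _ _ _ _ w df2 dg2 (hn.mono fun w' h' => LamS1_rel2 h') (LamS1_bd2 h)
  have r3 : HasDerivAt (fun w : ℂ => (Real.pi : ℂ) ^ 2 / 2 * (w - b)) ((Real.pi : ℂ) ^ 2 / 2) w := by
    have := (did.sub_const b).const_mul ((Real.pi : ℂ) ^ 2 / 2)
    refine this.congr_deriv ?_
    ring
  have r4 : HasDerivAt (fun w : ℂ => (Real.pi : ℂ) * I / 2 * (hh b - hh w))
      (-((Real.pi : ℂ) * I / 2 * c)) w := by
    have := (dw.const_sub (hh b)).const_mul ((Real.pi : ℂ) * I / 2)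
    refine this.congr_deriv ?_
    ring
  have r := ((((r1.neg).add r2).add r3).add r4).add_const ((Real.pi : ℂ) ^ 2 / 6)
  refine r.congr_deriv ?_
  linear_combination ((Real.pi : ℂ) ^ 2 / 2 - (Real.pi : ℂ) ^ 2 * b) * Complex.I_sq

theorem LamS_b (w b : ℂ) (h : Ds w b) : HasDerivAt (fun b => Lam w b) (GV.LamB_Cb w b) b := by
  unfold GV.LamB_Cb
  have dw := LamS1_der_b h
  have ds := LamS1_der_sb h
  set c := (Real.pi : ℂ) * Complex.cot (Real.pi * b) with hc
  set c1 := (Real.pi : ℂ) * Complex.cot (Real.pi * (w + b)) with hc1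
  have did : HasDerivAt (fun b : ℂ => b) 1 b := hasDerivAt_id b
  have df : HasDerivAt (fun b => hh (w + b) - hh w + Real.pi * I * b) (c1 + Real.pi * I) b := by
    have := (ds.sub_const (hh w)).add (did.const_mul ((Real.pi : ℂ) * I))
    refine this.congr_deriv ?_
    ring
  have dg : HasDerivAt (fun b => -(hh b - hh w) - Real.pi * I * (w + b) + Real.pi * I)
      (-c - Real.pi * I) b := by
    have := (((dw.sub_const (hh w)).neg).sub
      ((did.const_add w).const_mul ((Real.pi : ℂ) * I))).add_const ((Real.pi : ℂ) * I)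
    refine this.congr_deriv ?_
    ring
  have df2 : HasDerivAt (fun b => hh (w + b) - hh b + Real.pi * I * w) (c1 - c) b :=
    (ds.sub dw).add_const _
  have dg2 : HasDerivAt (fun b => hh b - hh w - Real.pi * I * (w + b) + Real.pi * I)
      (c - Real.pi * I) b := by
    have := ((dw.sub_const (hh w)).sub
      ((did.const_add w).const_mul ((Real.pi : ℂ) * I))).add_const ((Real.pi : ℂ) * I)
    refine this.congr_deriv ?_
    ring
  have hn := LamS1_nhds_b h
  have r1 := RG_hasDerivAt _ _ _ _ b df dg (hn.mono fun w' h' => LamS1_rel1 h') (LamS1_bd1 h)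
  have r2 := RG_hasDerivAt _ _ _ _ b df2 dg2 (hn.mono fun w' h' => LamS1_rel2 h') (LamS1_bd2 h)
  have r3 : HasDerivAt (fun b : ℂ => (Real.pi : ℂ) ^ 2 / 2 * (w - b))
      (-((Real.pi : ℂ) ^ 2 / 2)) b := by
    have := (did.const_sub w).const_mul ((Real.pi : ℂ) ^ 2 / 2)
    refine this.congr_deriv ?_
    ring
  have r4 : HasDerivAt (fun b : ℂ => (Real.pi : ℂ) * I / 2 * (hh b - hh w))
      ((Real.pi : ℂ) * I / 2 * c) b :=
    (dw.sub_const (hh w)).const_mul ((Real.pi : ℂ) * I / 2)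
  have r := ((((r1.neg).add r2).add r3).add r4).add_const ((Real.pi : ℂ) ^ 2 / 6)
  refine r.congr_deriv ?_
  linear_combination ((Real.pi : ℂ) ^ 2 * w - (Real.pi : ℂ) ^ 2 / 2) * Complex.I_sq

/-! ### The total derivative -/

theorem LamS1_Cw_cont {w b : ℂ} (h : Ds w b) :
    ContinuousAt (fun p : ℂ × ℂ => GV.LamB_Cw p.1 p.2) (w, b) := by
  have a1 : ContinuousAt (fun p : ℂ × ℂ => hh (p.1 + p.2)) (w, b) :=
    GV.LamB_comp (LamS1_der_s h).continuousAt (by fun_prop) rfl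
  have a2 : ContinuousAt (fun p : ℂ × ℂ => hh p.2) (w, b) :=
    GV.LamB_comp (LamS1_der_b h).continuousAt (by fun_prop) rfl
  have a3 : ContinuousAt (fun p : ℂ × ℂ => hh p.1) (w, b) :=
    GV.LamB_comp (LamS1_der_w h).continuousAt (by fun_prop) rfl
  have a4 : ContinuousAt (fun p : ℂ × ℂ => Complex.cot (Real.pi * p.1)) (w, b) :=
    GV.LamB_comp (g := fun x : ℂ => Complex.cot (Real.pi * x)) (q := fun p : ℂ × ℂ => p.1)
      (GV.LamB_cot_cont (LamS1_sin_ne w (LamS1_w h).1 (LamS1_w h).2)) continuous_fst rfl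
  have a5 : ContinuousAt (fun p : ℂ × ℂ => Complex.cot (Real.pi * (p.1 + p.2))) (w, b) :=
    GV.LamB_comp (g := fun x : ℂ => Complex.cot (Real.pi * x)) (q := fun p : ℂ × ℂ => p.1 + p.2)
      (GV.LamB_cot_cont (LamS1_sin_ne (w + b) (LamS1_s h).1 (LamS1_s h).2)) (by fun_prop) rfl
  unfold GV.LamB_Cw
  exact (((a1.sub a2).mul (continuousAt_const.mul a4)).add
    ((a2.sub a3).mul (continuousAt_const.mul a5))).add (by fun_prop)

theorem LamS1_Cb_cont {w b : ℂ} (h : Ds w b) :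
    ContinuousAt (fun p : ℂ × ℂ => GV.LamB_Cb p.1 p.2) (w, b) := by
  have a1 : ContinuousAt (fun p : ℂ × ℂ => hh (p.1 + p.2)) (w, b) :=
    GV.LamB_comp (LamS1_der_s h).continuousAt (by fun_prop) rfl
  have a2 : ContinuousAt (fun p : ℂ × ℂ => hh p.2) (w, b) :=
    GV.LamB_comp (LamS1_der_b h).continuousAt (by fun_prop) rfl
  have a3 : ContinuousAt (fun p : ℂ × ℂ => hh p.1) (w, b) :=
    GV.LamB_comp (LamS1_der_w h).continuousAt (by fun_prop) rfl
  have a4 : ContinuousAt (fun p : ℂ × ℂ => Complex.cot (Real.pi * p.2)) (w, b) :=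
    GV.LamB_comp (g := fun x : ℂ => Complex.cot (Real.pi * x)) (q := fun p : ℂ × ℂ => p.2)
      (GV.LamB_cot_cont (LamS1_sin_ne b (LamS1_b h).1 (LamS1_b h).2)) continuous_snd rfl
  have a5 : ContinuousAt (fun p : ℂ × ℂ => Complex.cot (Real.pi * (p.1 + p.2))) (w, b) :=
    GV.LamB_comp (g := fun x : ℂ => Complex.cot (Real.pi * x)) (q := fun p : ℂ × ℂ => p.1 + p.2)
      (GV.LamB_cot_cont (LamS1_sin_ne (w + b) (LamS1_s h).1 (LamS1_s h).2)) (by fun_prop) rfl
  unfold GV.LamB_Cb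
  exact (((a2.sub a3).mul (continuousAt_const.mul a5)).add
    ((a3.sub a1).mul (continuousAt_const.mul a4))).sub (by fun_prop)

theorem LamS_total {w b : ℂ} (h : Ds w b) {u v : ℂ → ℂ} {t u' v' : ℂ}
    (hu : HasDerivAt u u' t) (hv : HasDerivAt v v' t) (hut : u t = w) (hvt : v t = b) :
    HasDerivAt (fun t => Lam (u t) (v t)) (GV.LamB_Cw w b * u' + GV.LamB_Cb w b * v') t := by
  have hF : HasStrictFDerivAt (fun p : ℂ × ℂ => Lam p.1 p.2)
      ((ContinuousLinearMap.toSpanSingleton ℂ (GV.LamB_Cw w b)).coprod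
        (ContinuousLinearMap.toSpanSingleton ℂ (GV.LamB_Cb w b))) (w, b) := by
    refine hasStrictFDerivAt_uncurry_coprod (u := (w, b)) (f := Lam)
      (f₁ := fun x y => ContinuousLinearMap.toSpanSingleton ℂ (GV.LamB_Cw x y))
      (f₂ := fun x y => ContinuousLinearMap.toSpanSingleton ℂ (GV.LamB_Cb x y)) ?_ ?_ ?_ ?_
    · filter_upwards [Ds_open h] with p hp
      exact (LamS_w p.1 p.2 hp).hasFDerivAt
    · filter_upwards [Ds_open h] with p hp
      exact (LamS_b p.1 p.2 hp).hasFDerivAt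
    · have h1 := LamS1_Cw_cont h
      have h2 : Continuous fun c : ℂ => ContinuousLinearMap.toSpanSingleton ℂ c :=
        (ContinuousLinearMap.toSpanSingletonCLE (𝕜 := ℂ) (E := ℂ)).continuous
      exact h2.continuousAt.comp h1
    · have h1 := LamS1_Cb_cont h
      have h2 : Continuous fun c : ℂ => ContinuousLinearMap.toSpanSingleton ℂ c :=
        (ContinuousLinearMap.toSpanSingletonCLE (𝕜 := ℂ) (E := ℂ)).continuous
      exact h2.continuousAt.comp h1
  subst hut
  subst hvt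
  have h1 := hF.hasFDerivAt.comp_hasDerivAt t (hu.prodMk hv)
  refine h1.congr_deriv ?_
  simp [mul_comm]

end Pool.Agent.H63.TC
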