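import Pool.Agent.H63.GV.Main
import Pool.Agent.H63.TC.CvT
import Pool.Agent.H63.TC.F8G
import Pool.Agent.H63.TC.F8J
import Pool.Agent.H63.TC.FinT
import Pool.Agent.H63.TC.GeoV
import Pool.Agent.H63.TW.CritEx
import Pool.Agent.H63.TW.JLimT

/-! # The final theorem for all hyperbolic two-bridge knots of genus one -/

namespace Pool.Agent.H63.TC

open Filter Topology Pool.Agent.H63.VC Pool.Agent.H63.VC3 Pool.Agent.H63.VC4 Pool.Agent.H63.VC5
  Pool.Agent.H63.VC7 Pool.Agent.H63.VC11 Pool.Agent.H63.GO Pool.Agent.H63.TW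
open Complex (I exp)

theorem Main_half (p s : ℤ) (hp : 2 ≤ |p|) (hs : s = 1 ∨ s = -1) (v : ℂ) (hc : CritT p s v) :
    |v.re| < 1 / 2 := by
  have h := hc.re_lt
  have h1 : (7 : ℝ) ≤ |(4 * p - s : ℝ)| := by
    have h2 : (7 : ℤ) ≤ |4 * p - s| := by
      rcases abs_cases p with ⟨h3, h4⟩ | ⟨h3, h4⟩ <;> rcases hs with rfl | rfl <;>
        rcases abs_cases (4 * p - 1) with ⟨h5, h6⟩ | ⟨h5, h6⟩ <;>
        rcases abs_cases (4 * p - -1) with ⟨h7, h8⟩ | ⟨h7, h8⟩ <;> omega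
    have h3 : ((7 : ℤ) : ℝ) ≤ ((|4 * p - s| : ℤ) : ℝ) := by exact_mod_cast h2
    push_cast at h3
    exact h3
  have h2 := abs_nonneg v.re
  nlinarith

/-- `s = 1`. -/
theorem fin_one (p : ℤ) (hp : 2 ≤ |p|) : Concl p 1 := by
  obtain ⟨v, hc⟩ := crit_ex p hp
  have hp0 : p ≠ 0 := by
    rintro rfl
    norm_num at hp
  obtain ⟨Z, hZ, hZ'⟩ := cvT p 1 hp (Or.inl rfl) v hc
  refine fin_of p 1 hp0 one_ne_zero
    (VT p 1 v + Real.pi * I / 8 - Real.pi * I * p / 2 + Real.pi * I) ?_ ⟨Z, hZ, hZ'.trans ?_⟩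
    fun n g hn hg hgn => jlimT p hp v hc n g hn hg hgn
  · have h := geoT p 1 hp (Or.inl rfl) v hc
    have e : (VT p 1 v + Real.pi * I / 8 - Real.pi * I * p / 2 + Real.pi * I).re =
        (VT p 1 v).re := by
      simp
    rw [e]
    exact h
  · refine ⟨2 - p, ?_⟩
    push_cast
    linear_combination (-(Real.pi : ℂ) ^ 2 * (2 - p)) * Complex.I_sq

/-- `s = -1`. -/
theorem fin_neg (p : ℤ) (hp : 2 ≤ |p|) : Concl p (-1) := by
  have hp' : 2 ≤ |-p| := by rwa [abs_neg]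
  obtain ⟨v, hc⟩ := crit_ex (-p) hp'
  have hp0 : p ≠ 0 := by
    rintro rfl
    norm_num at hp
  have hh := Main_half (-p) 1 hp' (Or.inl rfl) v hc
  have hc' := crit_conj (-p) 1 v hc hh
  have hV := VT_conj (-p) 1 v hh
  rw [neg_neg] at hc' hV
  set v' : ℂ := -(starRingEnd ℂ) v with hv'
  obtain ⟨Z, hZ, hZ'⟩ := cvT p (-1) hp (Or.inr rfl) v' hc'
  refine fin_of p (-1) hp0 (by norm_num)
    (VT p (-1) v' - Real.pi * I / 8 - Real.pi * I * p / 2 - Real.pi * I) ?_ ⟨Z, hZ, hZ'.trans ?_⟩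
    fun n g hn hg hgn => ?_
  · have h := geoT p (-1) hp (Or.inr rfl) v' hc'
    have e : (VT p (-1) v' - Real.pi * I / 8 - Real.pi * I * p / 2 - Real.pi * I).re =
        (VT p (-1) v').re := by
      simp
    rw [e]
    exact h
  · refine ⟨-2 - p, ?_⟩
    push_cast
    linear_combination (-(Real.pi : ℂ) ^ 2 * (-2 - p)) * Complex.I_sq
  · obtain ⟨κ, hκ, hlim⟩ := jlimT (-p) hp' v hc n g hn hg hgn
    refine ⟨(starRingEnd ℂ) κ, (map_ne_zero _).2 hκ, ?_⟩
    have h1 := (Complex.continuous_conj.tendsto κ).comp hlim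
    refine h1.congr fun M => ?_
    simp only [Function.comp]
    have e1 : JN p (-1) n g M = (starRingEnd ℂ) (JN (-p) 1 n g M) := by
      have h2 := Pool.Agent.H63.GV.JN_neg (-p) 1 (neg_ne_zero.2 hp0) one_ne_zero n g M
      rwa [neg_neg] at h2
    rw [e1, map_div₀, map_mul, Complex.conj_ofReal, ← Complex.exp_conj]
    congr 3
    rw [hV]
    simp only [map_add, map_sub, map_mul, map_div₀, Complex.conj_ofReal, Complex.conj_I,
      map_natCast, map_intCast, map_ofNat]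
    push_cast
    ring

/-- The figure eight knot. -/
theorem fin_eight (p s : ℤ) (h : p * s = -1) : Concl p s := by
  have hps : (p = 1 ∧ s = -1) ∨ (p = -1 ∧ s = 1) := by
    rcases Int.eq_one_or_neg_one_of_mul_eq_neg_one h with h1 | h1
    · left
      exact ⟨h1, by rw [h1] at h; linarith⟩
    · right
      exact ⟨h1, by rw [h1] at h; linarith⟩
  have hre : (2 * (Fr (5 / 6) : ℂ)).re = 2 * Fr (5 / 6) := by
    rw [← Complex.ofReal_ofNat, ← Complex.ofReal_mul, Complex.ofReal_re]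
  refine fin_of p s (by rcases hps with h1 | h1 <;> rw [h1.1] <;> norm_num)
    (by rcases hps with h1 | h1 <;> rw [h1.2] <;> norm_num) (2 * Fr (5 / 6) : ℂ) ?_ (cv8 p s h)
    fun n g hn hg hgn => ?_
  · rw [hre]
    exact geo8 p s h
  · obtain ⟨κ, hκ, hlim⟩ := jlim8 n g hn hg hgn
    have e : ((2 * Fr (5 / 6) : ℝ) : ℂ) = 2 * (Fr (5 / 6) : ℂ) := by push_cast; ring
    rw [e] at hlim
    rcases hps with ⟨rfl, rfl⟩ | ⟨rfl, rfl⟩
    · exact ⟨κ, hκ, hlim⟩
    · refine ⟨(starRingEnd ℂ) κ, (map_ne_zero _).2 hκ, ?_⟩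
      have h1 := (Complex.continuous_conj.tendsto κ).comp hlim
      refine h1.congr fun M => ?_
      simp only [Function.comp]
      have e1 : JN (-1) 1 n g M = (starRingEnd ℂ) (JN 1 (-1) n g M) := by
        have h2 := Pool.Agent.H63.GV.JN_neg 1 (-1) one_ne_zero (by norm_num) n g M
        rwa [neg_neg] at h2
      rw [e1, map_div₀, map_mul, Complex.conj_ofReal, ← Complex.exp_conj]
      congr 3
      simp only [map_mul, Complex.conj_ofReal, map_natCast, map_ofNat]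

theorem fin_all (p r : ℤ) (hr : r ≠ 0) (h : 2 ≤ |p| ∨ p * r = -1) : Concl p r := by
  rcases h with h | h
  · by_cases h2 : 2 ≤ |r|
    · exact Pool.Agent.H63.GV.gfinC p r h h2
    · have h3 : r = 1 ∨ r = -1 := by
        rcases abs_cases r with ⟨h4, h5⟩ | ⟨h4, h5⟩ <;> omega
      rcases h3 with rfl | rfl
      · exact fin_one p h
      · exact fin_neg p h
  · exact fin_eight p r h

end Pool.Agent.H63.TC
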