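import Pool.Agent.H63.TC.LamS1
import Pool.Agent.H63.TC.Crw

/-! # The function `LT` and the domain -/

namespace Pool.Agent.H63.TC

open Pool.Agent.H63.VC Pool.Agent.H63.VC3 Pool.Agent.H63.VC5 Pool.Agent.H63.TW Complex

private theorem StarA_re {w : ℂ} (h : |w.re| < 1 / 2) :
    0 < ((3 : ℂ) / 4 + w / 2).re ∧ ((3 : ℂ) / 4 + w / 2).re < 1 ∧
      0 < ((3 : ℂ) / 4 - w / 2).re ∧ ((3 : ℂ) / 4 - w / 2).re < 1 := by
  rw [abs_lt] at h
  have e1 : ((3 : ℂ) / 4 + w / 2).re = 3 / 4 + w.re / 2 := by simp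
  have e2 : ((3 : ℂ) / 4 - w / 2).re = 3 / 4 - w.re / 2 := by simp
  rw [e1, e2]
  refine ⟨?_, ?_, ?_, ?_⟩ <;> linarith

private theorem StarA_cos_re {w : ℂ} (h : |w.re| < 1 / 2) : 0 < (cos (Real.pi * w)).re := by
  have hpi := Real.pi_pos
  rw [abs_lt] at h
  have e : (Real.pi * w : ℂ) = ((Real.pi * w.re : ℝ) : ℂ) + ((Real.pi * w.im : ℝ) : ℂ) * I := by
    apply Complex.ext <;> simp
  have e2 : cos (Real.pi * w) = ((Real.cos (Real.pi * w.re) * Real.cosh (Real.pi * w.im) : ℝ) : ℂ) +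
      ((-(Real.sin (Real.pi * w.re) * Real.sinh (Real.pi * w.im)) : ℝ) : ℂ) * I := by
    rw [e, Complex.cos_add_mul_I]
    push_cast
    ring
  have e3 : (cos (Real.pi * w)).re = Real.cos (Real.pi * w.re) * Real.cosh (Real.pi * w.im) := by
    rw [e2]
    simp only [add_re, ofReal_re, mul_re, I_re, mul_zero, ofReal_im, I_im, mul_one, sub_self,
      add_zero]
  rw [e3]
  have h1 : 0 < Real.cos (Real.pi * w.re) := Real.cos_pos_of_mem_Ioo
    ⟨by nlinarith only [h.1, hpi], by nlinarith only [h.2, hpi]⟩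
  have h2 := Real.cosh_pos (Real.pi * w.im)
  positivity

theorem LT_deriv (w : ℂ) (h : |w.re| < 1 / 2) :
    HasDerivAt (fun z => TW.LT z) (-(Real.pi / cos (Real.pi * w))) w := by
  obtain ⟨r1, r2, r3, r4⟩ := StarA_re h
  have l0 : HasDerivAt (fun z : ℂ => z / 2) (1 / 2) w := (hasDerivAt_id w).div_const 2
  have l1 : HasDerivAt (fun z : ℂ => 3 / 4 + z / 2) (1 / 2) w := l0.const_add (3 / 4)
  have l2 : HasDerivAt (fun z : ℂ => 3 / 4 - z / 2) (-(1 / 2)) w := l0.const_sub (3 / 4)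
  have d1 := HasDerivAt.comp w (hh_hasDerivAt (3 / 4 + w / 2) r1 r2) l1
  have d2 := HasDerivAt.comp w (hh_hasDerivAt (3 / 4 - w / 2) r3 r4) l2
  refine (d1.sub d2).congr_deriv ?_
  have n1 : sin (Real.pi * (3 / 4 + w / 2)) ≠ 0 := by
    intro h0
    have := slitPlane_ne_zero (Clausen_slit _ r1 r2)
    rw [h0] at this
    simp at this
  have n2 : sin (Real.pi * (3 / 4 - w / 2)) ≠ 0 := by
    intro h0
    have := slitPlane_ne_zero (Clausen_slit _ r3 r4)
    rw [h0] at this
    simp at this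
  have c1 : cos (Real.pi * (3 / 4 + w / 2) + Real.pi * (3 / 4 - w / 2)) = 0 := by
    rw [show (Real.pi * (3 / 4 + w / 2) + Real.pi * (3 / 4 - w / 2) : ℂ) =
      Real.pi / 2 + Real.pi by ring, Complex.cos_add_pi, Complex.cos_pi_div_two, neg_zero]
  have s1 : sin (Real.pi * (3 / 4 + w / 2) + Real.pi * (3 / 4 - w / 2)) = -1 := by
    rw [show (Real.pi * (3 / 4 + w / 2) + Real.pi * (3 / 4 - w / 2) : ℂ) =
      Real.pi / 2 + Real.pi by ring, Complex.sin_add_pi, Complex.sin_pi_div_two]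
  have c2 : cos (Real.pi * w) = cos (Real.pi * (3 / 4 + w / 2) - Real.pi * (3 / 4 - w / 2)) := by
    congr 1
    ring
  rw [Complex.cos_add] at c1
  rw [Complex.sin_add] at s1
  rw [Complex.cos_sub] at c2
  unfold Complex.cot
  generalize sin (Real.pi * (3 / 4 + w / 2)) = a at *
  generalize sin (Real.pi * (3 / 4 - w / 2)) = b at *
  generalize cos (Real.pi * (3 / 4 + w / 2)) = c at *
  generalize cos (Real.pi * (3 / 4 - w / 2)) = d at *
  have c3 : cos (Real.pi * w) = 2 * (a * b) := by linear_combination c2 + c1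
  rw [c3]
  have e1 : (Real.pi * (c / a) * (1 / 2) - Real.pi * (d / b) * -(1 / 2) : ℂ) =
      Real.pi * (a * d + c * b) / (2 * (a * b)) := by
    field_simp
    ring
  rw [e1, s1]
  ring

private theorem StarA_zero (x : ℝ) (h : |x| < 1 / 2) : (LT (x : ℂ)).im = 0 := by
  have h1 := LT_conj (x : ℂ) (by simpa using h)
  rw [Complex.conj_ofReal] at h1
  exact Complex.conj_eq_iff_im.1 h1.symm

theorem LT_im_sign (w : ℂ) (h : |w.re| < 1 / 2) (h1 : 0 ≤ w.im) : (LT w).im ≤ 0 := by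
  have hpi := Real.pi_pos
  have hre : ∀ s : ℝ, ((w.re : ℂ) + s * I).re = w.re := fun s => by simp
  have hd : ∀ s : ℝ, HasDerivAt (fun s : ℝ => (I * LT ((w.re : ℂ) + s * I)).re)
      ((Real.pi / cos (Real.pi * ((w.re : ℂ) + s * I)) : ℂ).re) s := fun s => by
    have hl : HasDerivAt (fun z : ℂ => (w.re : ℂ) + z * I) I (s : ℂ) := by
      have h := ((hasDerivAt_id (s : ℂ)).mul_const I).const_add (w.re : ℂ)
      simpa using h
    have h2 := (HasDerivAt.comp (s : ℂ) (LT_deriv ((w.re : ℂ) + s * I) (by rw [hre]; exact h))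
      hl).const_mul I
    have h3 : HasDerivAt (fun z : ℂ => I * LT ((w.re : ℂ) + z * I))
        (Real.pi / cos (Real.pi * ((w.re : ℂ) + s * I)) : ℂ) (s : ℂ) := by
      refine h2.congr_deriv ?_
      linear_combination (-(Real.pi / cos (Real.pi * ((w.re : ℂ) + s * I)) : ℂ)) * I_mul_I
    exact h3.real_of_complex
  have hm : Monotone (fun s : ℝ => (I * LT ((w.re : ℂ) + s * I)).re) := by
    apply monotone_of_deriv_nonneg (fun s => (hd s).differentiableAt)
    intro s
    rw [(hd s).deriv, Complex.div_re, ofReal_re, ofReal_im, zero_mul, zero_div, add_zero]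
    have h4 := StarA_cos_re (w := (w.re : ℂ) + s * I) (by rw [hre]; exact h)
    have h5 := Complex.normSq_nonneg (cos (Real.pi * ((w.re : ℂ) + s * I)))
    positivity
  have h2 := hm h1
  simp only [Complex.re_add_im, ofReal_zero, zero_mul, add_zero] at h2
  rw [Complex.I_mul_re, Complex.I_mul_re, StarA_zero w.re h] at h2
  linarith

theorem LT_im_bd (w : ℂ) (h : |w.re| < 1 / 2) : |(LT w).im| < Real.pi / 2 := by
  have hpi := Real.pi_pos
  obtain ⟨r1, r2, r3, r4⟩ := StarA_re h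
  have i1 := hh_im_lt _ r1 r2
  have i2 := hh_im_lt _ r3 r4
  have him : (LT w).im = (hh (3 / 4 + w / 2)).im - (hh (3 / 4 - w / 2)).im := by
    unfold TW.LT
    rw [Complex.sub_im]
  have hlt : |(LT w).im| < Real.pi := by
    rw [him, abs_lt]
    rw [abs_lt] at i1 i2
    constructor <;> linarith
  have hexp : exp (LT w) * exp (hh (3 / 4 - w / 2)) = exp (hh (3 / 4 + w / 2)) := by
    unfold TW.LT
    rw [← Complex.exp_add]
    congr 1
    ring
  rw [hh_exp _ r1 r2, hh_exp _ r3 r4] at hexp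
  set E := exp (LT w) with hE
  set q := 2 * sin (Real.pi * (3 / 4 - w / 2)) with hq
  have hqc : (starRingEnd ℂ) q = 2 * sin (Real.pi * (3 / 4 - (starRingEnd ℂ) w / 2)) := by
    rw [hq, map_mul, ← Complex.sin_conj, map_mul, map_sub, map_div₀, map_div₀, Complex.conj_ofReal,
      map_ofNat, map_ofNat, map_ofNat]
  have hw1 : w + (starRingEnd ℂ) w = ((2 * w.re : ℝ) : ℂ) := Complex.add_conj w
  have hw2 : w - (starRingEnd ℂ) w = ((2 * w.im : ℝ) : ℂ) * I := by
    rw [Complex.sub_conj]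
  have key : E * (q * (starRingEnd ℂ) q) =
      ((2 * Real.cos (Real.pi * w.re) : ℝ) : ℂ) + ((-(2 * Real.sinh (Real.pi * w.im)) : ℝ) : ℂ) * I := by
    rw [← mul_assoc, hexp, hqc]
    have e1 : cos (Real.pi * (3 / 4 + w / 2) - Real.pi * (3 / 4 - (starRingEnd ℂ) w / 2)) =
        ((Real.cos (Real.pi * w.re) : ℝ) : ℂ) := by
      rw [Complex.ofReal_cos]
      congr 1
      push_cast at hw1 ⊢
      linear_combination (Real.pi / 2 : ℂ) * hw1
    have e2 : cos (Real.pi * (3 / 4 + w / 2) + Real.pi * (3 / 4 - (starRingEnd ℂ) w / 2)) =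
        ((Real.sinh (Real.pi * w.im) : ℝ) : ℂ) * I := by
      have e3 : (Real.pi * (3 / 4 + w / 2) + Real.pi * (3 / 4 - (starRingEnd ℂ) w / 2) : ℂ) =
          ((Real.pi * w.im : ℝ) : ℂ) * I + Real.pi / 2 + Real.pi := by
        push_cast at hw2 ⊢
        linear_combination (Real.pi / 2 : ℂ) * hw2
      rw [e3, Complex.cos_add_pi, Complex.cos_add_pi_div_two, neg_neg, Complex.sin_mul_I,
        Complex.ofReal_sinh]
    have e4 := Complex.cos_sub (Real.pi * (3 / 4 + w / 2)) (Real.pi * (3 / 4 - (starRingEnd ℂ) w / 2))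
    have e5 := Complex.cos_add (Real.pi * (3 / 4 + w / 2)) (Real.pi * (3 / 4 - (starRingEnd ℂ) w / 2))
    rw [e1] at e4
    rw [e2] at e5
    push_cast
    push_cast at e4 e5
    linear_combination 2 * e5 - 2 * e4
  have hre : (E * (q * (starRingEnd ℂ) q)).re = 2 * Real.cos (Real.pi * w.re) := by
    rw [key]
    simp only [add_re, ofReal_re, mul_re, I_re, mul_zero, ofReal_im, I_im, mul_one, sub_self,
      add_zero]
  rw [Complex.mul_conj, Complex.re_mul_ofReal] at hre
  have hcos : 0 < Real.cos (Real.pi * w.re) := by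
    rw [abs_lt] at h
    exact Real.cos_pos_of_mem_Ioo
      ⟨by nlinarith only [h.1, hpi], by nlinarith only [h.2, hpi]⟩
  have hEre : 0 < E.re := by
    have h5 := Complex.normSq_nonneg q
    by_contra hcon
    push Not at hcon
    have := mul_nonpos_of_nonpos_of_nonneg hcon h5
    linarith
  rw [hE, Complex.exp_re] at hEre
  have hc2 : 0 < Real.cos (LT w).im := (mul_pos_iff_of_pos_left (Real.exp_pos _)).1 hEre
  by_contra hcon
  push Not at hcon
  have h6 : Real.cos |(LT w).im| ≤ 0 := Real.cos_nonpos_of_pi_div_two_le_of_le hcon (by linarith)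
  rw [Real.cos_abs] at h6
  linarith

theorem star_dom (σ : ℝ) (hσ : σ = 1 ∨ σ = -1) (w : ℂ) (h : DW σ w) : Ds w (bS σ w) := by
  have hpi := Real.pi_pos
  obtain ⟨h0, h1, h2⟩ := h
  have hw : |w.re| < 1 / 2 := abs_lt.2 ⟨by linarith, h1⟩
  have hre : (bS σ w).re = 1 - 3 / 2 * w.re + σ * (LT w).im / (2 * Real.pi) := by
    unfold bS
    have e : (σ : ℂ) * LT w / (2 * Real.pi * I) = ((σ / (2 * Real.pi) : ℝ) : ℂ) * (-(I * LT w)) := by
      have := Real.pi_ne_zero
      push_cast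
      rw [div_eq_iff (by
        refine mul_ne_zero (mul_ne_zero two_ne_zero ?_) I_ne_zero
        exact_mod_cast this)]
      have h3 : (Real.pi : ℂ) ≠ 0 := by exact_mod_cast this
      field_simp
      linear_combination ((σ : ℂ) * LT w) * I_sq
    rw [e, Complex.add_re, Complex.sub_re, Complex.one_re, Complex.re_ofReal_mul, Complex.neg_re,
      Complex.I_mul_re, neg_neg]
    have e2 : (3 / 2 * w : ℂ).re = 3 / 2 * w.re := by
      rw [show (3 / 2 * w : ℂ) = ((3 / 2 : ℝ) : ℂ) * w by push_cast; ring, Complex.re_ofReal_mul]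
    rw [e2]
    ring
  have hb := abs_lt.1 (LT_im_bd w hw)
  have hs : σ * (LT w).im ≤ 0 ∧ -(Real.pi / 2) < σ * (LT w).im := by
    rcases hσ with rfl | rfl
    · have := LT_im_sign w hw (by linarith)
      constructor <;> linarith
    · have h3 := LT_im_sign (-w) (by rw [Complex.neg_re, abs_neg]; exact hw)
        (by rw [Complex.neg_im]; linarith)
      rw [LT_neg, Complex.neg_im] at h3
      constructor <;> linarith
  have h3 : σ * (LT w).im / (2 * Real.pi) ≤ 0 :=
    div_nonpos_of_nonpos_of_nonneg hs.1 (by positivity)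
  have h4 : -(1 / 4) < σ * (LT w).im / (2 * Real.pi) := by
    rw [lt_div_iff₀ (by positivity)]
    linarith [hs.2]
  refine ⟨h0, ?_, ?_⟩
  · rw [hre]
    linarith
  · rw [Complex.add_re, hre]
    linarith

theorem critW_dom (σ : ℝ) (m : ℕ) (w : ℂ) (hc : CritW σ m w) : DW σ w := by
  have h1 := hc.re_pos
  have h2 := hc.re_lt
  have h3 : (2 : ℝ) ≤ m := by exact_mod_cast hc.hm
  refine ⟨h1, ?_, hc.im_pos.le⟩
  nlinarith only [h1, h2, h3]

end Pool.Agent.H63.TC
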