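import Pool.Agent.H63.TC.StarA

/-! # The identity for the last layer: derivative -/

namespace Pool.Agent.H63.TC

open Pool.Agent.H63.VC Pool.Agent.H63.VC3 Pool.Agent.H63.VC5 Pool.Agent.H63.TW Complex

/-- The exponential of `LT`. -/
theorem StarD_expLT (w : ℂ) (h : |w.re| < 1 / 2) :
    exp (TW.LT w) * (exp (Real.pi * I * w) + I) = 1 + I * exp (Real.pi * I * w) := by
  rw [abs_lt] at h
  have r1 : (3 / 4 + w / 2 : ℂ).re = 3 / 4 + w.re / 2 := by
    rw [Complex.add_re, Complex.div_ofNat_re, Complex.div_ofNat_re]; simp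
  have r2 : (3 / 4 - w / 2 : ℂ).re = 3 / 4 - w.re / 2 := by
    rw [Complex.sub_re, Complex.div_ofNat_re, Complex.div_ofNat_re]; simp
  have e1 := hh_exp_s (3 / 4 + w / 2) (by rw [r1]; linarith [h.1]) (by rw [r1]; linarith [h.2])
  have e2 := hh_exp_s (3 / 4 - w / 2) (by rw [r2]; linarith [h.2]) (by rw [r2]; linarith [h.1])
  have e3 : exp (TW.LT w) * exp (hh (3 / 4 - w / 2)) = exp (hh (3 / 4 + w / 2)) := by
    rw [← Complex.exp_add]
    congr 1
    unfold TW.LT
    ring
  rw [e1, e2] at e3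
  set x : ℂ := Real.pi * w / 2 with hx
  have a1 : (Real.pi : ℂ) * (3 / 4 + w / 2) = 3 * Real.pi / 4 + x := by rw [hx]; ring
  have a2 : (Real.pi : ℂ) * (3 / 4 - w / 2) = 3 * Real.pi / 4 - x := by rw [hx]; ring
  have hs3 : sin (3 * Real.pi / 4 : ℂ) = sin (Real.pi / 4 : ℂ) := by
    rw [show (3 * Real.pi / 4 : ℂ) = Real.pi - Real.pi / 4 by ring, Complex.sin_pi_sub]
  have hc3 : cos (3 * Real.pi / 4 : ℂ) = -cos (Real.pi / 4 : ℂ) := by
    rw [show (3 * Real.pi / 4 : ℂ) = Real.pi - Real.pi / 4 by ring, Complex.cos_pi_sub]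
  have hs4 : sin (Real.pi / 4 : ℂ) = ((Real.sqrt 2 / 2 : ℝ) : ℂ) := by
    rw [← Real.sin_pi_div_four]; push_cast; rfl
  have hc4 : cos (Real.pi / 4 : ℂ) = ((Real.sqrt 2 / 2 : ℝ) : ℂ) := by
    rw [← Real.cos_pi_div_four]; push_cast; rfl
  have hne : ((Real.sqrt 2 / 2 : ℝ) : ℂ) ≠ 0 := by
    have : (Real.sqrt 2 / 2 : ℝ) ≠ 0 := by positivity
    exact_mod_cast this
  rw [a1, a2, Complex.sin_add, Complex.sin_sub, hs3, hc3, hs4, hc4] at e3
  generalize ((Real.sqrt 2 / 2 : ℝ) : ℂ) = r at e3 hne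
  have e4 : exp (TW.LT w) * (cos x + sin x) = cos x - sin x := by
    apply mul_left_cancel₀ hne
    linear_combination e3 / 2
  have e5 : exp (Real.pi * I * w) = (cos x + sin x * I) ^ 2 := by
    rw [← Complex.exp_mul_I, ← Complex.exp_nat_mul]
    congr 1
    rw [hx]; push_cast; ring
  rw [e5]
  have e6 := Complex.sin_sq_add_cos_sq x
  have e7 : (cos x + sin x * I) ^ 2 = cos x ^ 2 - sin x ^ 2 + 2 * sin x * cos x * I := by
    linear_combination (sin x) ^ 2 * Complex.I_sq
  rw [e7]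
  have e8 : I * (cos x ^ 2 - sin x ^ 2 + 2 * sin x * cos x * I) =
      I * (cos x ^ 2 - sin x ^ 2) - 2 * sin x * cos x := by
    linear_combination (2 * sin x * cos x) * Complex.I_sq
  rw [e8]
  linear_combination (cos x - sin x + I * (cos x + sin x)) * e4 +
    (1 - exp (TW.LT w) * I) * e6

/-- The exponential of the angle `w + b`. -/
theorem StarD_Q (σ : ℝ) (hσ : σ = 1 ∨ σ = -1) (w : ℂ) (h : |w.re| < 1 / 2) :
    exp (Real.pi * (w + bS σ w) * I) ^ 2 * (exp (Real.pi * I * w) *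
      (exp (Real.pi * I * w) + σ * I)) = 1 + σ * I * exp (Real.pi * I * w) := by
  have hpi : (2 * Real.pi * I : ℂ) ≠ 0 := Complex.two_pi_I_ne_zero
  have h1 : exp (Real.pi * (w + bS σ w) * I) ^ 2 * exp (Real.pi * I * w) = exp (σ * TW.LT w) := by
    rw [← Complex.exp_nat_mul, ← Complex.exp_add]
    have : ((2 : ℕ) : ℂ) * (Real.pi * (w + bS σ w) * I) + Real.pi * I * w =
        σ * TW.LT w + 2 * Real.pi * I := by
      unfold bS
      have h2 : σ * TW.LT w / (2 * Real.pi * I) * (2 * Real.pi * I) = σ * TW.LT w :=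
        div_mul_cancel₀ _ hpi
      push_cast
      linear_combination h2
    rw [this, Complex.exp_add, Complex.exp_two_pi_mul_I, mul_one]
  have h3 := StarD_expLT w h
  rw [← mul_assoc, h1]
  generalize exp (Real.pi * I * w) = a at h3 ⊢
  rcases hσ with h | h
  · rw [h]
    push_cast
    rw [one_mul, one_mul]
    exact h3
  · rw [h]
    push_cast
    have h4 : exp (-1 * TW.LT w) * exp (TW.LT w) = 1 := by
      rw [← Complex.exp_add]; simp
    have h5 : exp (-1 * TW.LT w) * (1 + I * a) = a + I := by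
      linear_combination (a + I) * h4 - exp (-1 * TW.LT w) * h3
    linear_combination (-I) * h5 + (exp (-1 * TW.LT w) * a - 1) * Complex.I_sq

/-- The two trigonometric relations. -/
theorem StarD_trig (σ : ℝ) (hσ : σ = 1 ∨ σ = -1) (w : ℂ) (h : |w.re| < 1 / 2) :
    sin (Real.pi * w) * cos (Real.pi * (w + bS σ w)) +
      sin (Real.pi * (w + bS σ w)) * (cos (Real.pi * w) + σ * I) = 0 := by
  have h1 := StarD_Q σ hσ w h
  set θ : ℂ := Real.pi * (w + bS σ w) with hθ
  have e1 : (Real.pi : ℂ) * I * w = Real.pi * w * I := by ring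
  rw [e1] at h1
  set φ : ℂ := Real.pi * w with hφ
  have hE : exp (θ * I) * exp (-θ * I) = 1 := by rw [← Complex.exp_add]; simp
  have ha : exp (φ * I) * exp (-φ * I) = 1 := by rw [← Complex.exp_add]; simp
  rw [Complex.sin, Complex.sin, Complex.cos, Complex.cos]
  generalize exp (θ * I) = E at *
  generalize exp (-θ * I) = E' at *
  generalize exp (φ * I) = a at *
  generalize exp (-φ * I) = a' at *
  linear_combination (I / 2) * (-(E' * a') * h1 + E * (a + σ * I) * a * a' * hE +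
    E * (a + σ * I) * ha - σ * I * E' * ha)

theorem StarD_sin_sq (σ : ℝ) (hσ : σ = 1 ∨ σ = -1) (w : ℂ) (h : |w.re| < 1 / 2) :
    sin (Real.pi * w) ^ 2 =
      sin (Real.pi * (w + bS σ w)) ^ 2 * (2 * σ * I * cos (Real.pi * w)) := by
  have h1 := StarD_trig σ hσ w h
  have h2 := Complex.sin_sq_add_cos_sq (Real.pi * w)
  have h3 := Complex.sin_sq_add_cos_sq (Real.pi * (w + bS σ w))
  have h4 : (σ : ℂ) ^ 2 = 1 := by
    rcases hσ with h | h <;> rw [h] <;> norm_num
  generalize sin (Real.pi * (w + bS σ w)) = S at *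
  generalize cos (Real.pi * (w + bS σ w)) = C at *
  generalize sin (Real.pi * w) = s at *
  generalize cos (Real.pi * w) = c at *
  have h5 : (s * C) ^ 2 = S ^ 2 * (c + σ * I) ^ 2 := by
    have : s * C = -(S * (c + σ * I)) := by linear_combination h1
    rw [this]; ring
  have h6 : ((σ : ℂ) * I) ^ 2 = -1 := by
    rw [mul_pow, h4, Complex.I_sq]; ring
  linear_combination h5 - s ^ 2 * h3 + S ^ 2 * h2 + S ^ 2 * h6

theorem StarD_re_half (w : ℂ) : (w + 1 / 2).re = w.re + 1 / 2 := by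
  rw [Complex.add_re]; norm_num

theorem StarD_expW0 (σ : ℝ) (hσ : σ = 1 ∨ σ = -1) (w : ℂ) (h0 : 0 < w.re) (h1 : w.re < 1 / 2) :
    exp (W0S σ w) = 2 * σ * I * cos (Real.pi * w) := by
  unfold W0S
  rw [Complex.exp_add, hh_exp_s (w + 1 / 2) (by rw [StarD_re_half]; linarith)
    (by rw [StarD_re_half]; linarith)]
  have e1 : (Real.pi : ℂ) * (w + 1 / 2) = Real.pi * w + Real.pi / 2 := by ring
  have e2 : exp (σ * (Real.pi * I) / 2) = σ * I := by
    rcases hσ with h | h
    · rw [h]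
      rw [show (((1 : ℝ) : ℂ) * (Real.pi * I) / 2) = Real.pi / 2 * I by push_cast; ring,
        Complex.exp_pi_div_two_mul_I]
      push_cast; ring
    · rw [h]
      rw [show (((-1 : ℝ) : ℂ) * (Real.pi * I) / 2) = -(Real.pi / 2 * I) by push_cast; ring,
        Complex.exp_neg, Complex.exp_pi_div_two_mul_I, Complex.inv_I]
      push_cast; ring
  rw [e1, Complex.sin_add_pi_div_two, e2]
  ring

theorem StarD_exp2 (σ : ℝ) (hσ : σ = 1 ∨ σ = -1) (w : ℂ) (h0 : 0 < w.re) (h1 : w.re < 1 / 2)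
    (hD : Ds w (bS σ w)) :
    exp (2 * (hh w - hh (w + bS σ w))) = exp (W0S σ w) := by
  have habs : |w.re| < 1 / 2 := by rw [abs_of_pos h0]; exact h1
  rw [StarD_expW0 σ hσ w h0 h1]
  have e1 := hh_exp_s w h0 (by linarith)
  have e2 := hh_exp_s (w + bS σ w) (by rw [Complex.add_re]; linarith [hD.b1, hD.w1]) hD.s1
  have e3 := StarD_sin_sq σ hσ w habs
  have hS : exp (hh (w + bS σ w)) ≠ 0 := Complex.exp_ne_zero _
  have e4 : exp (2 * (hh w - hh (w + bS σ w))) * exp (hh (w + bS σ w)) ^ 2 =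
      exp (hh w) ^ 2 := by
    rw [← Complex.exp_nat_mul, ← Complex.exp_nat_mul, ← Complex.exp_add]
    congr 1
    push_cast
    ring
  apply mul_right_cancel₀ (pow_ne_zero 2 hS)
  rw [e4, e1, e2]
  linear_combination 4 * e3

theorem StarD_W1 (σ : ℝ) (w : ℂ)
    (hΔ : 2 * (hh w - hh (w + bS σ w)) = W0S σ w) :
    W1S σ w (bS σ w) = hh (w + bS σ w) - hh (bS σ w) + σ * (Real.pi * I) / 2 := by
  unfold W0S at hΔ
  unfold W1S
  linear_combination hΔ / 2

theorem StarD_rel (σ : ℝ) (hσ : σ = 1 ∨ σ = -1) (w : ℂ) (h0 : 0 < w.re) (h1 : w.re < 1 / 2)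
    (hD : Ds w (bS σ w)) (hΔ : 2 * (hh w - hh (w + bS σ w)) = W0S σ w) :
    exp (W0S σ w) + exp (-W1S σ w (bS σ w)) = 1 := by
  have habs : |w.re| < 1 / 2 := by rw [abs_of_pos h0]; exact h1
  rw [StarD_W1 σ w hΔ, StarD_expW0 σ hσ w h0 h1]
  have e2 := hh_exp_s (w + bS σ w) (by rw [Complex.add_re]; linarith [hD.b1, hD.w1]) hD.s1
  have e3 := hh_exp_s (bS σ w) hD.b1 (by
    have := hD.s1
    rw [Complex.add_re] at this
    linarith [hD.w1])
  have hS : exp (hh (w + bS σ w)) ≠ 0 := Complex.exp_ne_zero _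
  have e4 : exp (-(hh (w + bS σ w) - hh (bS σ w) + σ * (Real.pi * I) / 2)) *
      exp (hh (w + bS σ w)) = exp (hh (bS σ w)) * exp (-(σ * (Real.pi * I) / 2)) := by
    rw [← Complex.exp_add, ← Complex.exp_add]
    congr 1
    ring
  have e5 : exp (-(σ * (Real.pi * I) / 2)) = -(σ * I) := by
    rcases hσ with h | h
    · rw [h]
      rw [show -(((1 : ℝ) : ℂ) * (Real.pi * I) / 2) = -(Real.pi / 2 * I) by push_cast; ring,
        Complex.exp_neg, Complex.exp_pi_div_two_mul_I, Complex.inv_I]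
      push_cast; ring
    · rw [h]
      rw [show -(((-1 : ℝ) : ℂ) * (Real.pi * I) / 2) = Real.pi / 2 * I by push_cast; ring,
        Complex.exp_pi_div_two_mul_I]
      push_cast; ring
  have e6 := StarD_trig σ hσ w habs
  have e7 : sin (Real.pi * bS σ w) = sin (Real.pi * (w + bS σ w)) * cos (Real.pi * w) -
      cos (Real.pi * (w + bS σ w)) * sin (Real.pi * w) := by
    rw [← Complex.sin_sub]
    congr 1
    ring
  apply mul_right_cancel₀ hS
  rw [add_mul, e4, e5, e3, e7, e2]
  have h4 : (σ : ℂ) ^ 2 = 1 := by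
    rcases hσ with h | h <;> rw [h] <;> norm_num
  have h6 : ((σ : ℂ) * I) ^ 2 = -1 := by
    rw [mul_pow, h4, Complex.I_sq]; ring
  linear_combination (2 * σ * I) * e6 - 2 * sin (Real.pi * (w + bS σ w)) * h6

/-- The signs of the imaginary parts. -/
theorem StarD_im_hh (σ : ℝ) (hσ : σ = 1 ∨ σ = -1) (w : ℂ) (h : DW σ w) :
    0 ≤ σ * (hh w).im ∧ σ * (hh (w + 1 / 2)).im ≤ 0 := by
  obtain ⟨h0, h1, h2⟩ := h
  have hre : (Real.pi * w : ℂ).re = Real.pi * w.re := by simp
  have him : (Real.pi * w : ℂ).im = Real.pi * w.im := by simp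
  have hpi := Real.pi_pos
  have hsin : 0 < Real.sin (Real.pi * w.re) :=
    Real.sin_pos_of_pos_of_lt_pi (by positivity) (by nlinarith)
  have hcos : 0 < Real.cos (Real.pi * w.re) :=
    Real.cos_pos_of_mem_Ioo ⟨by nlinarith, by nlinarith⟩
  have hcosh := Real.cosh_pos (Real.pi * w.im)
  have hsinh : 0 ≤ σ * Real.sinh (Real.pi * w.im) := by
    rcases hσ with h | h
    · rw [h, one_mul] at h2 ⊢
      exact Real.sinh_nonneg_iff.mpr (by positivity)
    · rw [h] at h2 ⊢
      have h3 : w.im ≤ 0 := by linarith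
      have h4 : Real.sinh (Real.pi * w.im) ≤ 0 :=
        Real.sinh_nonpos_iff.mpr (mul_nonpos_of_nonneg_of_nonpos hpi.le h3)
      linarith
  constructor
  · unfold hh
    rw [Complex.log_im]
    have him2 : (2 * sin (Real.pi * w)).im = 2 * (Real.cos (Real.pi * w.re) *
        Real.sinh (Real.pi * w.im)) := by
      rw [show (2 : ℂ) * sin (Real.pi * w) = ((2 : ℝ) : ℂ) * sin (Real.pi * w) by norm_num,
        Complex.im_ofReal_mul, Complex.sin_eq, hre, him]
      simp only [Complex.add_im, Complex.mul_im, Complex.mul_re, Complex.I_re, Complex.I_im,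
        ← Complex.ofReal_sin, ← Complex.ofReal_cos, ← Complex.ofReal_sinh, ← Complex.ofReal_cosh,
        Complex.ofReal_re, Complex.ofReal_im]
      ring
    rcases hσ with h | h
    · rw [h, one_mul]
      rw [h, one_mul] at hsinh
      rw [Complex.arg_nonneg_iff, him2]
      positivity
    · rw [h] at hsinh ⊢
      have h4 : Real.sinh (Real.pi * w.im) ≤ 0 := by linarith
      rcases h4.lt_or_eq with h5 | h5
      · have : arg (2 * sin (Real.pi * w)) < 0 := by
          rw [Complex.arg_neg_iff, him2]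
          nlinarith
        linarith
      · have : (2 * sin (Real.pi * w)).im = 0 := by rw [him2, h5]; ring
        have h6 := Clausen_sin_re w h0 (by linarith)
        have : arg (2 * sin (Real.pi * w)) = 0 := by
          rw [Complex.arg_eq_zero_iff]
          exact ⟨h6.le, this⟩
        rw [this]; simp
  · unfold hh
    have e1 : (Real.pi : ℂ) * (w + 1 / 2) = Real.pi * w + Real.pi / 2 := by ring
    have h6 := Clausen_sin_re (w + 1 / 2) (by rw [StarD_re_half]; linarith)
      (by rw [StarD_re_half]; linarith)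
    rw [Complex.log_im]
    rw [e1, Complex.sin_add_pi_div_two] at h6 ⊢
    have him2 : (2 * cos (Real.pi * w)).im = -(2 * (Real.sin (Real.pi * w.re) *
        Real.sinh (Real.pi * w.im))) := by
      rw [show (2 : ℂ) * cos (Real.pi * w) = ((2 : ℝ) : ℂ) * cos (Real.pi * w) by norm_num,
        Complex.im_ofReal_mul, Complex.cos_eq, hre, him]
      simp only [Complex.sub_im, Complex.mul_im, Complex.mul_re, Complex.I_re, Complex.I_im,
        ← Complex.ofReal_sin, ← Complex.ofReal_cos, ← Complex.ofReal_sinh, ← Complex.ofReal_cosh,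
        Complex.ofReal_re, Complex.ofReal_im]
      ring
    rcases hσ with h | h
    · rw [h, one_mul]
      rw [h, one_mul] at hsinh
      rcases hsinh.lt_or_eq with h5 | h5
      · have : arg (2 * cos (Real.pi * w)) < 0 := by
          rw [Complex.arg_neg_iff, him2]
          have := mul_pos hsin h5
          linarith
        exact this.le
      · have h7 : (2 * cos (Real.pi * w)).im = 0 := by rw [him2, ← h5]; ring
        have : arg (2 * cos (Real.pi * w)) = 0 := by
          rw [Complex.arg_eq_zero_iff]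
          exact ⟨h6.le, h7⟩
        rw [this]
    · rw [h] at hsinh ⊢
      have h4 : 0 ≤ -Real.sinh (Real.pi * w.im) := by linarith
      have : 0 ≤ arg (2 * cos (Real.pi * w)) := by
        rw [Complex.arg_nonneg_iff, him2]
        have := mul_nonneg hsin.le h4
        linarith
      linarith

/-- The logarithm at `w + b`. -/
theorem star_hhm (σ : ℝ) (hσ : σ = 1 ∨ σ = -1) (w : ℂ) (h : DW σ w) :
    2 * (hh w - hh (w + bS σ w)) = W0S σ w := by
  have hD := star_dom σ hσ w h
  obtain ⟨i1, i2⟩ := StarD_im_hh σ hσ w h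
  have h0 := h.1
  have h1 := h.2.1
  have e := StarD_exp2 σ hσ w h0 h1 hD
  rw [Complex.exp_eq_exp_iff_exists_int] at e
  obtain ⟨n, hn⟩ := e
  have j1 := hh_im_lt w h0 (by linarith)
  have j2 := hh_im_lt (w + 1 / 2) (by rw [StarD_re_half]; linarith)
    (by rw [StarD_re_half]; linarith)
  have j3 := hh_im_lt (w + bS σ w) (by rw [Complex.add_re]; linarith [hD.b1, hD.w1]) hD.s1
  rw [abs_lt] at j1 j2 j3
  have him := congrArg Complex.im hn
  unfold W0S at him
  have k1 : (2 * (hh w - hh (w + bS σ w))).im = 2 * ((hh w).im - (hh (w + bS σ w)).im) := by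
    simp
  have k2 : (hh (w + 1 / 2) + σ * (Real.pi * I) / 2 + n * (2 * Real.pi * I)).im =
      (hh (w + 1 / 2)).im + σ * Real.pi / 2 + n * (2 * Real.pi) := by
    have : (σ * (Real.pi * I) / 2 : ℂ) = ((σ * Real.pi / 2 : ℝ) : ℂ) * I := by push_cast; ring
    rw [this]
    have : (n * (2 * Real.pi * I) : ℂ) = ((n * (2 * Real.pi) : ℝ) : ℂ) * I := by push_cast; ring
    rw [this]
    simp
  rw [k1, k2] at him
  have hpi := Real.pi_pos
  have hn0 : n = 0 := by
    clear hn k1 k2
    generalize (hh (w + bS σ w)).im = d at him j3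
    rcases hσ with hs | hs
    · rw [hs] at i1 i2 him
      have a1 : (n : ℝ) < 1 := by
        by_contra hc
        have h9 : (1 : ℝ) ≤ n := not_lt.mp hc
        have h10 : 1 * (2 * Real.pi) ≤ n * (2 * Real.pi) :=
          mul_le_mul_of_nonneg_right h9 (by positivity)
        linarith [j1.1, j1.2, j2.1, j2.2, j3.1, j3.2]
      have a2 : (-1 : ℝ) < n := by
        by_contra hc
        have h9 : (n : ℝ) ≤ -1 := not_lt.mp hc
        have h10 : n * (2 * Real.pi) ≤ -1 * (2 * Real.pi) :=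
          mul_le_mul_of_nonneg_right h9 (by positivity)
        linarith [j1.1, j1.2, j2.1, j2.2, j3.1, j3.2]
      have a3 : n < 1 := by exact_mod_cast a1
      have a4 : -1 < n := by exact_mod_cast a2
      omega
    · rw [hs] at i1 i2 him
      have a1 : (n : ℝ) < 1 := by
        by_contra hc
        have h9 : (1 : ℝ) ≤ n := not_lt.mp hc
        have h10 : 1 * (2 * Real.pi) ≤ n * (2 * Real.pi) :=
          mul_le_mul_of_nonneg_right h9 (by positivity)
        linarith [j1.1, j1.2, j2.1, j2.2, j3.1, j3.2]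
      have a2 : (-1 : ℝ) < n := by
        by_contra hc
        have h9 : (n : ℝ) ≤ -1 := not_lt.mp hc
        have h10 : n * (2 * Real.pi) ≤ -1 * (2 * Real.pi) :=
          mul_le_mul_of_nonneg_right h9 (by positivity)
        linarith [j1.1, j1.2, j2.1, j2.2, j3.1, j3.2]
      have a3 : n < 1 := by exact_mod_cast a1
      have a4 : -1 < n := by exact_mod_cast a2
      omega
  rw [hn, hn0]
  simp

theorem star_rel (σ : ℝ) (hσ : σ = 1 ∨ σ = -1) (w : ℂ) (h : DW σ w) :
    exp (W0S σ w) + exp (-W1S σ w (bS σ w)) = 1 :=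
  StarD_rel σ hσ w h.1 h.2.1 (star_dom σ hσ w h) (star_hhm σ hσ w h)

theorem StarD_bS (σ : ℝ) (w : ℂ) (h : |w.re| < 1 / 2) :
    HasDerivAt (bS σ) (-(3 / 2) + σ * (-(Real.pi / cos (Real.pi * w))) / (2 * Real.pi * I)) w := by
  have h1 := LT_deriv w h
  have h2 := ((hasDerivAt_id w).const_mul (3 / 2 : ℂ)).const_sub 1
  have h3 := (h1.const_mul (σ : ℂ)).div_const (2 * Real.pi * I)
  refine (h2.add h3).congr_deriv ?_
  ring

theorem StarD_near (σ : ℝ) (hσ : σ = 1 ∨ σ = -1) (w : ℂ) (h : DW σ w) :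
    ∀ᶠ s in nhds w, 0 < s.re ∧ s.re < 1 / 2 ∧ Ds s (bS σ s) := by
  have habs : |w.re| < 1 / 2 := by rw [abs_of_pos h.1]; exact h.2.1
  have e1 : ∀ᶠ s : ℂ in nhds w, 0 < s.re :=
    (isOpen_lt continuous_const Complex.continuous_re).mem_nhds h.1
  have e2 : ∀ᶠ s : ℂ in nhds w, s.re < 1 / 2 :=
    (isOpen_lt Complex.continuous_re continuous_const).mem_nhds h.2.1
  have hc : ContinuousAt (fun s : ℂ => (s, bS σ s)) w :=
    continuousAt_id.prodMk (StarD_bS σ w habs).continuousAt
  have e3 := hc.eventually (Ds_open (star_dom σ hσ w h))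
  filter_upwards [e1, e2, e3] with s q1 q2 q3
  exact ⟨q1, q2, q3⟩

/-- The identity of `star_hhm` in a neighborhood. -/
theorem StarD_hhm_near (σ : ℝ) (hσ : σ = 1 ∨ σ = -1) (w : ℂ) (h : DW σ w) :
    ∀ᶠ s in nhds w, 2 * (hh s - hh (s + bS σ s)) = W0S σ s := by
  have habs : |w.re| < 1 / 2 := by rw [abs_of_pos h.1]; exact h.2.1
  have hD := star_dom σ hσ w h
  have c1 : ContinuousAt hh w := (hh_hasDerivAt w h.1 (by linarith [h.2.1])).continuousAt
  have c2 : ContinuousAt (fun s => hh (s + bS σ s)) w := by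
    have c3 : ContinuousAt (fun s : ℂ => s + bS σ s) w :=
      continuousAt_id.add (StarD_bS σ w habs).continuousAt
    have c4 : ContinuousAt hh (w + bS σ w) := (hh_hasDerivAt (w + bS σ w)
      (by rw [Complex.add_re]; linarith [hD.b1, hD.w1]) hD.s1).continuousAt
    exact ContinuousAt.comp (f := fun s : ℂ => s + bS σ s) c4 c3
  have c5 : ContinuousAt (W0S σ) w := by
    have c6 : ContinuousAt hh (w + 1 / 2) := (hh_hasDerivAt (w + 1 / 2)
      (by rw [StarD_re_half]; linarith [h.1]) (by rw [StarD_re_half]; linarith [h.2.1])).continuousAt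
    have c7 : ContinuousAt (fun s : ℂ => hh (s + 1 / 2)) w :=
      ContinuousAt.comp (f := fun s : ℂ => s + 1 / 2) c6 (by fun_prop)
    exact c7.add continuousAt_const
  have c8 : ContinuousAt (fun s => 2 * (hh s - hh (s + bS σ s)) - W0S σ s) w :=
    (continuousAt_const.mul (c1.sub c2)).sub c5
  have c9 : 2 * (hh w - hh (w + bS σ w)) - W0S σ w = 0 := sub_eq_zero.mpr (star_hhm σ hσ w h)
  have e1 : ∀ᶠ s in nhds w, ‖2 * (hh s - hh (s + bS σ s)) - W0S σ s‖ < 1 := by
    have h10 := c8.norm.tendsto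
    simp only [c9, norm_zero] at h10
    exact h10.eventually (gt_mem_nhds one_pos)
  filter_upwards [e1, StarD_near σ hσ w h] with s q1 q2
  have e := StarD_exp2 σ hσ s q2.1 q2.2.1 q2.2.2
  rw [Complex.exp_eq_exp_iff_exists_int] at e
  obtain ⟨n, hn⟩ := e
  have hn2 : 2 * (hh s - hh (s + bS σ s)) - W0S σ s = n * (2 * Real.pi * I) := by
    rw [hn]; ring
  rw [hn2] at q1
  have hn0 : n = 0 := by
    by_contra hne
    have h1 : (1 : ℝ) ≤ |(n : ℝ)| := by
      have : (1 : ℤ) ≤ |n| := Int.one_le_abs hne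
      exact_mod_cast this
    have h2 : ‖(n * (2 * Real.pi * I) : ℂ)‖ = |(n : ℝ)| * (2 * Real.pi) := by
      rw [norm_mul, Complex.norm_intCast]
      congr 1
      rw [norm_mul, Complex.norm_I, mul_one]
      simp [abs_of_pos Real.pi_pos]
    rw [h2] at q1
    have := Real.pi_gt_three
    nlinarith
  rw [hn, hn0]
  simp

theorem star_deriv (σ : ℝ) (hσ : σ = 1 ∨ σ = -1) (w : ℂ) (h : DW σ w) :
    HasDerivAt (fun w => LS σ w - RS σ w) 0 w := by
  have habs : |w.re| < 1 / 2 := by rw [abs_of_pos h.1]; exact h.2.1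
  have hD := star_dom σ hσ w h
  have hnear := StarD_hhm_near σ hσ w h
  have hrel : ∀ᶠ s in nhds w, exp (W0S σ s) + exp (-W1S σ s (bS σ s)) = 1 := by
    filter_upwards [hnear, StarD_near σ hσ w h] with s q1 q2
    exact StarD_rel σ hσ s q2.1 q2.2.1 q2.2.2 q1
  have hs2 : (w + bS σ w).re < 1 := hD.s1
  have hs0 : 0 < (w + bS σ w).re := by rw [Complex.add_re]; linarith [hD.b1, hD.w1]
  have hb1 : (bS σ w).re < 1 := by
    have := hD.s1
    rw [Complex.add_re] at this
    linarith [hD.w1]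
  set L' : ℂ := -(Real.pi / cos (Real.pi * w)) with hL'
  have dL : HasDerivAt (fun z => TW.LT z) L' w := LT_deriv w habs
  set b' : ℂ := -(3 / 2) + σ * L' / (2 * Real.pi * I) with hb'
  have db : HasDerivAt (bS σ) b' w := StarD_bS σ w habs
  set Kw : ℂ := Real.pi * Complex.cot (Real.pi * w) with hKw
  set Kb : ℂ := Real.pi * Complex.cot (Real.pi * bS σ w) with hKb
  set Ks : ℂ := Real.pi * Complex.cot (Real.pi * (w + bS σ w)) with hKs
  set Kh : ℂ := Real.pi * Complex.cot (Real.pi * (w + 1 / 2)) with hKh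
  have dA : HasDerivAt hh Kw w := hh_hasDerivAt w h.1 (by linarith [h.2.1])
  have dB : HasDerivAt (fun s => hh (bS σ s)) (Kb * b') w :=
    (hh_hasDerivAt (bS σ w) hD.b1 hb1).comp w db
  have dD : HasDerivAt (fun s => hh (s + bS σ s)) (Ks * (1 + b')) w :=
    HasDerivAt.comp (h := fun s : ℂ => s + bS σ s) w (hh_hasDerivAt (w + bS σ w) hs0 hs2)
      ((hasDerivAt_id w).add db)
  have dE : HasDerivAt (fun s => hh (s + 1 / 2)) Kh w := by
    have := HasDerivAt.comp (h := fun s : ℂ => s + 1 / 2) w (hh_hasDerivAt (w + 1 / 2)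
      (by rw [StarD_re_half]; linarith [h.1]) (by rw [StarD_re_half]; linarith [h.2.1]))
      ((hasDerivAt_id w).add_const (1 / 2 : ℂ))
    exact this.congr_deriv (mul_one _)
  have dW0 : HasDerivAt (W0S σ) Kh w := dE.add_const _
  have dW0' : HasDerivAt (fun s => 2 * (hh s - hh (s + bS σ s))) (2 * (Kw - Ks * (1 + b'))) w :=
    (dA.sub dD).const_mul 2
  have hKh2 : Kh = 2 * (Kw - Ks * (1 + b')) := by
    have := dW0'.congr_of_eventuallyEq (f₁ := W0S σ) (by
      filter_upwards [hnear] with s hs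
      exact hs.symm)
    exact dW0.unique this
  have dW1 : HasDerivAt (fun s => W1S σ s (bS σ s)) (Kw - Kh / 2 - Kb * b') w := by
    exact (((dA.sub (dE.div_const 2)).sub dB).add_const (σ * (Real.pi * I) / 4 : ℂ))
  have him : |(W0S σ w).im| < 2 * Real.pi := by
    rw [← star_hhm σ hσ w h]
    have j1 := hh_im_lt w h.1 (by linarith [h.2.1])
    have j3 := hh_im_lt (w + bS σ w) hs0 hs2
    rw [abs_lt] at j1 j3 ⊢
    have k1 : (2 * (hh w - hh (w + bS σ w))).im = 2 * ((hh w).im - (hh (w + bS σ w)).im) := by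
      simp
    rw [k1]
    constructor <;> linarith [j1.1, j1.2, j3.1, j3.2]
  have dG := (RG_hasDerivAt (W0S σ) (fun s => W1S σ s (bS σ s)) _ _ w dW0 dW1 hrel him).const_mul 2
  have dLam := LamS_total hD (hasDerivAt_id w) db rfl rfl
  have dff1 : HasDerivAt (fun s : ℂ => ff (3 / 4 + s / 2)) (hh (3 / 4 + w / 2) * (1 / 2)) w := by
    have r1 : (3 / 4 + w / 2 : ℂ).re = 3 / 4 + w.re / 2 := by
      rw [Complex.add_re, Complex.div_ofNat_re, Complex.div_ofNat_re]; simp
    exact HasDerivAt.comp (h := fun s : ℂ => 3 / 4 + s / 2) w (ff_hasDerivAt (3 / 4 + w / 2)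
      (by rw [r1]; linarith [h.1]) (by rw [r1]; linarith [h.2.1]))
      (((hasDerivAt_id w).div_const 2).const_add (3 / 4))
  have dff2 : HasDerivAt (fun s : ℂ => ff (3 / 4 - s / 2)) (hh (3 / 4 - w / 2) * (-(1 / 2))) w := by
    have r1 : (3 / 4 - w / 2 : ℂ).re = 3 / 4 - w.re / 2 := by
      rw [Complex.sub_re, Complex.div_ofNat_re, Complex.div_ofNat_re]; simp
    exact HasDerivAt.comp (h := fun s : ℂ => 3 / 4 - s / 2) w (ff_hasDerivAt (3 / 4 - w / 2)
      (by rw [r1]; linarith [h.2.1]) (by rw [r1]; linarith [h.1]))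
      (((hasDerivAt_id w).div_const 2).const_sub (3 / 4))
  have dLS := (((dG.sub (dLam.const_mul 2)).const_mul (σ : ℂ)).sub
    ((dW0.const_mul (Real.pi * I)).div_const 2))
  have dRS := (((dff1.add dff2).const_mul (4 * Real.pi * I)).sub
    ((hasDerivAt_id w).const_mul (2 * (Real.pi : ℂ) ^ 2 * σ))).sub
    (((hasDerivAt_id w).const_mul (Real.pi * I)).mul dL)
  have dT := dLS.sub dRS
  refine (dT.congr_deriv ?_).congr_of_eventuallyEq (Filter.Eventually.of_forall fun s => ?_)
  · have hA := star_hhm σ hσ w h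
    have hW1 := StarD_W1 σ w hA
    have h4 : (σ : ℂ) ^ 2 = 1 := by
      rcases hσ with h | h <;> rw [h] <;> norm_num
    have hI : (2 * Real.pi * I : ℂ) ≠ 0 := Complex.two_pi_I_ne_zero
    have hb2 : σ * b' * (2 * Real.pi * I) = -(3 / 2) * σ * (2 * Real.pi * I) + L' := by
      have h5 : σ * L' / (2 * Real.pi * I) * (2 * Real.pi * I) = σ * L' := div_mul_cancel₀ _ hI
      rw [hb']
      linear_combination σ * h5 + L' * h4
    have hbw : σ * bS σ w * (2 * Real.pi * I) = σ * (1 - 3 / 2 * w) * (2 * Real.pi * I) +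
        TW.LT w := by
      have h5 : σ * TW.LT w / (2 * Real.pi * I) * (2 * Real.pi * I) = σ * TW.LT w :=
        div_mul_cancel₀ _ hI
      unfold bS
      linear_combination σ * h5 + TW.LT w * h4
    have hLT : TW.LT w = hh (3 / 4 + w / 2) - hh (3 / 4 - w / 2) := rfl
    have hCw : GV.LamB_Cw w (bS σ w) = (hh (w + bS σ w) - hh (bS σ w)) * Kw +
      (hh (bS σ w) - hh w) * Ks + (Real.pi : ℂ) ^ 2 * bS σ w := rfl
    have hCb : GV.LamB_Cb w (bS σ w) = (hh (bS σ w) - hh w) * Ks +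
      (hh w - hh (w + bS σ w)) * Kb - (Real.pi : ℂ) ^ 2 * w := rfl
    rw [hCw, hCb, hW1, ← hA, hKh2]
    simp only [id]
    generalize hh (w + bS σ w) = D at *
    generalize hh (bS σ w) = B at *
    generalize hh w = A at *
    generalize bS σ w = b at *
    generalize hh (3 / 4 + w / 2) = L1 at *
    generalize hh (3 / 4 - w / 2) = L2 at *
    generalize TW.LT w = L at *
    clear_value Kw Kb Ks Kh L' b'
    linear_combination (Real.pi * I) * hbw - (Real.pi * I * w) * hb2 +
      (Real.pi * I * (Kw - Ks * (1 + b'))) * h4 + (-2 * (Real.pi : ℂ) ^ 2 * σ * b +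
      2 * (Real.pi : ℂ) ^ 2 * σ * w * b' + 2 * (Real.pi : ℂ) ^ 2 * σ) * Complex.I_sq +
      2 * Real.pi * I * hLT
  · simp only [LS, RS, Pi.add_apply, Pi.sub_apply, Pi.mul_apply, id]
    ring

end Pool.Agent.H63.TC
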